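import Pool.Agent.H531.PW.Low

set_option autoImplicit false

/-!
# Almost sure statements
-/

open Finset MeasureTheory ProbabilityTheory Filter Topology

namespace Pool.Agent.H531.PW

open Pool.Agent.T2H31.HV Pool.Agent.H531.SI Pool.Agent.H531.MS
open Pool.Agent.T2H32.BF (V V_pos V_anti V_ratio V_step z0 z0_mono z0_lim z0_top z0_mem z0_lt R Model prob ae_lt)

theorem bc {Ω : Type} [MeasurableSpace Ω] (P : Measure Ω) [IsProbabilityMeasure P] (s : ℕ → Set Ω) (f : ℕ → ℝ)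
    (hf : Summable f) (h : ∀ᶠ n : ℕ in atTop, P.real (s n) ≤ f n) : ∀ᵐ ω ∂P, ∀ᶠ n : ℕ in atTop, ω ∉ s n := by
  obtain ⟨N, hN⟩ := eventually_atTop.1 h
  have hsum : ∑' n, P (s (n + N)) ≠ ⊤ := by
    have h1 : Summable fun n : ℕ => f (n + N) := (summable_nat_add_iff N).2 hf
    have h0 : ∀ n, 0 ≤ f (n + N) := fun n => measureReal_nonneg.trans (hN (n + N) (by omega))
    have h2 := ENNReal.ofReal_tsum_of_nonneg h0 h1
    refine ne_top_of_le_ne_top (by rw [← h2]; exact ENNReal.ofReal_ne_top) (ENNReal.tsum_le_tsum fun n => ?_)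
    rw [← ofReal_measureReal]
    exact ENNReal.ofReal_le_ofReal (hN (n + N) (by omega))
  filter_upwards [ae_eventually_notMem hsum] with ω hω
  obtain ⟨M, hM⟩ := eventually_atTop.1 hω
  filter_upwards [eventually_ge_atTop (M + N)] with n hn
  have h3 := hM (n - N) (by omega)
  rwa [Nat.sub_add_cancel (by omega)] at h3

section seq

variable {x y : ℕ → ℕ} {ℓ c : ℝ} (hℓ : 0 < ℓ) (hc : 0 < c)
  (H1 : Tendsto (fun n : ℕ => Real.log (x n) / n) atTop (𝓝 ℓ))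
  (H2 : Tendsto (fun n : ℕ => (y n : ℝ) / (n * Real.log n)) atTop (𝓝 c))
  (H3 : ∀ᶠ n : ℕ in atTop, x n + y n ≤ x (n + 1))

include hℓ hc H1 H2 H3 in
theorem io {Ω : Type} [MeasurableSpace Ω] {P : Measure Ω} {a : ℕ → Ω → ℕ} (h : Model P a)
    (Q : ℕ → ℕ → Prop) (θ ε : ℝ) (hθ : 0 < θ) (hθ1 : θ ≤ 1 / 2) (hε : 0 < ε) (hε1 : ε ≤ 1)
    (hyp : ∀ᶠ n : ℕ in atTop, ∀ Y : ℕ, n ^ 19 ≤ Y → Y ≤ n ^ 20 → ∀ T : Finset ℕ, T ⊆ Ioc (x n) (x n + y n) →
      |(T.card : ℝ) - y n * V Y| ≤ ε * (y n * V Y) →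
        (n : ℝ) ^ (-1 + θ) ≤ Ev (MS.PI Y (z0 (x n))) (fun b => ind (Q n (Sw T (MS.PI Y (z0 (x n))) b).card))) :
    ∀ᵐ ω ∂P, ∃ᶠ n : ℕ in atTop, Q n (MS.sv (z0 (x n)) (x n) (y n) fun q => a q ω) := by
  have := prob h
  obtain ⟨N₀, hN₀⟩ := eventually_atTop.1 (block_prob hℓ hc H1 H2 H3 h Q θ ε hθ hθ1 hε hε1 hyp)
  have hlim : Tendsto (fun N : ℕ => 1 / (N : ℝ) + (2 * (N : ℝ) ^ (-θ) + 4 * (N : ℝ) ^ (-8 : ℝ))) atTop (𝓝 0) := by
    have h1 : Tendsto (fun N : ℕ => 1 / (N : ℝ)) atTop (𝓝 0) := tendsto_one_div_atTop_nhds_zero_nat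
    have h2 : Tendsto (fun N : ℕ => (N : ℝ) ^ (-θ)) atTop (𝓝 0) :=
      (tendsto_rpow_neg_atTop hθ).comp tendsto_natCast_atTop_atTop
    have h3 : Tendsto (fun N : ℕ => (N : ℝ) ^ (-8 : ℝ)) atTop (𝓝 0) :=
      (tendsto_rpow_neg_atTop (by norm_num)).comp tendsto_natCast_atTop_atTop
    have := h1.add ((h2.const_mul 2).add (h3.const_mul 4))
    simpa using this
  have hM : ∀ M : ℕ, P {ω | ∀ n ≥ M, ¬ Q n (MS.sv (z0 (x n)) (x n) (y n) fun q => a q ω)} = 0 := by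
    intro M
    have h1 : P.real {ω | ∀ n ≥ M, ¬ Q n (MS.sv (z0 (x n)) (x n) (y n) fun q => a q ω)} ≤ 0 := by
      refine ge_of_tendsto hlim ?_
      filter_upwards [eventually_ge_atTop N₀, eventually_ge_atTop M] with N h2 h3
      refine le_trans (measureReal_mono ?_ (measure_ne_top _ _)) (hN₀ N h2)
      intro ω hω n hn
      exact hω n (h3.trans (mem_Ico.1 hn).1)
    have h2 := le_antisymm h1 measureReal_nonneg
    rwa [measureReal_eq_zero_iff] at h2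
  have hU : P (⋃ M : ℕ, {ω | ∀ n ≥ M, ¬ Q n (MS.sv (z0 (x n)) (x n) (y n) fun q => a q ω)}) = 0 :=
    measure_iUnion_null hM
  rw [ae_iff]
  refine measure_mono_null (fun ω hω => ?_) hU
  simp only [Set.mem_ofPred_eq, not_frequently, eventually_atTop] at hω
  obtain ⟨M, h1⟩ := hω
  exact Set.mem_iUnion.2 ⟨M, h1⟩

include hℓ hc H1 H2 in
/-- events that happen finitely often -/
theorem fo {Ω : Type} [MeasurableSpace Ω] {P : Measure Ω} {a : ℕ → Ω → ℕ} (h : Model P a)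
    (Q : ℕ → ℕ → Prop) (θ ε : ℝ) (hθ : 0 < θ) (hε : 0 < ε) (hε1 : ε ≤ 1)
    (hyp : ∀ᶠ n : ℕ in atTop, ∀ Y : ℕ, n ^ 19 ≤ Y → Y ≤ n ^ 20 → ∀ T : Finset ℕ, T ⊆ Ioc (x n) (x n + y n) →
      |(T.card : ℝ) - y n * V Y| ≤ ε * (y n * V Y) →
        Ev (MS.PI Y (z0 (x n))) (fun b => ind (Q n (Sw T (MS.PI Y (z0 (x n))) b).card)) ≤ (n : ℝ) ^ (-1 - θ)) :
    ∀ᵐ ω ∂P, ∀ᶠ n : ℕ in atTop, ¬ Q n (MS.sv (z0 (x n)) (x n) (y n) fun q => a q ω) := by
  classical
  have := prob h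
  refine bc P (fun n => {ω | Q n (MS.sv (z0 (x n)) (x n) (y n) fun q => a q ω)})
    (fun n => 1 / (n : ℝ) ^ 2 + (n : ℝ) ^ (-1 - θ)) ?_ ?_
  · exact (Real.summable_one_div_nat_pow.2 (by norm_num)).add (Real.summable_nat_rpow.2 (by linarith))
  filter_upwards [hyp, good_prob h x hc H2 ε hε hε1, y_facts hc H2, z_large hℓ H1 20, eventually_ge_atTop 1] with
    n g1 g2 g3 g4 g5
  obtain ⟨Y, hY⟩ : ∃ Y : ℕ, Y = n ^ 20 := ⟨_, rfl⟩
  have hY19 : n ^ 19 ≤ Y := by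
    rw [hY]
    exact Nat.pow_le_pow_right g5 (by norm_num)
  have hyY : y n ≤ Y := by
    have h1 : y n ≤ n ^ 2 := by exact_mod_cast g3.2
    have h2 : n ^ 2 ≤ n ^ 19 := Nat.pow_le_pow_right g5 (by norm_num)
    omega
  have hYz : Y ≤ z0 (x n) := by rwa [hY]
  have hbad := g2 Y hyY hY.le
  have hd : Disjoint (PN Y) (MS.PI Y (z0 (x n))) := by
    rw [disjoint_left]
    intro p hp hp'
    rw [mem_PN] at hp
    rw [MS.mem_PI] at hp'
    omega
  have hun : PN (z0 (x n)) = PN Y ∪ MS.PI Y (z0 (x n)) := PN_union Y (z0 (x n)) hYz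
  obtain ⟨good, hgood⟩ : ∃ good : (ℕ → ℕ) → Prop, ∀ b, good b ↔
      |(MS.sv Y (x n) (y n) b : ℝ) - y n * V Y| ≤ ε * (y n * V Y) := ⟨_, fun _ => Iff.rfl⟩
  have hgc : ∀ b b', (∀ i ∈ PN Y, b i = b' i) → (good b ↔ good b') := by
    intro b b' hb
    rw [hgood, hgood, sv_congr Y (x n) (y n) b b' hb]
  have hmain : P.real {ω | good (fun q => a q ω) ∧ Q n (MS.sv (z0 (x n)) (x n) (y n) fun q => a q ω)} ≤
      (n : ℝ) ^ (-1 - θ) := by
    refine cond_one h (PN Y) (MS.PI Y (z0 (x n))) hd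
      (fun b => good b ∧ Q n (MS.sv (z0 (x n)) (x n) (y n) b)) ?_ _ (by positivity) ?_
    · intro b b' hb
      rw [hgc b b' fun i hi => hb i (mem_union_left _ hi), sv_congr (z0 (x n)) (x n) (y n) b b' fun p hp => hb p (by
        rwa [← hun])]
    · intro α
      by_cases hα : good α
      swap
      · have : {ω | good (fun i => if i ∈ PN Y then α i else a i ω) ∧
            Q n (MS.sv (z0 (x n)) (x n) (y n) fun i => if i ∈ PN Y then α i else a i ω)} = ∅ := by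
          rw [Set.eq_empty_iff_forall_notMem]
          rintro ω ⟨h1, -⟩
          exact hα ((hgc _ α fun i hi => if_pos hi).1 h1)
        rw [this, measureReal_empty]
        positivity
      obtain ⟨T, hT⟩ : ∃ T : Finset ℕ, T = Sw (Ioc (x n) (x n + y n)) (PN Y) α := ⟨_, rfl⟩
      have hTI : T ⊆ Ioc (x n) (x n + y n) := by
        rw [hT]
        exact filter_subset _ _
      have hTc : T.card = MS.sv Y (x n) (y n) α := by
        rw [hT]
        rfl
      have h1 := g1 Y hY19 hY.le T hTI (by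
        rw [hTc]
        exact (hgood α).1 hα)
      obtain ⟨F, hF⟩ : ∃ F : (ℕ → ℕ) → ℝ, ∀ b, F b = ind (Q n (Sw T (MS.PI Y (z0 (x n))) b).card) :=
        ⟨_, fun _ => rfl⟩
      have e : F = fun b => ind (Q n (Sw T (MS.PI Y (z0 (x n))) b).card) := funext hF
      rw [← e] at h1
      have hdep : Dep (MS.PI Y (z0 (x n))) F := by
        intro b b' hb
        rw [hF, hF, Sw_congr T _ b b' hb]
      have h2 := markov h (MS.PI Y (z0 (x n))) (fun p hp => PI_prime hp) F (fun b => by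
        rw [hF]
        exact (ind_bounds _).1) hdep 1 one_pos
      rw [div_one] at h2
      refine le_trans (measureReal_mono ?_ (measure_ne_top _ _)) (h2.trans h1)
      rintro ω ⟨-, h3⟩
      rw [Set.mem_ofPred_eq, hF, ind_of]
      have h4 : MS.sv (z0 (x n)) (x n) (y n) (fun i => if i ∈ PN Y then α i else a i ω) =
          (Sw T (MS.PI Y (z0 (x n))) fun q => a q ω).card := by
        have hd' : ∀ p ∈ MS.PI Y (z0 (x n)), p ∉ PN Y := fun p hp h5 => by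
          rw [mem_PN] at h5
          rw [MS.mem_PI] at hp
          omega
        unfold MS.sv
        rw [hun, Sw_union,
          Sw_congr (Ioc (x n) (x n + y n)) (PN Y) (fun i => if i ∈ PN Y then α i else a i ω) α
          (fun p hp => if_pos hp), ← hT, Sw_congr T (MS.PI Y (z0 (x n))) (fun i => if i ∈ PN Y then α i else a i ω)
          (fun q => a q ω) (fun p hp => if_neg (hd' p hp))]
      rwa [h4] at h3
  have hsub : {ω | Q n (MS.sv (z0 (x n)) (x n) (y n) fun q => a q ω)} ⊆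
      {ω | ε * (y n * V Y) < |(MS.sv Y (x n) (y n) (fun q => a q ω) : ℝ) - y n * V Y|} ∪
        {ω | good (fun q => a q ω) ∧ Q n (MS.sv (z0 (x n)) (x n) (y n) fun q => a q ω)} := by
    intro ω hω
    by_cases h1 : good fun q => a q ω
    · right
      exact ⟨h1, hω⟩
    · left
      rw [hgood, not_le] at h1
      exact h1
  exact (measureReal_mono hsub (measure_ne_top _ _)).trans ((measureReal_union_le _ _).trans (add_le_add hbad hmain))

include hℓ hc H1 H2 in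
theorem tail_up {Ω : Type} [MeasurableSpace Ω] {P : Measure Ω} {a : ℕ → Ω → ℕ} (h : Model P a) (κ : ℝ)
    (hκ : c / ℓ ≤ κ) (hJ : 1 < J (c / ℓ) κ) :
    ∀ᵐ ω ∂P, ∀ᶠ n : ℕ in atTop, (MS.sv (z0 (x n)) (x n) (y n) (fun q => a q ω) : ℝ) < κ * Real.log n := by
  obtain ⟨lam, hlamd⟩ : ∃ lam : ℝ, lam = c / ℓ := ⟨_, rfl⟩
  have hlam : 0 < lam := by
    rw [hlamd]
    positivity
  rw [← hlamd] at hJ hκ
  obtain ⟨s, hs⟩ : ∃ s : ℝ, s = κ / lam := ⟨_, rfl⟩
  have hs1 : 1 ≤ s := by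
    rw [hs, le_div_iff₀ hlam, one_mul]
    exact hκ
  have hκs : κ = s * lam := by
    rw [hs]
    field_simp
  obtain ⟨θ, hθ⟩ : ∃ θ : ℝ, θ = (J lam κ - 1) / 2 := ⟨_, rfl⟩
  have hθ0 : 0 < θ := by
    rw [hθ]
    linarith
  have hJs : J lam κ = κ * Real.log s - κ + lam := by
    unfold J
    rw [← hs]
  obtain ⟨ε, hε, hε1, hg⟩ := low_gen hℓ hc H1 H2 1 (θ / s) le_rfl (by positivity)
  have hmain := fo hℓ hc H1 H2 h (fun n k => κ * Real.log n ≤ (k : ℝ)) θ ε hθ0 hε hε1 (by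
    filter_upwards [hg, eventually_ge_atTop 3] with n g1 g5 Y hY1 hY2 T hT hTY
    obtain ⟨Λ, hΛ, hsep, hnear, -⟩ := g1 Y hY1 hY2 T hT hTY
    have hnR : (3 : ℝ) ≤ n := by exact_mod_cast g5
    have hn0 : (0 : ℝ) < n := by linarith
    obtain ⟨l, hl⟩ : ∃ l : ℝ, l = Real.log (n : ℝ) := ⟨_, rfl⟩
    rw [← hlamd, ← hl] at hnear
    have hl0 : 0 < l := by
      rw [hl]
      exact Real.log_pos (by linarith)
    have hLp : ∀ p ∈ MS.PI Y (z0 (x n)), p.Prime := fun p hp => PI_prime hp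
    refine (tail_ge T _ hLp hsep Λ hΛ s hs1 (κ * Real.log n)).trans ?_
    rw [Real.rpow_def_of_pos hn0, ← hl]
    apply Real.exp_le_exp.2
    have h1 := (abs_le.1 hnear).2
    have h2 : (s - 1) * Λ ≤ (s - 1) * (lam * l + θ / s * l) := by
      apply mul_le_mul_of_nonneg_left _ (by linarith)
      linarith
    have h3 : (s - 1) * (θ / s) ≤ θ := by
      have h4 : (s - 1) * (θ / s) = θ - θ / s := by
        field_simp
      rw [h4]
      have : 0 < θ / s := by positivity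
      linarith
    have h4 : (s - 1) * (θ / s) * l ≤ θ * l := mul_le_mul_of_nonneg_right h3 hl0.le
    have h5 : (s - 1) * lam - κ * Real.log s = -(1 + 2 * θ) := by
      have : 2 * θ = J lam κ - 1 := by
        rw [hθ]
        ring
      rw [this, hJs, hκs]
      ring
    have h6 : ((s - 1) * lam - κ * Real.log s) * l = -(1 + 2 * θ) * l := by rw [h5]
    nlinarith)
  filter_upwards [hmain] with ω hω
  filter_upwards [hω] with n hn
  push Not at hn
  exact hn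

include hℓ hc H1 H2 in
theorem tail_lo {Ω : Type} [MeasurableSpace Ω] {P : Measure Ω} {a : ℕ → Ω → ℕ} (h : Model P a) (κ : ℝ)
    (hκ0 : 0 < κ) (hκ : κ ≤ c / ℓ) (hJ : 1 < J (c / ℓ) κ) :
    ∀ᵐ ω ∂P, ∀ᶠ n : ℕ in atTop, κ * Real.log n < (MS.sv (z0 (x n)) (x n) (y n) (fun q => a q ω) : ℝ) := by
  obtain ⟨lam, hlamd⟩ : ∃ lam : ℝ, lam = c / ℓ := ⟨_, rfl⟩
  have hlam : 0 < lam := by
    rw [hlamd]
    positivity
  rw [← hlamd] at hJ hκ
  obtain ⟨s, hs⟩ : ∃ s : ℝ, s = κ / lam := ⟨_, rfl⟩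
  have hs0 : 0 < s := by
    rw [hs]
    positivity
  have hs1 : s ≤ 1 := by
    rw [hs, div_le_iff₀ hlam, one_mul]
    exact hκ
  have hκs : κ = s * lam := by
    rw [hs]
    field_simp
  obtain ⟨θ, hθ⟩ : ∃ θ : ℝ, θ = (J lam κ - 1) / 2 := ⟨_, rfl⟩
  have hθ0 : 0 < θ := by
    rw [hθ]
    linarith
  have hJs : J lam κ = κ * Real.log s - κ + lam := by
    unfold J
    rw [← hs]
  obtain ⟨ε, hε, hε1, hg⟩ := low_gen hℓ hc H1 H2 1 θ le_rfl hθ0
  have hmain := fo hℓ hc H1 H2 h (fun n k => (k : ℝ) ≤ κ * Real.log n) θ ε hθ0 hε hε1 (by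
    filter_upwards [hg, eventually_ge_atTop 3] with n g1 g5 Y hY1 hY2 T hT hTY
    obtain ⟨Λ, hΛ, hsep, hnear, -⟩ := g1 Y hY1 hY2 T hT hTY
    have hnR : (3 : ℝ) ≤ n := by exact_mod_cast g5
    have hn0 : (0 : ℝ) < n := by linarith
    obtain ⟨l, hl⟩ : ∃ l : ℝ, l = Real.log (n : ℝ) := ⟨_, rfl⟩
    rw [← hlamd, ← hl] at hnear
    have hl0 : 0 < l := by
      rw [hl]
      exact Real.log_pos (by linarith)
    have hLp : ∀ p ∈ MS.PI Y (z0 (x n)), p.Prime := fun p hp => PI_prime hp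
    refine (tail_le T _ hLp hsep Λ hΛ s hs0 hs1 (κ * Real.log n)).trans ?_
    rw [Real.rpow_def_of_pos hn0, ← hl]
    apply Real.exp_le_exp.2
    have h1 := (abs_le.1 hnear).1
    have h2 : (s - 1) * Λ ≤ (s - 1) * (lam * l - θ * l) := by
      apply mul_le_mul_of_nonpos_left _ (by linarith)
      linarith
    have h4 : (1 - s) * (θ * l) ≤ θ * l := by
      have : 0 ≤ θ * l := by positivity
      nlinarith
    have h5 : (s - 1) * lam - κ * Real.log s = -(1 + 2 * θ) := by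
      have : 2 * θ = J lam κ - 1 := by
        rw [hθ]
        ring
      rw [this, hJs, hκs]
      ring
    have h6 : ((s - 1) * lam - κ * Real.log s) * l = -(1 + 2 * θ) * l := by rw [h5]
    nlinarith)
  filter_upwards [hmain] with ω hω
  filter_upwards [hω] with n hn
  push Not at hn
  exact hn

end seq

end Pool.Agent.H531.PW
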