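import Pool.Agent.H531.PW.Clu

set_option autoImplicit false

/-!
# Windows at the powers of a real number; the `n`-th prime
-/

open Finset MeasureTheory ProbabilityTheory Filter Topology

namespace Pool.Agent.H531.PW

open Pool.Agent.T2H31.HV Pool.Agent.H531.SI Pool.Agent.H531.MS
open Pool.Agent.T2H32.BF (V V_pos V_anti V_ratio V_step z0 z0_mono z0_lim z0_top z0_mem z0_lt R Model prob ae_lt pnt)

/-! ## The `n`-th prime -/

/-- the `n`-th prime -/
noncomputable def pp (n : ℕ) : ℕ := Nat.nth Nat.Prime (n - 1)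

theorem pp_count {n : ℕ} (hn : 1 ≤ n) : Nat.primeCounting (pp n) = n := by
  unfold pp Nat.primeCounting Nat.primeCounting'
  rw [Nat.count_succ, if_pos (Nat.prime_nth_prime _)]
  have h1 := Nat.primeCounting'_nth_eq (n - 1)
  unfold Nat.primeCounting' at h1
  rw [h1]
  omega

theorem pp_top : Tendsto pp atTop atTop := by
  have h1 : StrictMono (Nat.nth Nat.Prime) := Nat.nth_strictMono Nat.infinite_setOfPred_prime
  exact h1.tendsto_atTop.comp (tendsto_sub_atTop_nat 1)

theorem log_pi : Tendsto (fun m : ℕ => Real.log (Nat.primeCounting m) / Real.log m) atTop (𝓝 1) := by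
  have h1 : Tendsto (fun m : ℕ => Real.log ((Nat.primeCounting m : ℝ) * Real.log m / m)) atTop (𝓝 0) := by
    have := (Real.continuousAt_log one_ne_zero).tendsto.comp pnt
    rw [Real.log_one] at this
    exact this
  have h2 : Tendsto (fun m : ℕ => Real.log ((Nat.primeCounting m : ℝ) * Real.log m / m) / Real.log m) atTop (𝓝 0) :=
    h1.div_atTop L_top
  have h3 : Tendsto (fun m : ℕ => Real.log (Real.log (m : ℝ)) / Real.log m) atTop (𝓝 0) :=
    (Real.isLittleO_log_id_atTop.tendsto_div_nhds_zero).comp L_top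
  have h4 := (h2.add (tendsto_const_nhds (x := (1 : ℝ)))).sub h3
  rw [zero_add, sub_zero] at h4
  refine h4.congr' ?_
  filter_upwards [eventually_ge_atTop 3, L_top.eventually_gt_atTop 0, LL_top.eventually_gt_atTop 0] with m h5 h6 h7
  have hm : (3 : ℝ) ≤ m := by exact_mod_cast h5
  have hpi : 0 < Nat.primeCounting m := by
    have : Nat.primeCounting 2 ≤ Nat.primeCounting m := Nat.monotone_primeCounting (by omega)
    have h2 : Nat.primeCounting 2 = 1 := by decide
    omega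
  have hpi' : (0 : ℝ) < Nat.primeCounting m := by exact_mod_cast hpi
  rw [Real.log_div (by positivity) (by positivity), Real.log_mul (by positivity) (by positivity)]
  field_simp
  ring

theorem pp_lim : Tendsto (fun n : ℕ => (pp n : ℝ) / (n * Real.log n)) atTop (𝓝 1) := by
  have h1 := (pnt.comp pp_top).inv₀ one_ne_zero
  have h2 := (log_pi.comp pp_top).inv₀ one_ne_zero
  have h3 := h1.mul h2
  rw [inv_one, mul_one] at h3
  refine h3.congr' ?_
  filter_upwards [eventually_ge_atTop 3, (L_top.comp pp_top).eventually_gt_atTop 0, pp_top.eventually_ge_atTop 1] with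
    n hn hl hp
  simp only [Function.comp] at hl ⊢
  rw [pp_count (by omega)]
  have hn3 : (3 : ℝ) ≤ n := by exact_mod_cast hn
  have hln : 0 < Real.log (n : ℝ) := Real.log_pos (by linarith)
  have hp0 : (0 : ℝ) < pp n := by exact_mod_cast hp
  field_simp

/-! ## The windows -/

section beta

variable {β c : ℝ} (hβ : 1 < β) (hc : 0 < c) {h : ℕ → ℝ}
  (hh : Tendsto (fun n : ℕ => h n / (n * Real.log n)) atTop (𝓝 c))

/-- the left end -/
noncomputable def xb (β : ℝ) (n : ℕ) : ℕ := ⌈β ^ n⌉₊ - 1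

/-- the length -/
noncomputable def yb (β : ℝ) (h : ℕ → ℝ) (n : ℕ) : ℕ := ⌊β ^ n + h n⌋₊ - xb β n

include hβ in
theorem pow_big (A : ℕ) (C : ℝ) : ∀ᶠ n : ℕ in atTop, C * (n : ℝ) ^ A ≤ β ^ n := by
  have h1 := (tendsto_pow_const_div_const_pow_of_one_lt A hβ).eventually_lt_const
    (show (0 : ℝ) < 1 / (|C| + 1) by positivity)
  filter_upwards [h1] with n h2
  have hb : 0 < β ^ n := by positivity
  rw [div_lt_div_iff₀ hb (by positivity), one_mul] at h2
  have h3 : C * (n : ℝ) ^ A ≤ (n : ℝ) ^ A * (|C| + 1) := by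
    rw [mul_comm]
    apply mul_le_mul_of_nonneg_left _ (by positivity)
    have := le_abs_self C
    linarith
  linarith

include hc hh in
theorem h_facts : ∀ᶠ n : ℕ in atTop, 0 ≤ h n ∧ h n ≤ 2 * c * (n : ℝ) ^ 2 := by
  filter_upwards [hh.eventually_const_le (show c / 2 < c by linarith),
    hh.eventually_le_const (show c < 2 * c by linarith), eventually_ge_atTop 3] with n h1 h2 h3
  have hn : (3 : ℝ) ≤ n := by exact_mod_cast h3
  have hl : 0 < Real.log (n : ℝ) := Real.log_pos (by linarith)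
  rw [le_div_iff₀ (by positivity)] at h1
  rw [div_le_iff₀ (by positivity)] at h2
  refine ⟨le_trans (by positivity) h1, h2.trans ?_⟩
  have h4 : Real.log (n : ℝ) ≤ n := by
    have := Real.log_le_sub_one_of_pos (show (0 : ℝ) < n by linarith)
    linarith
  calc 2 * c * ((n : ℝ) * Real.log n) ≤ 2 * c * ((n : ℝ) * n) := by gcongr
    _ = _ := by ring

include hβ in
theorem xb_facts (n : ℕ) : β ^ n - 1 ≤ xb β n ∧ (xb β n : ℝ) ≤ β ^ n ∧ xb β n + 1 = ⌈β ^ n⌉₊ := by
  have hb : 0 < β ^ n := by positivity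
  have h1 : 1 ≤ ⌈β ^ n⌉₊ := Nat.one_le_iff_ne_zero.2 (Nat.ceil_pos.2 hb).ne'
  have e : xb β n + 1 = ⌈β ^ n⌉₊ := by
    unfold xb
    omega
  have e' : (xb β n : ℝ) + 1 = ⌈β ^ n⌉₊ := by exact_mod_cast e
  have h2 := Nat.le_ceil (β ^ n)
  have h3 := Nat.ceil_lt_add_one hb.le
  exact ⟨by linarith, by linarith, e⟩

include hβ in
theorem xb_H1 : Tendsto (fun n : ℕ => Real.log (xb β n) / n) atTop (𝓝 (Real.log β)) := by
  have h1 : Tendsto (fun n : ℕ => Real.log β - Real.log 2 / (n : ℝ)) atTop (𝓝 (Real.log β)) := by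
    have := (tendsto_const_nhds (x := Real.log β)).sub
      ((tendsto_const_nhds (x := Real.log 2)).div_atTop (tendsto_natCast_atTop_atTop (R := ℝ)))
    simpa using this
  refine tendsto_of_tendsto_of_tendsto_of_le_of_le' h1 tendsto_const_nhds ?_ ?_
  · filter_upwards [pow_big hβ 0 2, eventually_ge_atTop 1] with n h2 h3
    rw [pow_zero, mul_one] at h2
    have hn : (0 : ℝ) < n := by exact_mod_cast h3
    obtain ⟨g1, g2, -⟩ := xb_facts hβ n
    rw [le_div_iff₀ hn]
    have h4 : Real.log (β ^ n / 2) ≤ Real.log (xb β n) := Real.log_le_log (by positivity) (by linarith)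
    rw [Real.log_div (by positivity) (by norm_num), Real.log_pow] at h4
    calc (Real.log β - Real.log 2 / n) * n = n * Real.log β - Real.log 2 := by field_simp
      _ ≤ _ := h4
  · filter_upwards [pow_big hβ 0 2, eventually_ge_atTop 1] with n h2 h3
    rw [pow_zero, mul_one] at h2
    have hn : (0 : ℝ) < n := by exact_mod_cast h3
    obtain ⟨g1, g2, -⟩ := xb_facts hβ n
    rw [div_le_iff₀ hn]
    have h4 : Real.log (xb β n) ≤ Real.log (β ^ n) := Real.log_le_log (by linarith) g2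
    rw [Real.log_pow] at h4
    linarith

include hβ hc hh in
theorem yb_facts : ∀ᶠ n : ℕ in atTop, xb β n + yb β h n = ⌊β ^ n + h n⌋₊ ∧ |(yb β h n : ℝ) - h n| ≤ 2 := by
  filter_upwards [h_facts hc hh] with n h1
  obtain ⟨g1, g2, g3⟩ := xb_facts hβ n
  have hb : 0 < β ^ n := by positivity
  have h2 : xb β n ≤ ⌊β ^ n + h n⌋₊ := by
    apply Nat.le_floor
    linarith
  have h3 : xb β n + yb β h n = ⌊β ^ n + h n⌋₊ := by
    unfold yb
    omega
  refine ⟨h3, ?_⟩
  have h4 : (xb β n : ℝ) + yb β h n = ⌊β ^ n + h n⌋₊ := by exact_mod_cast h3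
  have h5 := Nat.floor_le (show 0 ≤ β ^ n + h n by linarith)
  have h6 := Nat.lt_floor_add_one (β ^ n + h n)
  rw [abs_le]
  constructor <;> linarith

include hβ hc hh in
theorem yb_H2 : Tendsto (fun n : ℕ => (yb β h n : ℝ) / (n * Real.log n)) atTop (𝓝 c) := by
  have h0 : Tendsto (fun n : ℕ => (n : ℝ) * Real.log n) atTop atTop :=
    tendsto_natCast_atTop_atTop.atTop_mul_atTop₀ L_top
  have h1 : Tendsto (fun n : ℕ => ((yb β h n : ℝ) - h n) / (n * Real.log n)) atTop (𝓝 0) := by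
    rw [tendsto_zero_iff_abs_tendsto_zero]
    have h2 : Tendsto (fun n : ℕ => 2 / ((n : ℝ) * Real.log n)) atTop (𝓝 0) := tendsto_const_nhds.div_atTop h0
    refine squeeze_zero' (Eventually.of_forall fun n => abs_nonneg _) ?_ h2
    filter_upwards [yb_facts hβ hc hh, h0.eventually_gt_atTop 0] with n h3 h4
    simp only [Function.comp]
    rw [abs_div, abs_of_pos h4]
    gcongr
    exact h3.2
  have h2 := hh.add h1
  rw [add_zero] at h2
  refine h2.congr fun n => ?_
  rw [← add_div]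
  congr 1
  ring

include hβ hc hh in
theorem xb_H3 : ∀ᶠ n : ℕ in atTop, xb β n + yb β h n ≤ xb β (n + 1) := by
  filter_upwards [yb_facts hβ hc hh, h_facts hc hh, pow_big hβ 2 (2 * c / (β - 1) + 1 / (β - 1)),
    eventually_ge_atTop 1] with n h1 h2 h3 h4
  rw [h1.1]
  obtain ⟨g1, -, -⟩ := xb_facts hβ (n + 1)
  have hn : (1 : ℝ) ≤ n := by exact_mod_cast h4
  have hb1 : 0 < β - 1 := by linarith
  have h5 : (⌊β ^ n + h n⌋₊ : ℝ) ≤ β ^ n + h n := Nat.floor_le (by
    have : 0 < β ^ n := by positivity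
    linarith)
  have h6 : 2 * c * (n : ℝ) ^ 2 + (n : ℝ) ^ 2 ≤ (β - 1) * β ^ n := by
    have h7 := mul_le_mul_of_nonneg_left h3 hb1.le
    have e : (β - 1) * ((2 * c / (β - 1) + 1 / (β - 1)) * (n : ℝ) ^ 2) = 2 * c * (n : ℝ) ^ 2 + (n : ℝ) ^ 2 := by
      field_simp
    linarith
  have h7 : (1 : ℝ) ≤ (n : ℝ) ^ 2 := one_le_pow₀ hn
  have h8 : β ^ (n + 1) = β ^ n * β := pow_succ β n
  have h9 : (⌊β ^ n + h n⌋₊ : ℝ) ≤ xb β (n + 1) := by
    rw [h8] at g1
    nlinarith
  exact_mod_cast h9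

include hβ hc hh in
theorem win_eq (S : Set ℕ) : ∀ᶠ n : ℕ in atTop, S ∩ {m : ℕ | β ^ n ≤ m ∧ (m : ℝ) ≤ β ^ n + h n} =
    S ∩ Set.Ioc (xb β n) (xb β n + yb β h n) := by
  filter_upwards [yb_facts hβ hc hh, h_facts hc hh] with n h1 h2
  obtain ⟨g1, g2, g3⟩ := xb_facts hβ n
  have hb : 0 < β ^ n := by positivity
  congr 1
  ext m
  rw [Set.mem_ofPred_eq, Set.mem_Ioc, h1.1, Nat.le_floor_iff (by linarith)]
  refine and_congr_left fun _ => ?_
  rw [← Nat.ceil_le, ← g3]
  omega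

/-- the number of random primes in the interval `[β ^ n, β ^ n + h n]` -/
noncomputable def Ab (β : ℝ) (h : ℕ → ℝ) (b : ℕ → ℕ) (n : ℕ) : ℕ :=
  (R z0 b ∩ {m : ℕ | β ^ n ≤ m ∧ (m : ℝ) ≤ β ^ n + h n}).ncard

include hβ hc hh in
theorem cluster_beta {lam : ℝ} (hlam : lam = c / Real.log β) {u v : ℝ} (hu : 0 ≤ u) (hul : u < lam) (hvl : lam < v)
    (hset : {κ : ℝ | 0 ≤ κ ∧ J lam κ ≤ 1} = Set.Icc u v)
    {Ω : Type} [MeasurableSpace Ω] {P : Measure Ω} {a : ℕ → Ω → ℕ} (hm : Model P a) :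
    ∀ᵐ ω ∂P, {κ : ℝ | MapClusterPt κ atTop fun n : ℕ => (Ab β h (fun q => a q ω) n : ℝ) / Real.log n} = Set.Icc u v ∧
      (∀ v' > v, ∀ᶠ n : ℕ in atTop, (Ab β h (fun q => a q ω) n : ℝ) < v' * Real.log n) ∧
      (∀ u' < u, ∀ᶠ n : ℕ in atTop, u' * Real.log n < (Ab β h (fun q => a q ω) n : ℝ)) ∧
      (lam < 1 → ∃ᶠ n : ℕ in atTop, Ab β h (fun q => a q ω) n = 0) := by
  have hout : ∀ κ : ℝ, 0 ≤ κ → κ ∉ Set.Icc u v → 1 < J lam κ := by
    intro κ h1 h2
    rw [← hset] at h2
    by_contra hcon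
    push Not at hcon
    exact h2 ⟨h1, hcon⟩
  filter_upwards [cluster (Real.log_pos hβ) hc (xb_H1 hβ) (yb_H2 hβ hc hh) (xb_H3 hβ hc hh) hm] with ω hω
  rw [← hlam] at hω
  obtain ⟨h1, h2, h3, h4⟩ := hω
  have he : ∀ᶠ n : ℕ in atTop, Ab β h (fun q => a q ω) n = Nw (xb β) (yb β h) (fun q => a q ω) n := by
    filter_upwards [win_eq hβ hc hh (R z0 fun q => a q ω)] with n hn
    unfold Nw Ab
    rw [hn]
  have he' : (fun n : ℕ => (Ab β h (fun q => a q ω) n : ℝ) / Real.log n) =ᶠ[atTop]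
      fun n : ℕ => (Nw (xb β) (yb β h) (fun q => a q ω) n : ℝ) / Real.log n := by
    filter_upwards [he] with n hn
    rw [hn]
  have hlog : ∀ᶠ n : ℕ in atTop, 0 < Real.log (n : ℝ) := L_top.eventually_gt_atTop 0
  refine ⟨?_, ?_, ?_, ?_⟩
  · rw [← hset, ← h1]
    ext κ
    rw [Set.mem_ofPred_eq, Set.mem_ofPred_eq]
    unfold MapClusterPt
    rw [Filter.map_congr he']
  · intro v' hv'
    obtain ⟨q, q1, q2⟩ := exists_rat_btwn hv'
    have q3 : lam ≤ q := by linarith
    have h5 := h2 q q3 (hout q (by linarith) fun h => absurd h.2 (not_le.2 q1))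
    filter_upwards [h5, he, hlog] with n h6 h7 h8
    rw [h7]
    exact h6.trans (mul_lt_mul_of_pos_right q2 h8)
  · intro u' hu'
    rcases lt_or_ge u' 0 with h0 | h0
    · filter_upwards [hlog] with n h8
      have : u' * Real.log n < 0 := mul_neg_of_neg_of_pos h0 h8
      exact this.trans_le (Nat.cast_nonneg _)
    · obtain ⟨q, q1, q2⟩ := exists_rat_btwn hu'
      have h5 := h3 q (by linarith) (by linarith) (hout q (by linarith) fun h => absurd h.1 (not_le.2 q2))
      filter_upwards [h5, he, hlog] with n h6 h7 h8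
      rw [h7]
      exact (mul_lt_mul_of_pos_right q1 h8).trans h6
  · intro h5
    refine ((h4 h5).and_eventually he).mono fun n hn => ?_
    rw [hn.2, hn.1]

end beta

end Pool.Agent.H531.PW
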