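import Pool.Agent.H531.PW.Same

set_option autoImplicit false

/-!
# The limit points
-/

open Finset MeasureTheory ProbabilityTheory Filter Topology

namespace Pool.Agent.H531.PW

open Pool.Agent.T2H31.HV Pool.Agent.H531.SI Pool.Agent.H531.MS
open Pool.Agent.T2H32.BF (V V_pos V_anti V_ratio V_step z0 z0_mono z0_lim z0_top z0_mem z0_lt R Model prob ae_lt)

theorem J_cont {lam : ℝ} (hl : 0 < lam) : Continuous (J lam) := by
  have h1 : Continuous fun κ : ℝ => lam * ((κ / lam) * Real.log (κ / lam)) - κ + lam :=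
    (((Real.continuous_mul_log.comp (continuous_id.div_const lam)).const_mul lam).sub continuous_id).add
      continuous_const
  refine h1.congr fun κ => ?_
  unfold J
  field_simp

theorem J_self {lam : ℝ} (hl : 0 < lam) : J lam lam = 0 := by
  unfold J
  rw [div_self hl.ne']
  simp

theorem J_convex {lam : ℝ} (hl : 0 < lam) : ConvexOn ℝ (Set.Ici 0) (J lam) := by
  have h0 := Real.convexOn_mul_log
  refine ⟨convex_Ici 0, fun a ha b hb s t hs ht hst => ?_⟩
  have ha' : (0 : ℝ) ≤ a / lam := div_nonneg ha hl.le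
  have hb' : (0 : ℝ) ≤ b / lam := div_nonneg hb hl.le
  have h1 := h0.2 ha' hb' hs ht hst
  simp only [smul_eq_mul] at h1 ⊢
  have e : ∀ κ : ℝ, J lam κ = lam * ((κ / lam) * Real.log (κ / lam)) - κ + lam := fun κ => by
    unfold J
    field_simp
  rw [e, e, e]
  have h2 : (s * a + t * b) / lam = s * (a / lam) + t * (b / lam) := by ring
  rw [h2]
  have h3 := mul_le_mul_of_nonneg_left h1 hl.le
  have h4 : t = 1 - s := by linarith
  subst h4
  nlinarith

theorem rat_of_nhds {κ : ℝ} {p : ℝ → Prop} (h : ∀ᶠ u in 𝓝 κ, p u) : ∃ q : ℚ, p q := by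
  obtain ⟨δ, hδ, h1⟩ := Metric.eventually_nhds_iff.1 h
  obtain ⟨q, h2, h3⟩ := exists_rat_btwn (show κ < κ + δ by linarith)
  refine ⟨q, h1 ?_⟩
  rw [Real.dist_eq, abs_lt]
  constructor <;> linarith

/-- the points `κ` with `J κ ≤ 1` are limits of rational points with `J < 1` -/
theorem J_dense {lam κ : ℝ} (hl : 0 < lam) (hκ : 0 ≤ κ) (hJ : J lam κ ≤ 1) (η : ℝ) (hη : 0 < η) :
    ∃ q : ℚ, 0 < (q : ℝ) ∧ J lam q < 1 ∧ |(q : ℝ) - κ| < η := by
  -- a real point first
  obtain ⟨t, ht⟩ : ∃ t : ℝ, t = min (1 / 2) (η / (2 * (|lam - κ| + 1))) := ⟨_, rfl⟩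
  have ht0 : 0 < t := by
    rw [ht]
    positivity
  have ht1 : t ≤ 1 / 2 := by
    rw [ht]
    exact min_le_left _ _
  have ht2 : t * (2 * (|lam - κ| + 1)) ≤ η := by
    have : t ≤ η / (2 * (|lam - κ| + 1)) := by
      rw [ht]
      exact min_le_right _ _
    rwa [le_div_iff₀ (by positivity)] at this
  obtain ⟨κ', hκ'⟩ : ∃ κ' : ℝ, κ' = (1 - t) * κ + t * lam := ⟨_, rfl⟩
  have h1 : J lam κ' < 1 := by
    have h2 := (J_convex hl).2 (show κ ∈ Set.Ici 0 from hκ) (show lam ∈ Set.Ici 0 from hl.le)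
      (show 0 ≤ 1 - t by linarith) ht0.le (by ring)
    simp only [smul_eq_mul] at h2
    rw [J_self hl, ← hκ'] at h2
    have h3 : (1 - t) * J lam κ ≤ (1 - t) * 1 := mul_le_mul_of_nonneg_left hJ (by linarith)
    linarith
  have h2 : 0 < κ' := by
    rw [hκ']
    have : 0 ≤ (1 - t) * κ := mul_nonneg (by linarith) hκ
    have : 0 < t * lam := by positivity
    linarith
  have h3 : |κ' - κ| ≤ η / 2 := by
    have e : κ' - κ = t * (lam - κ) := by
      rw [hκ']
      ring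
    rw [e, abs_mul, abs_of_pos ht0]
    have := abs_nonneg (lam - κ)
    nlinarith
  -- a rational one
  have h4 : ∀ᶠ u in 𝓝 κ', J lam u < 1 ∧ 0 < u ∧ |u - κ'| < η / 2 := by
    refine ((J_cont hl).continuousAt.eventually_lt_const h1).and
      ((continuousAt_id.eventually_const_lt h2).and ?_)
    have : ContinuousAt (fun u : ℝ => |u - κ'|) κ' := by fun_prop
    refine this.eventually_lt_const ?_
    simp only [sub_self, abs_zero]
    positivity
  obtain ⟨q, q1, q2, q3⟩ := rat_of_nhds h4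
  refine ⟨q, q2, q1, ?_⟩
  calc |(q : ℝ) - κ| = |((q : ℝ) - κ') + (κ' - κ)| := by ring_nf
    _ ≤ |(q : ℝ) - κ'| + |κ' - κ| := abs_add_le _ _
    _ < η := by linarith

theorem J_top {lam : ℝ} (hl : 0 < lam) : ∃ q : ℚ, lam ≤ q ∧ 1 < J lam q := by
  obtain ⟨q, h1, -⟩ := exists_rat_btwn (show lam * Real.exp 2 + 2 < lam * Real.exp 2 + 3 by linarith)
  have h0 : (1 : ℝ) ≤ Real.exp 2 := Real.one_le_exp (by norm_num)
  have h2 : lam ≤ lam * Real.exp 2 := by nlinarith
  have h3 : 0 < lam * Real.exp 2 := by positivity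
  have hq : (0 : ℝ) < q := by linarith
  refine ⟨q, by linarith, ?_⟩
  unfold J
  have h4 : 2 ≤ Real.log (q / lam) := by
    rw [Real.le_log_iff_exp_le (by positivity), le_div_iff₀ hl]
    linarith
  have h5 : (q : ℝ) * 2 ≤ q * Real.log (q / lam) := mul_le_mul_of_nonneg_left h4 hq.le
  linarith

/-- the sublevel set of `J` -/
theorem J_set {lam : ℝ} (hl : 0 < lam) : ∃ u v : ℝ, 0 ≤ u ∧ u < lam ∧ lam < v ∧ J lam v = 1 ∧
    (lam ≤ 1 → u = 0) ∧ (1 < lam → 0 < u ∧ J lam u = 1) ∧ {κ : ℝ | 0 ≤ κ ∧ J lam κ ≤ 1} = Set.Icc u v := by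
  have hconv := J_convex hl
  -- strictly between a point and `lam`
  have hbetw : ∀ κ m : ℝ, 0 ≤ κ → (κ < m ∧ m < lam ∨ lam < m ∧ m < κ) → J lam κ ≤ 1 → J lam m < 1 := by
    intro κ m hκ hm hJ
    have hne : κ ≠ lam := by
      rcases hm with h | h
      · linarith [h.1, h.2]
      · exact (h.1.trans h.2).ne'
    obtain ⟨t, ht⟩ : ∃ t : ℝ, t = (m - lam) / (κ - lam) := ⟨_, rfl⟩
    have hd : κ - lam ≠ 0 := sub_ne_zero.2 hne
    have ht01 : 0 < t ∧ t < 1 := by
      rw [ht]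
      rcases hm with h | h
      · constructor
        · apply div_pos_of_neg_of_neg <;> linarith
        · rw [div_lt_one_of_neg (by linarith)]
          linarith
      · constructor
        · apply div_pos <;> linarith
        · rw [div_lt_one (by linarith)]
          linarith
    have h1 := hconv.2 (show κ ∈ Set.Ici 0 from hκ) (show lam ∈ Set.Ici 0 from hl.le) ht01.1.le
      (show 0 ≤ 1 - t by linarith) (by ring)
    simp only [smul_eq_mul] at h1
    rw [J_self hl] at h1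
    have e : t * κ + (1 - t) * lam = m := by
      have : t * (κ - lam) = m - lam := by
        rw [ht]
        field_simp
      linarith
    rw [e] at h1
    have h2 : t * J lam κ ≤ t * 1 := mul_le_mul_of_nonneg_left hJ ht01.1.le
    linarith [ht01.2]
  obtain ⟨q, hq1, hq2⟩ := J_top hl
  -- the right end
  have hv : ∃ v : ℝ, lam < v ∧ J lam v = 1 := by
    have h1 : (1 : ℝ) ∈ Set.Icc (J lam lam) (J lam q) := by
      rw [J_self hl]
      exact ⟨by norm_num, hq2.le⟩
    obtain ⟨v, hv, hv1⟩ := intermediate_value_Icc hq1 (J_cont hl).continuousOn h1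
    refine ⟨v, lt_of_le_of_ne hv.1 ?_, hv1⟩
    rintro rfl
    rw [J_self hl] at hv1
    norm_num at hv1
  obtain ⟨v, hv, hv1⟩ := hv
  -- the left end
  have hu : ∃ u : ℝ, 0 ≤ u ∧ u < lam ∧ (lam ≤ 1 → u = 0) ∧ (1 < lam → 0 < u ∧ J lam u = 1) ∧ J lam u ≤ 1 ∧
      ∀ κ, 0 ≤ κ → J lam κ ≤ 1 → u ≤ κ := by
    rcases le_or_gt lam 1 with h1 | h1
    · refine ⟨0, le_rfl, hl, fun _ => rfl, fun h2 => absurd h2 (not_lt.2 h1), ?_, fun κ h2 _ => h2⟩
      unfold J
      simpa using h1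
    · have h0 : J lam 0 = lam := by
        unfold J
        simp
      have h2 : (1 : ℝ) ∈ Set.Icc (J lam lam) (J lam 0) := by
        rw [J_self hl, h0]
        exact ⟨by norm_num, h1.le⟩
      obtain ⟨u, hu, hu1⟩ := intermediate_value_Icc' hl.le (J_cont hl).continuousOn h2
      have hu0 : 0 < u := by
        refine lt_of_le_of_ne hu.1 ?_
        rintro rfl
        rw [h0] at hu1
        linarith
      have hul : u < lam := by
        refine lt_of_le_of_ne hu.2 ?_
        rintro rfl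
        rw [J_self hl] at hu1
        norm_num at hu1
      refine ⟨u, hu0.le, hul, fun h3 => absurd h1 (not_lt.2 h3), fun _ => ⟨hu0, hu1⟩, hu1.le, fun κ hκ hJ => ?_⟩
      by_contra hcon
      push Not at hcon
      have := hbetw κ u hκ (Or.inl ⟨hcon, hul⟩) hJ
      linarith
  obtain ⟨u, hu0, hul, hu1, hu2, hu3, hu4⟩ := hu
  refine ⟨u, v, hu0, hul, hv, hv1, hu1, hu2, ?_⟩
  ext κ
  rw [Set.mem_ofPred_eq, Set.mem_Icc]
  constructor
  · rintro ⟨h1, h2⟩
    refine ⟨hu4 κ h1 h2, ?_⟩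
    by_contra hcon
    push Not at hcon
    have := hbetw κ v h1 (Or.inr ⟨hv, hcon⟩) h2
    linarith
  · rintro ⟨h1, h2⟩
    refine ⟨hu0.trans h1, ?_⟩
    rcases lt_trichotomy κ lam with h3 | h3 | h3
    · rcases h1.eq_or_lt with h4 | h4
      · rw [← h4]
        exact hu3
      · exact (hbetw u κ hu0 (Or.inl ⟨h4, h3⟩) hu3).le
    · rw [h3, J_self hl]
      norm_num
    · rcases h2.eq_or_lt with h4 | h4
      · rw [h4, hv1]
      · exact (hbetw v κ (by linarith) (Or.inr ⟨h3, h4⟩) hv1.le).le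

section seq

variable {x y : ℕ → ℕ} {ℓ c : ℝ} (hℓ : 0 < ℓ) (hc : 0 < c)
  (H1 : Tendsto (fun n : ℕ => Real.log (x n) / n) atTop (𝓝 ℓ))
  (H2 : Tendsto (fun n : ℕ => (y n : ℝ) / (n * Real.log n)) atTop (𝓝 c))
  (H3 : ∀ᶠ n : ℕ in atTop, x n + y n ≤ x (n + 1))

/-- the number of random primes in the window -/
noncomputable def Nw (x y : ℕ → ℕ) (b : ℕ → ℕ) (n : ℕ) : ℕ := (R z0 b ∩ Set.Ioc (x n) (x n + y n)).ncard

include hℓ hc H1 H2 H3 in
theorem cluster {Ω : Type} [MeasurableSpace Ω] {P : Measure Ω} {a : ℕ → Ω → ℕ} (h : Model P a) :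
    ∀ᵐ ω ∂P, {κ : ℝ | MapClusterPt κ atTop fun n : ℕ => (Nw x y (fun q => a q ω) n : ℝ) / Real.log n} =
        {κ | 0 ≤ κ ∧ J (c / ℓ) κ ≤ 1} ∧
      (∀ q : ℚ, c / ℓ ≤ q → 1 < J (c / ℓ) q →
        ∀ᶠ n : ℕ in atTop, (Nw x y (fun q => a q ω) n : ℝ) < q * Real.log n) ∧
      (∀ q : ℚ, 0 < (q : ℝ) → q ≤ c / ℓ → 1 < J (c / ℓ) q →
        ∀ᶠ n : ℕ in atTop, q * Real.log n < (Nw x y (fun q => a q ω) n : ℝ)) ∧
      (c / ℓ < 1 → ∃ᶠ n : ℕ in atTop, Nw x y (fun q => a q ω) n = 0) := by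
  obtain ⟨lam, hlamd⟩ : ∃ lam : ℝ, lam = c / ℓ := ⟨_, rfl⟩
  have hlam : 0 < lam := by
    rw [hlamd]
    positivity
  -- the countable families
  have A1 : ∀ᵐ ω ∂P, ∀ (q : ℚ) (k : ℕ), 0 < (q : ℝ) → J lam q < 1 → ∃ᶠ n : ℕ in atTop,
      |(MS.sv (z0 (x n)) (x n) (y n) (fun q => a q ω) : ℝ) - q * Real.log n| ≤ 1 / ((k : ℝ) + 1) * Real.log n := by
    rw [ae_all_iff]
    intro q
    rw [ae_all_iff]
    intro k
    by_cases h1 : 0 < (q : ℝ)
    · by_cases h2 : J lam q < 1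
      · have hk : (0 : ℝ) < 1 / ((k : ℝ) + 1) := by positivity
        rw [hlamd] at h2
        obtain ⟨θ, ε, hθ, hθ1, hε, hε1, hyp⟩ := hyp_tilt hℓ hc H1 H2 q (1 / ((k : ℝ) + 1)) h1 hk h2
        have := io hℓ hc H1 H2 H3 h
          (fun n j => |(j : ℝ) - q * Real.log n| ≤ 1 / ((k : ℝ) + 1) * Real.log n) θ ε hθ hθ1 hε hε1 hyp
        filter_upwards [this] with ω hω _ _
        exact hω
      · exact Eventually.of_forall fun ω _ h3 => absurd h3 h2
    · exact Eventually.of_forall fun ω h3 => absurd h3 h1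
  have A2 : ∀ᵐ ω ∂P, ∀ q : ℚ, lam ≤ q → 1 < J lam q → ∀ᶠ n : ℕ in atTop,
      (MS.sv (z0 (x n)) (x n) (y n) (fun q => a q ω) : ℝ) < q * Real.log n := by
    rw [ae_all_iff]
    intro q
    by_cases h1 : lam ≤ q
    · by_cases h2 : 1 < J lam q
      · rw [hlamd] at h1 h2
        filter_upwards [tail_up hℓ hc H1 H2 h q h1 h2] with ω hω _ _
        exact hω
      · exact Eventually.of_forall fun ω _ h3 => absurd h3 h2
    · exact Eventually.of_forall fun ω h3 => absurd h3 h1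
  have A3 : ∀ᵐ ω ∂P, ∀ q : ℚ, 0 < (q : ℝ) → q ≤ lam → 1 < J lam q → ∀ᶠ n : ℕ in atTop,
      q * Real.log n < (MS.sv (z0 (x n)) (x n) (y n) (fun q => a q ω) : ℝ) := by
    rw [ae_all_iff]
    intro q
    by_cases h0 : 0 < (q : ℝ)
    · by_cases h1 : q ≤ lam
      · by_cases h2 : 1 < J lam q
        · rw [hlamd] at h1 h2
          filter_upwards [tail_lo hℓ hc H1 H2 h q h0 h1 h2] with ω hω _ _ _
          exact hω
        · exact Eventually.of_forall fun ω _ _ h3 => absurd h3 h2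
      · exact Eventually.of_forall fun ω _ h3 => absurd h3 h1
    · exact Eventually.of_forall fun ω h3 => absurd h3 h0
  have A4 : ∀ᵐ ω ∂P, c / ℓ < 1 → ∃ᶠ n : ℕ in atTop, MS.sv (z0 (x n)) (x n) (y n) (fun q => a q ω) = 0 := by
    by_cases h1 : c / ℓ < 1
    · obtain ⟨θ, ε, hθ, hθ1, hε, hε1, hyp⟩ := hyp_zero hℓ hc H1 H2 h1
      filter_upwards [io hℓ hc H1 H2 H3 h (fun _ j => j = 0) θ ε hθ hθ1 hε hε1 hyp] with ω hω _
      exact hω
    · exact Eventually.of_forall fun ω h3 => absurd h3 h1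
  filter_upwards [A1, A2, A3, A4, same hℓ hc H1 H2 h] with ω B1 B2 B3 B4 B5
  rw [← hlamd] at B4 ⊢
  have hN : ∀ᶠ n : ℕ in atTop, Nw x y (fun q => a q ω) n = MS.sv (z0 (x n)) (x n) (y n) fun q => a q ω := B5
  have hlog : ∀ᶠ n : ℕ in atTop, 0 < Real.log (n : ℝ) := L_top.eventually_gt_atTop 0
  refine ⟨?_, ?_, ?_, ?_⟩
  · ext κ
    rw [Set.mem_ofPred_eq, Set.mem_ofPred_eq]
    constructor
    · intro hκ
      rw [mapClusterPt_iff_frequently] at hκ
      have hκ0 : 0 ≤ κ := by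
        by_contra hcon
        push Not at hcon
        obtain ⟨n, h1, h2⟩ := ((hκ (Set.Iio 0) (Iio_mem_nhds hcon)).and_eventually hlog).exists
        have h3 : (0 : ℝ) ≤ (Nw x y (fun q => a q ω) n : ℝ) / Real.log n := div_nonneg (Nat.cast_nonneg _) h2.le
        exact absurd h1 (not_lt.2 h3)
      refine ⟨hκ0, ?_⟩
      by_contra hcon
      push Not at hcon
      have hne : κ ≠ lam := by
        rintro rfl
        rw [J_self hlam] at hcon
        linarith
      rcases lt_or_gt_of_ne hne with hlt | hgt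
      · -- `κ < lam`
        have h1 : ∀ᶠ u in 𝓝 κ, 1 < J lam u ∧ u < lam :=
          ((J_cont hlam).continuousAt.eventually_const_lt hcon).and (continuousAt_id.eventually_lt_const hlt)
        obtain ⟨δ, hδ, h2⟩ := Metric.eventually_nhds_iff.1 h1
        obtain ⟨q, h3, h4⟩ := exists_rat_btwn (show κ < κ + δ by linarith)
        have h5 := h2 (y := q) (by
          rw [Real.dist_eq, abs_lt]
          constructor <;> linarith)
        have h6 := B3 q (by linarith) h5.2.le h5.1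
        obtain ⟨n, h7, h8, h9, h10⟩ := ((hκ (Set.Iio (q : ℝ)) (Iio_mem_nhds h3)).and_eventually
          (h6.and (hN.and hlog))).exists
        rw [Set.mem_Iio, div_lt_iff₀ h10, h9] at h7
        linarith
      · have h1 : ∀ᶠ u in 𝓝 κ, 1 < J lam u ∧ lam < u :=
          ((J_cont hlam).continuousAt.eventually_const_lt hcon).and (continuousAt_id.eventually_const_lt hgt)
        obtain ⟨δ, hδ, h2⟩ := Metric.eventually_nhds_iff.1 h1
        obtain ⟨q, h3, h4⟩ := exists_rat_btwn (show κ - δ < κ by linarith)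
        have h5 := h2 (y := q) (by
          rw [Real.dist_eq, abs_lt]
          constructor <;> linarith)
        have h6 := B2 q h5.2.le h5.1
        obtain ⟨n, h7, h8, h9, h10⟩ := ((hκ (Set.Ioi (q : ℝ)) (Ioi_mem_nhds h4)).and_eventually
          (h6.and (hN.and hlog))).exists
        rw [Set.mem_Ioi, lt_div_iff₀ h10, h9] at h7
        linarith
    · rintro ⟨hκ0, hκ1⟩
      rw [mapClusterPt_iff_frequently]
      intro s hs
      obtain ⟨δ, hδ, h1⟩ := Metric.mem_nhds_iff.1 hs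
      obtain ⟨q, q1, q2, q3⟩ := J_dense hlam hκ0 hκ1 (δ / 2) (by positivity)
      obtain ⟨k, hk⟩ := exists_nat_one_div_lt (show 0 < δ / 2 by positivity)
      refine ((B1 q k q1 q2).and_eventually (hN.and hlog)).mono fun n hn => ?_
      obtain ⟨h2, h3, h4⟩ := hn
      apply h1
      rw [Metric.mem_ball, Real.dist_eq, h3]
      have h5 : |(MS.sv (z0 (x n)) (x n) (y n) (fun q => a q ω) : ℝ) / Real.log n - q| ≤ 1 / ((k : ℝ) + 1) := by
        have e : (MS.sv (z0 (x n)) (x n) (y n) (fun q => a q ω) : ℝ) / Real.log n - q =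
            ((MS.sv (z0 (x n)) (x n) (y n) (fun q => a q ω) : ℝ) - q * Real.log n) / Real.log n := by
          field_simp
        rw [e, abs_div, abs_of_pos h4, div_le_iff₀ h4]
        exact h2
      calc |(MS.sv (z0 (x n)) (x n) (y n) (fun q => a q ω) : ℝ) / Real.log n - κ| =
            |((MS.sv (z0 (x n)) (x n) (y n) (fun q => a q ω) : ℝ) / Real.log n - q) + ((q : ℝ) - κ)| := by ring_nf
        _ ≤ _ + _ := abs_add_le _ _
        _ < δ := by linarith
  · intro q h1 h2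
    filter_upwards [B2 q h1 h2, hN] with n h3 h4
    rwa [h4]
  · intro q h0 h1 h2
    filter_upwards [B3 q h0 h1 h2, hN] with n h3 h4
    rwa [h4]
  · intro h1
    refine ((B4 h1).and_eventually hN).mono fun n hn => ?_
    rw [hn.2, hn.1]

end seq

end Pool.Agent.H531.PW
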