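import Pool.Agent.H531.PW.Pair

set_option autoImplicit false

/-!
# Two windows are nearly independent; the second moment
-/

open Finset MeasureTheory ProbabilityTheory Filter Topology

namespace Pool.Agent.H531.PW

open Pool.Agent.T2H31.HV Pool.Agent.T2H32.BF Pool.Agent.H531.SI Pool.Agent.H531.MS

/-- the elements of `U` outside the class `r` -/
def rem (p r : ℕ) (U : Finset ℕ) : Finset ℕ := U.filter fun t => t % p ≠ r

/-- the mean of `f` after one step -/
noncomputable def av (p : ℕ) (f : Finset ℕ → ℝ) (U : Finset ℕ) : ℝ := (1 / (p : ℝ)) * ∑ r ∈ range p, f (rem p r U)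

theorem av_bounds {p : ℕ} (hp : 0 < p) {f : Finset ℕ → ℝ} (hf : ∀ U, 0 ≤ f U ∧ f U ≤ 1) (U : Finset ℕ) :
    0 ≤ av p f U ∧ av p f U ≤ 1 := by
  have hp0 : (0 : ℝ) < p := by exact_mod_cast hp
  unfold av
  constructor
  · exact mul_nonneg (by positivity) (sum_nonneg fun r _ => (hf _).1)
  · have h1 : ∑ r ∈ range p, f (rem p r U) ≤ p := by
      calc ∑ r ∈ range p, f (rem p r U) ≤ ∑ r ∈ range p, (1 : ℝ) := sum_le_sum fun r _ => (hf _).2
        _ = p := by simp
    rw [one_div, inv_mul_le_iff₀ hp0, mul_one]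
    exact h1

theorem rem_eq (p r : ℕ) (U : Finset ℕ) (h : r ∉ U.image fun t => t % p) : rem p r U = U := by
  unfold rem
  refine filter_true_of_mem fun t ht h1 => h ?_
  exact mem_image.2 ⟨t, ht, h1⟩

/-- the number of coincidences -/
def coin (p : ℕ) (T T' : Finset ℕ) : ℕ := ((T ×ˢ T').filter fun q => q.1 % p = q.2 % p).card

theorem coin_inter (p : ℕ) (U U' T T' : Finset ℕ) (hU : U ⊆ T) (hU' : U' ⊆ T') :
    ((U.image fun t => t % p) ∩ (U'.image fun t => t % p)).card ≤ coin p T T' := by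
  unfold coin
  have h1 : (U.image fun t => t % p) ∩ (U'.image fun t => t % p) ⊆
      ((T ×ˢ T').filter fun q => q.1 % p = q.2 % p).image fun q => q.1 % p := by
    intro r hr
    rw [mem_inter, mem_image, mem_image] at hr
    obtain ⟨⟨t, ht, h2⟩, ⟨t', ht', h3⟩⟩ := hr
    refine mem_image.2 ⟨(t, t'), ?_, h2⟩
    rw [mem_filter, mem_product]
    exact ⟨⟨hU ht, hU' ht'⟩, by simp only; rw [h2, h3]⟩
  exact (card_le_card h1).trans card_image_le

theorem cov_one {p : ℕ} (hp : 0 < p) {f g : Finset ℕ → ℝ} (hf : ∀ U, 0 ≤ f U ∧ f U ≤ 1)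
    (hg : ∀ U, 0 ≤ g U ∧ g U ≤ 1) (U U' T T' : Finset ℕ) (hU : U ⊆ T) (hU' : U' ⊆ T') :
    |(1 / (p : ℝ)) * ∑ r ∈ range p, f (rem p r U) * g (rem p r U') - av p f U * av p g U'| ≤
      coin p T T' / p + T.card * T'.card / (p : ℝ) ^ 2 := by
  have hp0 : (0 : ℝ) < p := by exact_mod_cast hp
  obtain ⟨φ, hφ⟩ : ∃ φ : ℕ → ℝ, ∀ r, φ r = f (rem p r U) - f U := ⟨_, fun _ => rfl⟩
  obtain ⟨ψ, hψ⟩ : ∃ ψ : ℕ → ℝ, ∀ r, ψ r = g (rem p r U') - g U' := ⟨_, fun _ => rfl⟩
  obtain ⟨I, hI⟩ : ∃ I : Finset ℕ, I = U.image fun t => t % p := ⟨_, rfl⟩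
  obtain ⟨I', hI'⟩ : ∃ I' : Finset ℕ, I' = U'.image fun t => t % p := ⟨_, rfl⟩
  have hIr : I ⊆ range p := by
    intro r hr
    rw [hI, mem_image] at hr
    obtain ⟨t, _, rfl⟩ := hr
    exact mem_range.2 (Nat.mod_lt _ hp)
  have hIr' : I' ⊆ range p := by
    intro r hr
    rw [hI', mem_image] at hr
    obtain ⟨t, _, rfl⟩ := hr
    exact mem_range.2 (Nat.mod_lt _ hp)
  have hφ0 : ∀ r, r ∉ I → φ r = 0 := fun r hr => by
    rw [hφ, rem_eq p r U (by rwa [hI] at hr), sub_self]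
  have hψ0 : ∀ r, r ∉ I' → ψ r = 0 := fun r hr => by
    rw [hψ, rem_eq p r U' (by rwa [hI'] at hr), sub_self]
  have hφ1 : ∀ r, |φ r| ≤ 1 := fun r => by
    rw [hφ, abs_le]
    have h1 := hf (rem p r U)
    have h2 := hf U
    constructor <;> linarith
  have hψ1 : ∀ r, |ψ r| ≤ 1 := fun r => by
    rw [hψ, abs_le]
    have h1 := hg (rem p r U')
    have h2 := hg U'
    constructor <;> linarith
  have e1 : ∑ r ∈ range p, f (rem p r U) = p * f U + ∑ r ∈ range p, φ r := by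
    simp only [hφ, sum_sub_distrib, sum_const, card_range, nsmul_eq_mul]
    ring
  have e2 : ∑ r ∈ range p, g (rem p r U') = p * g U' + ∑ r ∈ range p, ψ r := by
    simp only [hψ, sum_sub_distrib, sum_const, card_range, nsmul_eq_mul]
    ring
  have e3 : ∑ r ∈ range p, f (rem p r U) * g (rem p r U') =
      p * (f U * g U') + f U * ∑ r ∈ range p, ψ r + g U' * ∑ r ∈ range p, φ r + ∑ r ∈ range p, φ r * ψ r := by
    have : ∀ r, f (rem p r U) * g (rem p r U') = f U * g U' + f U * ψ r + g U' * φ r + φ r * ψ r := fun r => by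
      rw [hφ, hψ]
      ring
    simp only [this, sum_add_distrib, sum_const, card_range, nsmul_eq_mul, mul_sum]
  have e4 : (1 / (p : ℝ)) * ∑ r ∈ range p, f (rem p r U) * g (rem p r U') - av p f U * av p g U' =
      (1 / (p : ℝ)) * ∑ r ∈ range p, φ r * ψ r - ((∑ r ∈ range p, φ r) * ∑ r ∈ range p, ψ r) / (p : ℝ) ^ 2 := by
    unfold av
    rw [e1, e2, e3]
    field_simp
    ring
  rw [e4]
  have b1 : |∑ r ∈ range p, φ r * ψ r| ≤ coin p T T' := by
    have h1 : ∑ r ∈ range p, φ r * ψ r = ∑ r ∈ I ∩ I', φ r * ψ r := by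
      refine (sum_subset (inter_subset_left.trans hIr) fun r _ hr => ?_).symm
      rw [mem_inter, not_and_or] at hr
      rcases hr with hr | hr
      · rw [hφ0 r hr, zero_mul]
      · rw [hψ0 r hr, mul_zero]
    rw [h1]
    calc |∑ r ∈ I ∩ I', φ r * ψ r| ≤ ∑ r ∈ I ∩ I', |φ r * ψ r| := abs_sum_le_sum_abs _ _
      _ ≤ ∑ r ∈ I ∩ I', (1 : ℝ) := sum_le_sum fun r _ => by
        rw [abs_mul]
        exact mul_le_one₀ (hφ1 r) (abs_nonneg _) (hψ1 r)
      _ = (I ∩ I').card := by simp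
      _ ≤ coin p T T' := by
        rw [hI, hI']
        exact_mod_cast coin_inter p U U' T T' hU hU'
  have b2 : |∑ r ∈ range p, φ r| ≤ T.card := by
    have h1 : ∑ r ∈ range p, φ r = ∑ r ∈ I, φ r :=
      (sum_subset hIr fun r _ hr => hφ0 r hr).symm
    rw [h1]
    calc |∑ r ∈ I, φ r| ≤ ∑ r ∈ I, |φ r| := abs_sum_le_sum_abs _ _
      _ ≤ ∑ r ∈ I, (1 : ℝ) := sum_le_sum fun r _ => hφ1 r
      _ = I.card := by simp
      _ ≤ T.card := by
        rw [hI]
        exact_mod_cast card_image_le.trans (card_le_card hU)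
  have b3 : |∑ r ∈ range p, ψ r| ≤ T'.card := by
    have h1 : ∑ r ∈ range p, ψ r = ∑ r ∈ I', ψ r :=
      (sum_subset hIr' fun r _ hr => hψ0 r hr).symm
    rw [h1]
    calc |∑ r ∈ I', ψ r| ≤ ∑ r ∈ I', |ψ r| := abs_sum_le_sum_abs _ _
      _ ≤ ∑ r ∈ I', (1 : ℝ) := sum_le_sum fun r _ => hψ1 r
      _ = I'.card := by simp
      _ ≤ T'.card := by
        rw [hI']
        exact_mod_cast card_image_le.trans (card_le_card hU')
  refine (abs_sub _ _).trans ?_
  rw [abs_mul, abs_of_pos (show 0 < 1 / (p : ℝ) by positivity), abs_div, abs_mul,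
    abs_of_pos (show 0 < (p : ℝ) ^ 2 by positivity)]
  apply add_le_add
  · rw [one_div_mul_eq_div]
    gcongr
  · gcongr

theorem Sw_upd (T L1 : Finset ℕ) (p r : ℕ) (b : ℕ → ℕ) :
    Sw T L1 (Function.update b p r) = if p ∈ L1 then rem p r (Sw T (L1.erase p) b) else Sw T (L1.erase p) b := by
  classical
  split_ifs with h
  · ext t
    unfold Sw rem
    rw [mem_filter, mem_filter, mem_filter]
    constructor
    · rintro ⟨h1, h2⟩
      refine ⟨⟨h1, fun q hq => ?_⟩, ?_⟩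
      · rw [mem_erase] at hq
        have := h2 q hq.2
        rwa [Function.update_of_ne hq.1] at this
      · have := h2 p h
        rwa [Function.update_self] at this
    · rintro ⟨⟨h1, h2⟩, h3⟩
      refine ⟨h1, fun q hq => ?_⟩
      by_cases hqp : q = p
      · rw [hqp, Function.update_self]
        exact h3
      · rw [Function.update_of_ne hqp]
        exact h2 q (mem_erase.2 ⟨hqp, hq⟩)
  · rw [erase_eq_of_notMem h]
    exact Sw_congr _ _ _ _ fun q hq => Function.update_of_ne (fun h1 : q = p => h (h1 ▸ hq)) _ _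

theorem pair_cov (L : Finset ℕ) (hL : ∀ p ∈ L, 0 < p) (T T' : Finset ℕ) : ∀ (L1 L2 : Finset ℕ), L1 ⊆ L → L2 ⊆ L →
    ∀ (f g : Finset ℕ → ℝ), (∀ U, 0 ≤ f U ∧ f U ≤ 1) → (∀ U, 0 ≤ g U ∧ g U ≤ 1) →
      |Ev L (fun b => f (Sw T L1 b) * g (Sw T' L2 b)) -
        Ev L (fun b => f (Sw T L1 b)) * Ev L (fun b => g (Sw T' L2 b))| ≤
        ∑ p ∈ L, (coin p T T' / (p : ℝ) + T.card * T'.card / (p : ℝ) ^ 2) := by
  classical
  induction L using Finset.induction_on with
  | empty =>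
    intro L1 L2 _ _ f g _ _
    simp [Ev_empty]
  | insert p L hp ih =>
    intro L1 L2 h1 h2 f g hf hg
    have hpp : 0 < p := hL p (mem_insert_self _ _)
    have hp0 : (0 : ℝ) < p := by exact_mod_cast hpp
    have h1' : L1.erase p ⊆ L := by
      intro q hq
      rw [mem_erase] at hq
      exact mem_of_mem_insert_of_ne (h1 hq.2) hq.1
    have h2' : L2.erase p ⊆ L := by
      intro q hq
      rw [mem_erase] at hq
      exact mem_of_mem_insert_of_ne (h2 hq.2) hq.1
    obtain ⟨f', hf'⟩ : ∃ f' : Finset ℕ → ℝ, f' = if p ∈ L1 then av p f else f := ⟨_, rfl⟩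
    obtain ⟨g', hg'⟩ : ∃ g' : Finset ℕ → ℝ, g' = if p ∈ L2 then av p g else g := ⟨_, rfl⟩
    have hf1 : ∀ U, 0 ≤ f' U ∧ f' U ≤ 1 := by
      intro U
      rw [hf']
      split_ifs
      · exact av_bounds hpp hf U
      · exact hf U
    have hg1 : ∀ U, 0 ≤ g' U ∧ g' U ≤ 1 := by
      intro U
      rw [hg']
      split_ifs
      · exact av_bounds hpp hg U
      · exact hg U
    have hconst : ∀ c : ℝ, (1 / (p : ℝ)) * ∑ _r ∈ range p, c = c := fun c => by
      rw [sum_const, card_range, nsmul_eq_mul]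
      field_simp
    have hF : ∀ b, (1 / (p : ℝ)) * ∑ r ∈ range p, f (Sw T L1 (Function.update b p r)) = f' (Sw T (L1.erase p) b) := by
      intro b
      simp only [Sw_upd T L1 p, hf']
      split_ifs with h
      · rfl
      · exact hconst _
    have hG : ∀ b, (1 / (p : ℝ)) * ∑ r ∈ range p, g (Sw T' L2 (Function.update b p r)) = g' (Sw T' (L2.erase p) b) := by
      intro b
      simp only [Sw_upd T' L2 p, hg']
      split_ifs with h
      · rfl
      · exact hconst _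
    have hsub : ∀ b, Sw T (L1.erase p) b ⊆ T := fun b => filter_subset _ _
    have hsub' : ∀ b, Sw T' (L2.erase p) b ⊆ T' := fun b => filter_subset _ _
    have he : 0 ≤ coin p T T' / (p : ℝ) + T.card * T'.card / (p : ℝ) ^ 2 := by positivity
    have hFG : ∀ b, |(1 / (p : ℝ)) * ∑ r ∈ range p, (f (Sw T L1 (Function.update b p r)) *
        g (Sw T' L2 (Function.update b p r))) - f' (Sw T (L1.erase p) b) * g' (Sw T' (L2.erase p) b)| ≤
        coin p T T' / (p : ℝ) + T.card * T'.card / (p : ℝ) ^ 2 := by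
      intro b
      simp only [Sw_upd T L1 p, Sw_upd T' L2 p, hf', hg']
      by_cases c1 : p ∈ L1
      · by_cases c2 : p ∈ L2
        · simp only [if_pos c1, if_pos c2]
          exact cov_one hpp hf hg _ _ T T' (hsub b) (hsub' b)
        · simp only [if_pos c1, if_neg c2]
          rw [← sum_mul, ← mul_assoc]
          unfold av
          rw [sub_self, abs_zero]
          exact he
      · by_cases c2 : p ∈ L2
        · simp only [if_neg c1, if_pos c2]
          rw [← mul_sum]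
          unfold av
          rw [show (1 / (p : ℝ)) * (f (Sw T (L1.erase p) b) * ∑ r ∈ range p, g (rem p r (Sw T' (L2.erase p) b))) =
            f (Sw T (L1.erase p) b) * ((1 / (p : ℝ)) * ∑ r ∈ range p, g (rem p r (Sw T' (L2.erase p) b))) by ring,
            sub_self, abs_zero]
          exact he
        · simp only [if_neg c1, if_neg c2]
          rw [hconst, sub_self, abs_zero]
          exact he
    rw [Ev_insert L p hp, Ev_insert L p hp, Ev_insert L p hp, sum_insert hp]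
    simp only [hF, hG]
    have ih1 := ih (fun q hq => hL q (mem_insert_of_mem hq)) (L1.erase p) (L2.erase p) h1' h2' f' g' hf1 hg1
    have hd : |Ev L (fun b => (1 / (p : ℝ)) * ∑ r ∈ range p, f (Sw T L1 (Function.update b p r)) *
        g (Sw T' L2 (Function.update b p r))) -
        Ev L (fun b => f' (Sw T (L1.erase p) b) * g' (Sw T' (L2.erase p) b))| ≤
        coin p T T' / (p : ℝ) + T.card * T'.card / (p : ℝ) ^ 2 := by
      rw [← Ev_sub, abs_le]
      have hc := Ev_const L (fun q hq => hL q (mem_insert_of_mem hq))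
      constructor
      · rw [← hc (-(coin p T T' / (p : ℝ) + T.card * T'.card / (p : ℝ) ^ 2))]
        exact Ev_mono L _ _ fun b _ => (abs_le.1 (hFG b)).1
      · rw [← hc (coin p T T' / (p : ℝ) + T.card * T'.card / (p : ℝ) ^ 2)]
        exact Ev_mono L _ _ fun b _ => (abs_le.1 (hFG b)).2
    rw [abs_le] at ih1 hd ⊢
    constructor
    · linarith [ih1.1, hd.1]
    · linarith [ih1.2, hd.2]

/-- the total number of coincidences -/
theorem coin_sum (L : Finset ℕ) (hL : ∀ p ∈ L, p.Prime) (T T' : Finset ℕ) (X Y : ℕ) (hY : 1 ≤ Y)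
    (hLY : ∀ p ∈ L, Y < p)
    (hT : ∀ t ∈ T, ∀ t' ∈ T', t ≠ t' ∧ t ≤ X ∧ t' ≤ X) :
    ∑ p ∈ L, (coin p T T' / (p : ℝ) + T.card * T'.card / (p : ℝ) ^ 2) ≤
      (T.card * T'.card) * (Nat.log 2 X + 1) / Y := by
  classical
  have hY0 : (0 : ℝ) < Y := by exact_mod_cast hY
  have h1 : ∑ p ∈ L, (coin p T T' : ℝ) ≤ (T.card * T'.card) * Nat.log 2 X := by
    have h2 : ∑ p ∈ L, coin p T T' ≤ (T.card * T'.card) * Nat.log 2 X := by
      unfold coin
      have e : ∀ p, ((T ×ˢ T').filter fun q => q.1 % p = q.2 % p).card =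
          ∑ q ∈ T ×ˢ T', if q.1 % p = q.2 % p then 1 else 0 := fun p => by
        rw [card_filter]
      simp only [e]
      rw [sum_comm]
      calc ∑ q ∈ T ×ˢ T', ∑ p ∈ L, (if q.1 % p = q.2 % p then 1 else 0)
          ≤ ∑ q ∈ T ×ˢ T', Nat.log 2 X := sum_le_sum fun q hq => by
            rw [← card_filter]
            rw [mem_product] at hq
            obtain ⟨h3, h4, h5⟩ := hT q.1 hq.1 q.2 hq.2
            exact card_dvd_diff' L hL q.1 q.2 X h3 (by omega) (by omega)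
        _ = _ := by rw [sum_const, card_product, smul_eq_mul]
    exact_mod_cast h2
  have h2 : ∑ p ∈ L, 1 / (p : ℝ) ^ 2 ≤ 1 / (Y : ℝ) := by
    rcases L.eq_empty_or_nonempty with h0 | h0
    · rw [h0, sum_empty]
      positivity
    · obtain ⟨M, hM⟩ : ∃ M : ℕ, M = L.max' h0 := ⟨_, rfl⟩
      have h3 : L ⊆ Ioc Y M := by
        intro p hp
        rw [mem_Ioc, hM]
        exact ⟨hLY p hp, L.le_max' p hp⟩
      have h4 : Y ≤ M := by
        obtain ⟨p, hp⟩ := h0
        have := mem_Ioc.1 (h3 hp)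
        omega
      have h5 := sum_Ioc_inv_sq_le_sub (α := ℝ) (show Y ≠ 0 by omega) h4
      have h6 : ∑ p ∈ L, 1 / (p : ℝ) ^ 2 ≤ ∑ p ∈ Ioc Y M, ((p : ℝ) ^ 2)⁻¹ := by
        simp only [one_div]
        exact sum_le_sum_of_subset_of_nonneg h3 fun p _ _ => by positivity
      have h7 : (0 : ℝ) ≤ (M : ℝ)⁻¹ := by positivity
      rw [one_div]
      linarith
  rw [sum_add_distrib]
  have h3 : ∑ p ∈ L, (coin p T T' / (p : ℝ)) ≤ (T.card * T'.card) * Nat.log 2 X / Y := by
    calc ∑ p ∈ L, (coin p T T' / (p : ℝ)) ≤ ∑ p ∈ L, (coin p T T' / (Y : ℝ)) := sum_le_sum fun p hp => by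
          have : (Y : ℝ) ≤ p := by exact_mod_cast (hLY p hp).le
          gcongr
      _ = (∑ p ∈ L, (coin p T T' : ℝ)) / Y := by rw [sum_div]
      _ ≤ _ := by gcongr
  have h4 : ∑ p ∈ L, ((T.card : ℝ) * T'.card / (p : ℝ) ^ 2) ≤ (T.card * T'.card) / Y := by
    have e : ∀ p : ℕ, (T.card : ℝ) * T'.card / (p : ℝ) ^ 2 = (T.card * T'.card) * (1 / (p : ℝ) ^ 2) := fun p => by ring
    simp only [e]
    rw [← mul_sum, div_eq_mul_one_div ((T.card : ℝ) * T'.card)]
    gcongr
  calc _ ≤ (T.card * T'.card : ℝ) * Nat.log 2 X / Y + (T.card * T'.card) / Y := add_le_add h3 h4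
    _ = _ := by ring

theorem Ev_sum (L : Finset ℕ) {ι : Type} (I : Finset ι) (F : ι → (ℕ → ℕ) → ℝ) :
    Ev L (fun b => ∑ i ∈ I, F i b) = ∑ i ∈ I, Ev L (F i) := by
  unfold Ev
  rw [sum_comm, mul_sum]

/-- **The second moment.** -/
theorem block {Ω : Type} [MeasurableSpace Ω] {P : Measure Ω} {a : ℕ → Ω → ℕ} (h : Model P a) (I L : Finset ℕ)
    (hL : ∀ p ∈ L, p.Prime) (F : ℕ → (ℕ → ℕ) → ℝ) (hF : ∀ n ∈ I, ∀ b, 0 ≤ F n b ∧ F n b ≤ 1)
    (hdep : ∀ n ∈ I, Dep L (F n)) (q δ : ℝ) (hq : 0 < q) (hδ0 : 0 ≤ δ) (hqF : ∀ n ∈ I, q ≤ Ev L (F n))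
    (hδ : ∀ n ∈ I, ∀ k ∈ I, n ≠ k → |Ev L (fun b => F n b * F k b) - Ev L (F n) * Ev L (F k)| ≤ δ)
    (hI : 0 < I.card) :
    P.real {ω | ∀ n ∈ I, F n (fun q => a q ω) = 0} ≤ 1 / (I.card * q) + δ / q ^ 2 := by
  classical
  have := prob h
  have hI0 : (0 : ℝ) < I.card := by exact_mod_cast hI
  have hc := Ev_const L (fun p hp => (hL p hp).pos)
  obtain ⟨m, hm⟩ : ∃ m : ℕ → ℝ, ∀ n, m n = Ev L (F n) := ⟨_, fun _ => rfl⟩
  obtain ⟨μ, hμ⟩ : ∃ μ : ℝ, μ = ∑ n ∈ I, m n := ⟨_, rfl⟩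
  have hm0 : ∀ n ∈ I, 0 ≤ m n := fun n hn => by
    rw [hm]
    exact Ev_nonneg _ _ fun b _ => (hF n hn b).1
  have hμq : I.card * q ≤ μ := by
    rw [hμ]
    calc (I.card : ℝ) * q = ∑ n ∈ I, q := by simp
      _ ≤ _ := sum_le_sum fun n hn => by
        rw [hm]
        exact hqF n hn
  have hμ0 : 0 < μ := lt_of_lt_of_le (by positivity) hμq
  -- the variance
  have hvar : Ev L (fun b => (∑ n ∈ I, (F n b - m n)) ^ 2) ≤ μ + I.card ^ 2 * δ := by
    have e1 : ∀ b, (∑ n ∈ I, (F n b - m n)) ^ 2 = ∑ n ∈ I, ∑ k ∈ I, (F n b - m n) * (F k b - m k) := fun b => by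
      rw [sq, sum_mul_sum]
    simp only [e1]
    rw [Ev_sum L I (fun n b => ∑ k ∈ I, (F n b - m n) * (F k b - m k))]
    have e2 : ∀ n, Ev L (fun b => ∑ k ∈ I, (F n b - m n) * (F k b - m k)) =
        ∑ k ∈ I, Ev L (fun b => (F n b - m n) * (F k b - m k)) := fun n =>
      Ev_sum L I (fun k b => (F n b - m n) * (F k b - m k))
    simp only [e2]
    have e3 : ∀ n k, Ev L (fun b => (F n b - m n) * (F k b - m k)) = Ev L (fun b => F n b * F k b) - m n * m k := by
      intro n k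
      have : (fun b => (F n b - m n) * (F k b - m k)) =
          fun b => (F n b * F k b - (m k * F n b + m n * F k b)) + m n * m k := by
        funext b
        ring
      rw [this, Ev_add, Ev_sub, Ev_add, Ev_mul, Ev_mul, hc, ← hm, ← hm]
      ring
    simp only [e3]
    have h1 : ∀ n ∈ I, ∑ k ∈ I, (Ev L (fun b => F n b * F k b) - m n * m k) ≤ m n + I.card * δ := by
      intro n hn
      rw [← add_sum_erase I _ hn]
      apply add_le_add
      · have h2 : Ev L (fun b => F n b * F n b) ≤ m n := by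
          rw [hm]
          refine Ev_mono _ _ _ fun b _ => ?_
          have := hF n hn b
          nlinarith
        have h3 := mul_self_nonneg (m n)
        linarith
      · calc ∑ k ∈ I.erase n, (Ev L (fun b => F n b * F k b) - m n * m k) ≤ ∑ k ∈ I.erase n, δ :=
              sum_le_sum fun k hk => by
                rw [mem_erase] at hk
                rw [hm, hm]
                exact (le_abs_self _).trans (hδ n hn k hk.2 (Ne.symm hk.1))
          _ = (I.erase n).card * δ := by simp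
          _ ≤ I.card * δ := by
            apply mul_le_mul_of_nonneg_right _ hδ0
            exact_mod_cast card_le_card (erase_subset _ _)
    calc _ ≤ ∑ n ∈ I, (m n + I.card * δ) := sum_le_sum h1
      _ = μ + I.card ^ 2 * δ := by
        rw [sum_add_distrib, ← hμ, sum_const, nsmul_eq_mul]
        ring
  have hd : Dep L (fun b => (∑ n ∈ I, (F n b - m n)) ^ 2) := by
    intro b b' hb
    have : ∀ n ∈ I, F n b = F n b' := fun n hn => hdep n hn b b' hb
    simp only
    rw [sum_congr rfl fun n hn => by rw [this n hn]]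
  have h1 := markov h L hL (fun b => (∑ n ∈ I, (F n b - m n)) ^ 2) (fun b => sq_nonneg _) hd (μ ^ 2) (by positivity)
  have h2 : {ω | ∀ n ∈ I, F n (fun q => a q ω) = 0} ⊆
      {ω | μ ^ 2 ≤ (∑ n ∈ I, (F n (fun q => a q ω) - m n)) ^ 2} := by
    intro ω hω
    simp only [Set.mem_ofPred_eq] at hω ⊢
    rw [sum_sub_distrib, sum_eq_zero hω, ← hμ]
    exact le_of_eq (by ring)
  refine (measureReal_mono h2 (measure_ne_top _ _)).trans (h1.trans ?_)
  calc Ev L (fun b => (∑ n ∈ I, (F n b - m n)) ^ 2) / μ ^ 2 ≤ (μ + I.card ^ 2 * δ) / μ ^ 2 := by gcongr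
    _ = 1 / μ + δ * (I.card / μ) ^ 2 := by
      field_simp
    _ ≤ 1 / (I.card * q) + δ * (1 / q) ^ 2 := by
      have h3 : (I.card : ℝ) / μ ≤ 1 / q := by
        rw [div_le_div_iff₀ hμ0 hq]
        linarith
      gcongr
    _ = _ := by ring

end Pool.Agent.H531.PW
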