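import Pool.Agent.H531.PW.Lam

set_option autoImplicit false

/-!
# Events that happen infinitely often
-/

open Finset MeasureTheory ProbabilityTheory Filter Topology

namespace Pool.Agent.H531.PW

open Pool.Agent.T2H31.HV Pool.Agent.H531.SI Pool.Agent.H531.MS
open Pool.Agent.T2H32.BF (V V_pos V_anti V_ratio V_step z0 z0_mono z0_lim z0_top z0_mem z0_lt R Model prob ae_lt)

theorem Ev_super (L1 L : Finset ℕ) (h : L1 ⊆ L) (hL : ∀ p ∈ L, 0 < p) (F : (ℕ → ℕ) → ℝ) (hF : Dep L1 F) :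
    Ev L F = Ev L1 F := by
  classical
  have key : ∀ D : Finset ℕ, Disjoint L1 D → (∀ p ∈ D, 0 < p) → Ev (L1 ∪ D) F = Ev L1 F := by
    intro D
    induction D using Finset.induction_on with
    | empty => intro _ _; rw [union_empty]
    | insert p D hp ih =>
      intro hd hpos
      rw [disjoint_insert_right] at hd
      have hpn : p ∉ L1 ∪ D := by
        rw [mem_union, not_or]
        exact ⟨hd.1, hp⟩
      have hp0 : (0 : ℝ) < p := by exact_mod_cast hpos p (mem_insert_self _ _)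
      rw [union_insert, Ev_insert _ p hpn]
      have e : (fun b : ℕ → ℕ => (1 / (p : ℝ)) * ∑ r ∈ range p, F (Function.update b p r)) = F := by
        funext b
        have : ∀ r ∈ range p, F (Function.update b p r) = F b := fun r _ => by
          refine hF _ _ fun q hq => Function.update_of_ne ?_ _ _
          rintro rfl
          exact hd.1 hq
        rw [sum_congr rfl this, sum_const, card_range, nsmul_eq_mul]
        field_simp
      rw [e]
      exact ih hd.2 fun q hq => hpos q (mem_insert_of_mem hq)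
  have h1 := key (L \ L1) disjoint_sdiff fun p hp => hL p (mem_sdiff.1 hp).1
  rwa [union_sdiff_of_subset h] at h1

theorem window_sep (x y Y z : ℕ) (T : Finset ℕ) (hT : T ⊆ Ioc x (x + y)) (hyY : y ≤ Y) : SI.Sep T (PI Y z) := by
  intro p hp s hs s' hs' hss
  have hpp := MS.mem_PI.1 hp
  have h1 := mem_Ioc.1 (hT hs)
  have h2 := mem_Ioc.1 (hT hs')
  have h3 : s ≡ s' [MOD p] := hss
  rcases le_total s s' with h4 | h4
  · have h5 := (Nat.modEq_iff_dvd' h4).1 h3
    have h6 := Nat.eq_zero_of_dvd_of_lt h5 (by omega)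
    omega
  · have h5 := (Nat.modEq_iff_dvd' h4).1 h3.symm
    have h6 := Nat.eq_zero_of_dvd_of_lt h5 (by omega)
    omega

theorem PI_prime {Y z p : ℕ} (hp : p ∈ PI Y z) : p.Prime := (MS.mem_PI.1 hp).2

theorem PI_mono {Y z z' : ℕ} (h : z ≤ z') : PI Y z ⊆ PI Y z' := by
  intro p hp
  have := MS.mem_PI.1 hp
  exact MS.mem_PI.2 ⟨⟨this.1.1, this.1.2.trans h⟩, this.2⟩

section seq

variable {x y : ℕ → ℕ} {ℓ c : ℝ} (hℓ : 0 < ℓ) (hc : 0 < c)
  (H1 : Tendsto (fun n : ℕ => Real.log (x n) / n) atTop (𝓝 ℓ))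
  (H2 : Tendsto (fun n : ℕ => (y n : ℝ) / (n * Real.log n)) atTop (𝓝 c))
  (H3 : ∀ᶠ n : ℕ in atTop, x n + y n ≤ x (n + 1))

include H3 in
theorem x_mono : ∃ N₀ : ℕ, ∀ n k : ℕ, N₀ ≤ n → n < k → x n + y n ≤ x k := by
  obtain ⟨N₀, h⟩ := eventually_atTop.1 H3
  refine ⟨N₀, fun n k hn hk => ?_⟩
  induction k, hk using Nat.le_induction with
  | base => exact h n hn
  | succ k hk ih =>
    have h1 : n + 1 ≤ k := hk
    have := h k (by omega)
    omega

include hℓ H1 in
theorem log2_small : ∀ᶠ N : ℕ in atTop, Nat.log 2 (x (2 * N)) + 1 ≤ N ^ 2 := by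
  have h2 : Tendsto (fun N : ℕ => 2 * N) atTop atTop := tendsto_id.const_mul_atTop' (by norm_num)
  filter_upwards [h2.eventually (x_facts hℓ H1), eventually_ge_atTop ⌈8 * ℓ + 2⌉₊, eventually_ge_atTop 2,
    h2.eventually ((x_top hℓ H1).eventually_ge_atTop 1)] with N g1 g2 g3 g4
  have hX : (0 : ℝ) < x (2 * N) := by exact_mod_cast g4
  have h3 : (8 * ℓ + 2 : ℝ) ≤ N := (Nat.le_ceil _).trans (by exact_mod_cast g2)
  have hN : (2 : ℝ) ≤ N := by exact_mod_cast g3
  have h4 : ((Nat.log 2 (x (2 * N)) : ℕ) : ℝ) * Real.log 2 ≤ Real.log (x (2 * N)) := by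
    have h5 : 2 ^ Nat.log 2 (x (2 * N)) ≤ x (2 * N) := Nat.pow_log_le_self 2 (by omega)
    have h6 : ((2 : ℝ)) ^ Nat.log 2 (x (2 * N)) ≤ x (2 * N) := by exact_mod_cast h5
    have h7 := Real.log_le_log (by positivity) h6
    rwa [Real.log_pow] at h7
  have h5 := Real.log_two_gt_d9
  have h6 : Real.log (x (2 * N)) ≤ 4 * ℓ * N := by
    have := g1.2
    push_cast at this
    linarith
  have h7 : (Nat.log 2 (x (2 * N)) : ℝ) * (1 / 2) ≤ 4 * ℓ * N := by
    have h8 : (0 : ℝ) ≤ Nat.log 2 (x (2 * N)) := Nat.cast_nonneg _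
    nlinarith
  have h8 : (Nat.log 2 (x (2 * N)) : ℝ) + 1 ≤ (N : ℝ) ^ 2 := by nlinarith
  exact_mod_cast h8

include hℓ hc H1 H2 H3 in
/-- the probability that no event of a block happens -/
theorem block_prob {Ω : Type} [MeasurableSpace Ω] {P : Measure Ω} {a : ℕ → Ω → ℕ} (h : Model P a)
    (Q : ℕ → ℕ → Prop) (θ ε : ℝ) (hθ : 0 < θ) (hθ1 : θ ≤ 1 / 2) (hε : 0 < ε) (hε1 : ε ≤ 1)
    (hyp : ∀ᶠ n : ℕ in atTop, ∀ Y : ℕ, n ^ 19 ≤ Y → Y ≤ n ^ 20 → ∀ T : Finset ℕ, T ⊆ Ioc (x n) (x n + y n) →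
      |(T.card : ℝ) - y n * V Y| ≤ ε * (y n * V Y) →
        (n : ℝ) ^ (-1 + θ) ≤ Ev (PI Y (z0 (x n))) (fun b => ind (Q n (Sw T (PI Y (z0 (x n))) b).card))) :
    ∀ᶠ N : ℕ in atTop, P.real {ω | ∀ n ∈ Ico N (2 * N), ¬ Q n (MS.sv (z0 (x n)) (x n) (y n) fun q => a q ω)} ≤
      1 / (N : ℝ) + (2 * (N : ℝ) ^ (-θ) + 4 * (N : ℝ) ^ (-8 : ℝ)) := by
  classical
  have := prob h
  obtain ⟨N₁, hN₁⟩ := x_mono H3
  obtain ⟨N₂, hN₂⟩ := eventually_atTop.1 hyp
  obtain ⟨N₃, hN₃⟩ := eventually_atTop.1 (good_prob h x hc H2 ε hε hε1)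
  obtain ⟨N₄, hN₄⟩ := eventually_atTop.1 (y_facts hc H2)
  obtain ⟨N₅, hN₅⟩ := eventually_atTop.1 (z_large hℓ H1 20)
  filter_upwards [eventually_ge_atTop (2 ^ 19), eventually_ge_atTop N₁, eventually_ge_atTop N₂,
    eventually_ge_atTop N₃, eventually_ge_atTop N₄, eventually_ge_atTop N₅, log2_small hℓ H1] with
    N g0 g1 g2 g3 g4 g5 g6
  have hN : (2 ^ 19 : ℝ) ≤ N := by exact_mod_cast g0
  have hN0 : (0 : ℝ) < N := by
    refine lt_of_lt_of_le (by norm_num) hN
  obtain ⟨Y, hY⟩ : ∃ Y : ℕ, Y = N ^ 20 := ⟨_, rfl⟩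
  obtain ⟨Z, hZ⟩ : ∃ Z : ℕ, Z = z0 (x (2 * N)) := ⟨_, rfl⟩
  obtain ⟨I, hI⟩ : ∃ I : Finset ℕ, I = Ico N (2 * N) := ⟨_, rfl⟩
  have hIn : ∀ n ∈ I, N ≤ n ∧ n < 2 * N := fun n hn => by
    rw [hI] at hn
    exact mem_Ico.1 hn
  have hYup : ∀ n ∈ I, Y ≤ n ^ 20 := fun n hn => by
    rw [hY]
    exact Nat.pow_le_pow_left (hIn n hn).1 20
  have hYlo : ∀ n ∈ I, n ^ 19 ≤ Y := fun n hn => by
    rw [hY]
    calc n ^ 19 ≤ (2 * N) ^ 19 := Nat.pow_le_pow_left (hIn n hn).2.le 19
      _ = 2 ^ 19 * N ^ 19 := by rw [mul_pow]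
      _ ≤ N * N ^ 19 := Nat.mul_le_mul_right _ g0
      _ = N ^ 20 := by ring
  have hyn2 : ∀ n ∈ I, y n ≤ n ^ 2 := fun n hn => by
    have := (hN₄ n (g4.trans (hIn n hn).1)).2
    exact_mod_cast this
  have hyY : ∀ n ∈ I, y n ≤ Y := fun n hn => by
    refine (hyn2 n hn).trans (le_trans ?_ (hYlo n hn))
    have := hIn n hn
    exact Nat.pow_le_pow_right (by omega) (by norm_num)
  have hzZ : ∀ n ∈ I, z0 (x n) ≤ Z := fun n hn => by
    rw [hZ]
    apply z0_mono
    have := hN₁ n (2 * N) (g1.trans (hIn n hn).1) (hIn n hn).2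
    omega
  have hYz : ∀ n ∈ I, Y ≤ z0 (x n) := fun n hn =>
    (hYup n hn).trans (hN₅ n (g5.trans (hIn n hn).1))
  have hNI : N ∈ I := by
    rw [hI, mem_Ico]
    omega
  have hYZ : Y ≤ Z := (hYz N hNI).trans (hzZ N hNI)
  obtain ⟨good, hgood⟩ : ∃ good : ℕ → (ℕ → ℕ) → Prop, ∀ n b, good n b ↔
      |(MS.sv Y (x n) (y n) b : ℝ) - y n * V Y| ≤ ε * (y n * V Y) := ⟨_, fun _ _ => Iff.rfl⟩
  have hgc : ∀ n b b', (∀ i ∈ PN Y, b i = b' i) → (good n b ↔ good n b') := by
    intro n b b' hb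
    rw [hgood, hgood, sv_congr Y (x n) (y n) b b' hb]
  have hd : Disjoint (PN Y) (PI Y Z) := by
    rw [disjoint_left]
    intro p hp hp'
    rw [mem_PN] at hp
    rw [MS.mem_PI] at hp'
    omega
  have hun : PN Z = PN Y ∪ PI Y Z := PN_union Y Z hYZ
  -- the bad part
  have hbad : P.real {ω | ∃ n ∈ I, ¬ good n fun q => a q ω} ≤ 1 / (N : ℝ) := by
    have e : {ω | ∃ n ∈ I, ¬ good n fun q => a q ω} = ⋃ n ∈ I, {ω | ¬ good n fun q => a q ω} := by
      ext ω
      simp
    rw [e]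
    refine (measureReal_biUnion_finset_le I _).trans ?_
    calc ∑ n ∈ I, P.real {ω | ¬ good n fun q => a q ω} ≤ ∑ n ∈ I, 1 / (N : ℝ) ^ 2 := by
          refine sum_le_sum fun n hn => ?_
          have h1 := hN₃ n (g3.trans (hIn n hn).1) Y (hyY n hn) (hYup n hn)
          simp only [hgood, not_le]
          refine h1.trans ?_
          have : (N : ℝ) ≤ n := by exact_mod_cast (hIn n hn).1
          gcongr
      _ = 1 / (N : ℝ) := by
        rw [sum_const, hI, Nat.card_Ico, nsmul_eq_mul, show 2 * N - N = N by omega]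
        field_simp
  -- the main part
  have hmain : P.real {ω | (∀ n ∈ I, good n fun q => a q ω) ∧
      ∀ n ∈ I, ¬ Q n (MS.sv (z0 (x n)) (x n) (y n) fun q => a q ω)} ≤
      2 * (N : ℝ) ^ (-θ) + 4 * (N : ℝ) ^ (-8 : ℝ) := by
    refine cond_one h (PN Y) (PI Y Z) hd
      (fun b => (∀ n ∈ I, good n b) ∧ ∀ n ∈ I, ¬ Q n (MS.sv (z0 (x n)) (x n) (y n) b)) ?_ _ (by positivity) ?_
    · intro b b' hb
      have c1 : ∀ n ∈ I, (good n b ↔ good n b') := fun n _ =>
        hgc n b b' fun i hi => hb i (mem_union_left _ hi)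
      have c2 : ∀ n ∈ I, MS.sv (z0 (x n)) (x n) (y n) b = MS.sv (z0 (x n)) (x n) (y n) b' := fun n hn => by
        refine sv_congr _ _ _ _ _ fun p hp => hb p ?_
        rw [← hun]
        rw [mem_PN] at hp ⊢
        exact ⟨hp.1.trans (hzZ n hn), hp.2⟩
      constructor
      · rintro ⟨h1, h2⟩
        refine ⟨fun n hn => (c1 n hn).1 (h1 n hn), fun n hn => ?_⟩
        rw [← c2 n hn]
        exact h2 n hn
      · rintro ⟨h1, h2⟩
        refine ⟨fun n hn => (c1 n hn).2 (h1 n hn), fun n hn => ?_⟩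
        rw [c2 n hn]
        exact h2 n hn
    · intro α
      by_cases hα : ∀ n ∈ I, good n α
      swap
      · have : {ω | (∀ n ∈ I, good n fun i => if i ∈ PN Y then α i else a i ω) ∧
            ∀ n ∈ I, ¬ Q n (MS.sv (z0 (x n)) (x n) (y n) fun i => if i ∈ PN Y then α i else a i ω)} = ∅ := by
          rw [Set.eq_empty_iff_forall_notMem]
          rintro ω ⟨h1, -⟩
          exact hα fun n hn => (hgc n _ α fun i hi => if_pos hi).1 (h1 n hn)
        rw [this, measureReal_empty]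
        positivity
      obtain ⟨T, hT⟩ : ∃ T : ℕ → Finset ℕ, ∀ n, T n = Sw (Ioc (x n) (x n + y n)) (PN Y) α := ⟨_, fun _ => rfl⟩
      have hTI : ∀ n, T n ⊆ Ioc (x n) (x n + y n) := fun n => by
        rw [hT]
        exact filter_subset _ _
      have hTc : ∀ n, T n = Sw (Ioc (x n) (x n + y n)) (PN Y) α ∧ (T n).card = MS.sv Y (x n) (y n) α := fun n => by
        refine ⟨hT n, ?_⟩
        rw [hT]
        rfl
      obtain ⟨F, hF⟩ : ∃ F : ℕ → (ℕ → ℕ) → ℝ, ∀ n b, F n b = ind (Q n (Sw (T n) (PI Y (z0 (x n))) b).card) :=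
        ⟨_, fun _ _ => rfl⟩
      have hLpr : ∀ p ∈ PI Y Z, p.Prime := fun p hp => PI_prime hp
      have hdep1 : ∀ n, Dep (PI Y (z0 (x n))) (F n) := by
        intro n b b' hb
        rw [hF, hF, Sw_congr (T n) _ b b' hb]
      have hsub : ∀ n ∈ I, PI Y (z0 (x n)) ⊆ PI Y Z := fun n hn => PI_mono (hzZ n hn)
      have hdep : ∀ n ∈ I, Dep (PI Y Z) (F n) := fun n hn b b' hb => hdep1 n b b' fun p hp => hb p (hsub n hn hp)
      have hEv : ∀ n ∈ I, Ev (PI Y Z) (F n) = Ev (PI Y (z0 (x n))) (F n) := fun n hn =>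
        Ev_super _ _ (hsub n hn) (fun p hp => (hLpr p hp).pos) _ (hdep1 n)
      have hcard : (I.card : ℝ) = N := by
        rw [hI, Nat.card_Ico, show 2 * N - N = N by omega]
      have hq : ∀ n ∈ I, (2 * (N : ℝ)) ^ (-1 + θ) ≤ Ev (PI Y Z) (F n) := by
        intro n hn
        rw [hEv n hn]
        have h1 := hN₂ n (g2.trans (hIn n hn).1) Y (hYlo n hn) (hYup n hn) (T n) (hTI n) (by
          rw [(hTc n).2]
          exact (hgood n α).1 (hα n hn))
        have e : F n = fun b => ind (Q n (Sw (T n) (PI Y (z0 (x n))) b).card) := funext fun b => hF n b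
        rw [e]
        refine le_trans ?_ h1
        have hn0 : (0 : ℝ) < n := by
          have : (N : ℝ) ≤ n := by exact_mod_cast (hIn n hn).1
          linarith
        have hn2 : (n : ℝ) ≤ 2 * N := by exact_mod_cast (hIn n hn).2.le
        exact Real.rpow_le_rpow_of_nonpos hn0 hn2 (by linarith)
      have hδ : ∀ n ∈ I, ∀ k ∈ I, n ≠ k →
          |Ev (PI Y Z) (fun b => F n b * F k b) - Ev (PI Y Z) (F n) * Ev (PI Y Z) (F k)| ≤ (N : ℝ) ^ (-10 : ℝ) := by
        intro n hn k hk hnk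
        obtain ⟨f, hf⟩ : ∃ f : ℕ → Finset ℕ → ℝ, ∀ n U, f n U = ind (Q n U.card) := ⟨_, fun _ _ => rfl⟩
        have hfb : ∀ n, ∀ U, 0 ≤ f n U ∧ f n U ≤ 1 := fun n U => by
          rw [hf]
          exact ind_bounds _
        have e1 : ∀ n, F n = fun b => f n (Sw (T n) (PI Y (z0 (x n))) b) := fun n => by
          funext b
          rw [hF, hf]
        have h1 := pair_cov (PI Y Z) (fun p hp => (hLpr p hp).pos) (T n) (T k) _ _ (hsub n hn) (hsub k hk)
          (f n) (f k) (hfb n) (hfb k)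
        have e2 : (fun b => F n b * F k b) =
            fun b => f n (Sw (T n) (PI Y (z0 (x n))) b) * f k (Sw (T k) (PI Y (z0 (x k))) b) := by
          funext b
          rw [e1 n, e1 k]
        rw [e2, e1 n, e1 k]
        refine h1.trans ?_
        have h2 := coin_sum (PI Y Z) hLpr (T n) (T k) (x (2 * N)) Y (by
          rw [hY]
          exact Nat.one_le_pow _ _ (by omega)) (fun p hp => (MS.mem_PI.1 hp).1.1) (by
          intro t ht t' ht'
          have k1 := mem_Ioc.1 (hTI n ht)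
          have k2 := mem_Ioc.1 (hTI k ht')
          have k3 := hN₁ n (2 * N) (g1.trans (hIn n hn).1) (hIn n hn).2
          have k4 := hN₁ k (2 * N) (g1.trans (hIn k hk).1) (hIn k hk).2
          refine ⟨?_, by omega, by omega⟩
          rintro rfl
          rcases lt_or_gt_of_ne hnk with hlt | hlt
          · have := hN₁ n k (g1.trans (hIn n hn).1) hlt
            omega
          · have := hN₁ k n (g1.trans (hIn k hk).1) hlt
            omega)
        refine h2.trans ?_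
        have h3 : ∀ n ∈ I, ((T n).card : ℝ) ≤ (2 * (N : ℝ)) ^ 2 := fun n hn => by
          have k1 : (T n).card ≤ y n := by
            rw [(hTc n).2]
            exact sv_le _ _ _ _
          have k2 := hyn2 n hn
          have k3 : (n : ℝ) ≤ 2 * N := by exact_mod_cast (hIn n hn).2.le
          calc ((T n).card : ℝ) ≤ (n : ℝ) ^ 2 := by exact_mod_cast k1.trans k2
            _ ≤ (2 * (N : ℝ)) ^ 2 := by gcongr
        have h4 : ((Nat.log 2 (x (2 * N)) : ℕ) : ℝ) + 1 ≤ (N : ℝ) ^ 2 := by exact_mod_cast g6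
        have h5 : (Y : ℝ) = (N : ℝ) ^ 20 := by
          rw [hY]
          push_cast
          rfl
        have h6 := h3 n hn
        have h7 := h3 k hk
        have hY0 : (0 : ℝ) < Y := by
          rw [h5]
          positivity
        calc ((T n).card : ℝ) * (T k).card * ((Nat.log 2 (x (2 * N)) : ℕ) + 1) / Y ≤
            (2 * (N : ℝ)) ^ 2 * (2 * (N : ℝ)) ^ 2 * (N : ℝ) ^ 2 / (N : ℝ) ^ 20 := by
              rw [h5]
              gcongr
          _ = 16 / (N : ℝ) ^ 14 := by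
            field_simp
            ring
          _ ≤ 1 / (N : ℝ) ^ 10 := by
            rw [div_le_div_iff₀ (by positivity) (by positivity)]
            have : (16 : ℝ) ≤ (N : ℝ) ^ 4 := by
              calc (16 : ℝ) ≤ (2 ^ 19 : ℝ) ^ 4 := by norm_num
                _ ≤ (N : ℝ) ^ 4 := by gcongr
            calc (16 : ℝ) * (N : ℝ) ^ 10 ≤ (N : ℝ) ^ 4 * (N : ℝ) ^ 10 := by gcongr
              _ = 1 * (N : ℝ) ^ 14 := by ring
          _ = (N : ℝ) ^ (-10 : ℝ) := by
            rw [Real.rpow_neg hN0.le, one_div]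
            congr 1
            exact_mod_cast (Real.rpow_natCast (N : ℝ) 10).symm
      have h1 := block h I (PI Y Z) hLpr F (fun n _ b => by
        rw [hF]
        exact ind_bounds _) hdep ((2 * (N : ℝ)) ^ (-1 + θ)) ((N : ℝ) ^ (-10 : ℝ)) (by positivity) (by positivity)
        hq hδ (by
          rw [card_pos]
          exact ⟨N, hNI⟩)
      rw [hcard] at h1
      have hset : {ω | (∀ n ∈ I, good n fun i => if i ∈ PN Y then α i else a i ω) ∧
            ∀ n ∈ I, ¬ Q n (MS.sv (z0 (x n)) (x n) (y n) fun i => if i ∈ PN Y then α i else a i ω)} ⊆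
          {ω | ∀ n ∈ I, F n (fun q => a q ω) = 0} := by
        rintro ω ⟨-, h2⟩ n hn
        rw [hF, ind_eq_zero]
        have h3 := h2 n hn
        have h4 : MS.sv (z0 (x n)) (x n) (y n) (fun i => if i ∈ PN Y then α i else a i ω) =
            (Sw (T n) (PI Y (z0 (x n))) fun q => a q ω).card := by
          have hd' : ∀ p ∈ PI Y (z0 (x n)), p ∉ PN Y := fun p hp h5 => by
            rw [mem_PN] at h5
            rw [MS.mem_PI] at hp
            omega
          unfold MS.sv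
          rw [PN_union Y (z0 (x n)) (hYz n hn), Sw_union,
            Sw_congr (Ioc (x n) (x n + y n)) (PN Y) (fun i => if i ∈ PN Y then α i else a i ω) α
            (fun p hp => if_pos hp), ← hT, Sw_congr (T n) (PI Y (z0 (x n))) (fun i => if i ∈ PN Y then α i else a i ω)
            (fun q => a q ω) (fun p hp => if_neg (hd' p hp))]
        rwa [h4] at h3
      refine (measureReal_mono hset (measure_ne_top _ _)).trans (h1.trans ?_)
      have h2N : (0 : ℝ) < 2 * N := by linarith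
      apply add_le_add
      · have e1 : 1 / ((N : ℝ) * (2 * (N : ℝ)) ^ (-1 + θ)) = 2 * (2 * (N : ℝ)) ^ (-θ) := by
          have e2 : (2 * (N : ℝ)) ^ (-1 + θ) = (2 * (N : ℝ))⁻¹ * ((2 * (N : ℝ)) ^ (-θ))⁻¹ := by
            rw [Real.rpow_add h2N, Real.rpow_neg_one, Real.rpow_neg h2N.le, inv_inv]
          rw [e2]
          field_simp
        rw [e1]
        have : (2 * (N : ℝ)) ^ (-θ) ≤ (N : ℝ) ^ (-θ) :=
          Real.rpow_le_rpow_of_nonpos hN0 (by linarith) (by linarith)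
        linarith
      · have e1 : (N : ℝ) ^ (-10 : ℝ) / ((2 * (N : ℝ)) ^ (-1 + θ)) ^ 2 ≤ (N : ℝ) ^ (-10 : ℝ) * (2 * (N : ℝ)) ^ 2 := by
          rw [div_eq_mul_inv]
          apply mul_le_mul_of_nonneg_left _ (by positivity)
          rw [← inv_pow]
          apply pow_le_pow_left₀ (by positivity)
          rw [← Real.rpow_neg h2N.le]
          calc (2 * (N : ℝ)) ^ (-(-1 + θ)) ≤ (2 * (N : ℝ)) ^ (1 : ℝ) := by
                apply Real.rpow_le_rpow_of_exponent_le (by linarith)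
                linarith
            _ = 2 * N := Real.rpow_one _
        refine e1.trans_eq ?_
        have e2 : (N : ℝ) ^ (-8 : ℝ) = (N : ℝ) ^ (-10 : ℝ) * (N : ℝ) ^ 2 := by
          rw [← Real.rpow_natCast (N : ℝ) 2, ← Real.rpow_add hN0]
          norm_num
        rw [e2]
        ring
  -- together
  have hsub : {ω | ∀ n ∈ Ico N (2 * N), ¬ Q n (MS.sv (z0 (x n)) (x n) (y n) fun q => a q ω)} ⊆
      {ω | ∃ n ∈ I, ¬ good n fun q => a q ω} ∪ {ω | (∀ n ∈ I, good n fun q => a q ω) ∧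
        ∀ n ∈ I, ¬ Q n (MS.sv (z0 (x n)) (x n) (y n) fun q => a q ω)} := by
    intro ω hω
    rw [← hI] at hω
    by_cases h1 : ∀ n ∈ I, good n fun q => a q ω
    · right
      exact ⟨h1, hω⟩
    · left
      push Not at h1
      exact h1
  exact (measureReal_mono hsub (measure_ne_top _ _)).trans ((measureReal_union_le _ _).trans (add_le_add hbad hmain))

end seq

end Pool.Agent.H531.PW
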