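import Pool.Agent.H531.PW.Small

set_option autoImplicit false

/-!
# The expected number of survivors
-/

open Finset MeasureTheory ProbabilityTheory Filter Topology

namespace Pool.Agent.H531.PW

open Pool.Agent.T2H31.HV Pool.Agent.H531.SI Pool.Agent.H531.MS
open Pool.Agent.T2H32.BF (V V_pos V_anti V_ratio V_step z0 z0_mono z0_lim z0_top z0_mem z0_lt R Model prob ae_lt)

section seq

variable {x y : ℕ → ℕ} {ℓ c : ℝ} (hℓ : 0 < ℓ) (hc : 0 < c)
  (H1 : Tendsto (fun n : ℕ => Real.log (x n) / n) atTop (𝓝 ℓ))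
  (H2 : Tendsto (fun n : ℕ => (y n : ℝ) / (n * Real.log n)) atTop (𝓝 c))

include hℓ H1 in
theorem x_facts : ∀ᶠ n : ℕ in atTop, ℓ / 2 * n ≤ Real.log (x n) ∧ Real.log (x n) ≤ 2 * ℓ * n := by
  filter_upwards [H1.eventually_const_le (show ℓ / 2 < ℓ by linarith),
    H1.eventually_le_const (show ℓ < 2 * ℓ by linarith), eventually_ge_atTop 1] with n h1 h2 h3
  have hn : (0 : ℝ) < n := by exact_mod_cast h3
  rw [le_div_iff₀ hn] at h1
  rw [div_le_iff₀ hn] at h2
  exact ⟨h1, h2⟩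

include hℓ H1 in
theorem x_top : Tendsto x atTop atTop := by
  rw [← tendsto_natCast_atTop_iff (R := ℝ)]
  have h1 : Tendsto (fun n : ℕ => ℓ / 2 * (n : ℝ)) atTop atTop :=
    tendsto_natCast_atTop_atTop.const_mul_atTop (by positivity)
  refine tendsto_atTop_mono' _ ?_ h1
  filter_upwards [x_facts hℓ H1] with n h2
  have h3 : Real.log (x n) ≤ x n := by
    rcases Nat.eq_zero_or_pos (x n) with h | h
    · rw [h]
      simp
    · have := Real.log_le_sub_one_of_pos (show (0 : ℝ) < x n by exact_mod_cast h)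
      linarith
  linarith

include hℓ H1 in
/-- `x n` is larger than any power of `n` -/
theorem x_pow (A : ℕ) : ∀ᶠ n : ℕ in atTop, (n : ℝ) ^ A ≤ x n := by
  have h1 : ∀ᶠ n : ℕ in atTop, A * Real.log (n : ℝ) ≤ ℓ / 2 * n := by
    have h5 := (Real.isLittleO_log_id_atTop.comp_tendsto (tendsto_natCast_atTop_atTop (R := ℝ))).bound
      (show (0 : ℝ) < ℓ / (2 * (A + 1)) by positivity)
    filter_upwards [h5, eventually_ge_atTop 1] with n h6 h7
    have h8 : (1 : ℝ) ≤ n := by exact_mod_cast h7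
    simp only [Function.comp, id, Real.norm_eq_abs] at h6
    rw [abs_of_nonneg (Real.log_nonneg h8), abs_of_nonneg (by linarith)] at h6
    have h9 : 0 ≤ Real.log (n : ℝ) := Real.log_nonneg h8
    calc A * Real.log (n : ℝ) ≤ (A + 1) * Real.log n := by nlinarith
      _ ≤ (A + 1) * (ℓ / (2 * (A + 1)) * n) := by gcongr
      _ = ℓ / 2 * n := by field_simp
  filter_upwards [h1, x_facts hℓ H1, (x_top hℓ H1).eventually_ge_atTop 1, eventually_ge_atTop 1] with n g1 g2 g3 g4
  have hn : (0 : ℝ) < n := by exact_mod_cast g4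
  have hx : (0 : ℝ) < x n := by exact_mod_cast g3
  have h2 : Real.log ((n : ℝ) ^ A) ≤ Real.log (x n) := by
    rw [Real.log_pow]
    linarith [g2.1]
  exact (Real.log_le_log_iff (by positivity) hx).1 h2

include hℓ H1 in
theorem z_large (A : ℕ) : ∀ᶠ n : ℕ in atTop, n ^ A ≤ z0 (x n) := by
  filter_upwards [x_pow hℓ H1 (2 * A), (x_top hℓ H1).eventually z0_large,
    (x_top hℓ H1).eventually_ge_atTop 1] with n h1 h2 h3
  refine le_trans ?_ h2
  apply Nat.le_floor
  have hx : (1 : ℝ) ≤ x n := by exact_mod_cast h3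
  have h4 : ((n : ℝ) ^ A) ^ 2 ≤ x n := by
    rw [← pow_mul, mul_comm A 2]
    exact h1
  have h5 : (n : ℝ) ^ A ≤ (x n : ℝ) ^ (1 / 2 : ℝ) := by
    rw [← Real.sqrt_eq_rpow]
    exact Real.le_sqrt_of_sq_le h4
  push_cast
  exact h5.trans (Real.rpow_le_rpow_of_exponent_le hx (by norm_num))

include hℓ hc H1 H2 in
/-- the expected number -/
theorem lam_lim : Tendsto (fun n : ℕ => (y n : ℝ) * V (z0 (x n)) / Real.log n) atTop (𝓝 (c / ℓ)) := by
  have h1 := z0_lim.comp (x_top hℓ H1)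
  have h2 := (H2.mul h1).div H1 hℓ.ne'
  rw [mul_one] at h2
  refine h2.congr' ?_
  filter_upwards [x_facts hℓ H1, eventually_ge_atTop 3] with n g1 g2
  have hn : (3 : ℝ) ≤ n := by exact_mod_cast g2
  have hl : 0 < Real.log (n : ℝ) := Real.log_pos (by linarith)
  have hlx : 0 < Real.log (x n : ℝ) := by
    refine lt_of_lt_of_le ?_ g1.1
    positivity
  simp only [Function.comp, Pi.div_apply, Pi.mul_apply]
  field_simp

include hℓ hc H1 H2 in
theorem lam_near (η : ℝ) (hη : 0 < η) : ∃ ε : ℝ, 0 < ε ∧ ε ≤ 1 ∧ ∀ᶠ n : ℕ in atTop, ∀ (Y : ℕ) (m : ℝ),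
    |m - y n * V Y| ≤ ε * (y n * V Y) → |m * (V (z0 (x n)) / V Y) - c / ℓ * Real.log n| ≤ η * Real.log n := by
  have hcl : 0 < c / ℓ := by positivity
  refine ⟨min 1 (η / (4 * (c / ℓ))), by positivity, min_le_left _ _, ?_⟩
  have hlim := lam_lim hℓ hc H1 H2
  have h1 := hlim.eventually_const_le (show c / ℓ - min (η / 2) (c / ℓ) < c / ℓ by
    have : 0 < min (η / 2) (c / ℓ) := by positivity
    linarith)
  have h2 := hlim.eventually_le_const (show c / ℓ < c / ℓ + min (η / 2) (c / ℓ) by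
    have : 0 < min (η / 2) (c / ℓ) := by positivity
    linarith)
  filter_upwards [h1, h2, eventually_ge_atTop 3] with n g1 g2 g3 Y m hm
  have hn : (3 : ℝ) ≤ n := by exact_mod_cast g3
  have hl : 0 < Real.log (n : ℝ) := Real.log_pos (by linarith)
  rw [le_div_iff₀ hl] at g1
  rw [div_le_iff₀ hl] at g2
  have hVY := V_pos Y
  have hVz := V_pos (z0 (x n))
  obtain ⟨G, hG⟩ : ∃ G : ℝ, G = y n * V (z0 (x n)) := ⟨_, rfl⟩
  rw [← hG] at g1 g2
  obtain ⟨lam, hlam⟩ : ∃ lam : ℝ, lam = c / ℓ := ⟨_, rfl⟩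
  rw [← hlam] at g1 g2 hcl hm ⊢
  have e1 : min (η / 2) lam ≤ η / 2 := min_le_left _ _
  have e2 : min (η / 2) lam ≤ lam := min_le_right _ _
  have e3 : min 1 (η / (4 * lam)) ≤ η / (4 * lam) := min_le_right _ _
  have hG1 : |G - lam * Real.log n| ≤ η / 2 * Real.log n := by
    rw [abs_le]
    constructor
    · nlinarith
    · nlinarith
  have hG2 : G ≤ 2 * lam * Real.log n := by nlinarith
  have h4 : m * (V (z0 (x n)) / V Y) - G = (m - y n * V Y) * (V (z0 (x n)) / V Y) := by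
    rw [hG]
    field_simp
  have h5 : |m * (V (z0 (x n)) / V Y) - G| ≤ η / 2 * Real.log n := by
    rw [h4, abs_mul, abs_of_pos (show 0 < V (z0 (x n)) / V Y by positivity)]
    calc |m - y n * V Y| * (V (z0 (x n)) / V Y) ≤
        (min 1 (η / (4 * lam)) * (y n * V Y)) * (V (z0 (x n)) / V Y) := by gcongr
      _ = min 1 (η / (4 * lam)) * G := by
        rw [hG]
        field_simp
      _ ≤ η / (4 * lam) * (2 * lam * Real.log n) := by
        have : 0 ≤ G := by
          rw [hG]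
          positivity
        gcongr
      _ = η / 2 * Real.log n := by
        field_simp
        try ring
  have e : m * (V (z0 (x n)) / V Y) - lam * Real.log n = (m * (V (z0 (x n)) / V Y) - G) + (G - lam * Real.log n) := by
    ring
  rw [e]
  refine (abs_add_le _ _).trans ?_
  linarith

include hℓ H1 in
/-- the density of the large primes is small -/
theorem rho_small (C : ℝ) (hC : 0 < C) : ∀ᶠ n : ℕ in atTop, ∀ Y : ℕ, n ≤ Y → Y ≤ n ^ 20 →
    C * Real.log (n : ℝ) * (V (z0 (x n)) / V Y) ≤ 1 := by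
  obtain ⟨u₀, c₀, hu₀, hc₀, hV⟩ := Vy_lower
  have h1 := (z0_lim.comp (x_top hℓ H1)).eventually_le_const (show (1 : ℝ) < 2 by norm_num)
  have h2 := logpow_small 3 1 one_pos
  have h3 := L_top.eventually_ge_atTop (C * 2 * 20 * 2 / (c₀ * ℓ))
  filter_upwards [h1, h2, h3, x_facts hℓ H1, eventually_ge_atTop (max 3 u₀)] with n g1 g2 g3 g4 g5 Y hY1 hY2
  have g5' : 3 ≤ n := (le_max_left _ _).trans g5
  have g5'' : u₀ ≤ n := (le_max_right _ _).trans g5
  have hn : (3 : ℝ) ≤ n := by exact_mod_cast g5'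
  have hn0 : (0 : ℝ) < n := by linarith
  obtain ⟨l, hl⟩ : ∃ l : ℝ, l = Real.log (n : ℝ) := ⟨_, rfl⟩
  have hl0 : 0 < l := by
    rw [hl]
    exact Real.log_pos (by linarith)
  rw [← hl] at g2 g3 ⊢
  rw [Real.rpow_one] at g2
  have hVY := V_pos Y
  have hYn : (n : ℝ) ≤ Y := by exact_mod_cast hY1
  have v1 : c₀ / (20 * l) ≤ V Y := by
    have h1 := hV Y (g5''.trans hY1)
    have h2 : Real.log Y ≤ 20 * l := by
      rw [hl]
      calc Real.log Y ≤ Real.log ((n : ℝ) ^ 20) := Real.log_le_log (by linarith) (by exact_mod_cast hY2)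
        _ = 20 * Real.log n := by rw [Real.log_pow]; norm_num
    rw [div_le_iff₀ (by positivity)]
    calc c₀ ≤ Real.log Y * V Y := h1
      _ ≤ 20 * l * V Y := by gcongr
      _ = _ := by ring
  have hlx : 0 < Real.log (x n : ℝ) := by
    refine lt_of_lt_of_le ?_ g4.1
    positivity
  simp only [Function.comp] at g1
  have v2 : V (z0 (x n)) ≤ 2 / (ℓ / 2 * n) := by
    rw [le_div_iff₀ (by positivity)]
    have hVz := V_pos (z0 (x n))
    calc V (z0 (x n)) * (ℓ / 2 * n) ≤ V (z0 (x n)) * Real.log (x n) := by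
          gcongr
          exact g4.1
      _ ≤ 2 := g1
  have v3 : V (z0 (x n)) / V Y ≤ (2 / (ℓ / 2 * n)) / (c₀ / (20 * l)) := by
    have hVz := V_pos (z0 (x n))
    gcongr
  have hCl : 0 ≤ C * l := by positivity
  refine (mul_le_mul_of_nonneg_left v3 hCl).trans ?_
  have e : C * l * (2 / (ℓ / 2 * n) / (c₀ / (20 * l))) = (C * 2 * 20 * 2 / (c₀ * ℓ)) * l ^ 2 / n := by
    field_simp
  rw [e, div_le_one hn0]
  calc (C * 2 * 20 * 2 / (c₀ * ℓ)) * l ^ 2 ≤ l * l ^ 2 := by gcongr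
    _ = l ^ 3 := by ring
    _ ≤ n := g2

end seq

end Pool.Agent.H531.PW
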