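import Pool.Agent.H531.PW.Io

set_option autoImplicit false

/-!
# Lower bounds for the tails
-/

open Finset MeasureTheory ProbabilityTheory Filter Topology

namespace Pool.Agent.H531.PW

open Pool.Agent.T2H31.HV Pool.Agent.H531.SI Pool.Agent.H531.MS
open Pool.Agent.T2H32.BF (V V_pos V_anti V_ratio V_step z0 z0_mono z0_lim z0_top z0_mem z0_lt R Model prob ae_lt)

theorem inv_sq_sum (L : Finset ℕ) (Y : ℕ) (hY : 1 ≤ Y) (hLY : ∀ p ∈ L, Y < p) :
    ∑ p ∈ L, 1 / (p : ℝ) ^ 2 ≤ 1 / (Y : ℝ) := by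
  rcases L.eq_empty_or_nonempty with h0 | h0
  · rw [h0, sum_empty]
    positivity
  · obtain ⟨M, hM⟩ : ∃ M : ℕ, M = L.max' h0 := ⟨_, rfl⟩
    have h3 : L ⊆ Ioc Y M := by
      intro p hp
      rw [mem_Ioc, hM]
      exact ⟨hLY p hp, L.le_max' p hp⟩
    have h4 : Y ≤ M := by
      obtain ⟨p, hp⟩ := h0
      have := mem_Ioc.1 (h3 hp)
      omega
    have h5 := sum_Ioc_inv_sq_le_sub (α := ℝ) (show Y ≠ 0 by omega) h4
    have h6 : ∑ p ∈ L, 1 / (p : ℝ) ^ 2 ≤ ∑ p ∈ Ioc Y M, ((p : ℝ) ^ 2)⁻¹ := by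
      simp only [one_div]
      exact sum_le_sum_of_subset_of_nonneg h3 fun p _ _ => by positivity
    have h7 : (0 : ℝ) ≤ (M : ℝ)⁻¹ := by positivity
    rw [one_div]
    linarith

section seq

variable {x y : ℕ → ℕ} {ℓ c : ℝ} (hℓ : 0 < ℓ) (hc : 0 < c)
  (H1 : Tendsto (fun n : ℕ => Real.log (x n) / n) atTop (𝓝 ℓ))
  (H2 : Tendsto (fun n : ℕ => (y n : ℝ) / (n * Real.log n)) atTop (𝓝 c))
  (H3 : ∀ᶠ n : ℕ in atTop, x n + y n ≤ x (n + 1))

include hℓ hc H1 H2 in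
/-- the numbers `Λ` and the generating function from below -/
theorem low_gen (C η : ℝ) (hC : 1 ≤ C) (hη : 0 < η) : ∃ ε : ℝ, 0 < ε ∧ ε ≤ 1 ∧ ∀ᶠ n : ℕ in atTop, ∀ Y : ℕ,
    n ^ 19 ≤ Y → Y ≤ n ^ 20 → ∀ T : Finset ℕ, T ⊆ Ioc (x n) (x n + y n) →
      |(T.card : ℝ) - y n * V Y| ≤ ε * (y n * V Y) → ∃ Λ : ℝ,
        Λ = T.card * ∏ p ∈ MS.PI Y (z0 (x n)), (1 - 1 / (p : ℝ)) ∧ SI.Sep T (MS.PI Y (z0 (x n))) ∧
        |Λ - c / ℓ * Real.log n| ≤ η * Real.log n ∧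
        ∀ t : ℝ, 1 / (n : ℝ) ^ 2 ≤ t → t ≤ C →
          Real.exp ((t - 1) * Λ - 1) ≤ Ev (MS.PI Y (z0 (x n))) (fun b => t ^ (Sw T (MS.PI Y (z0 (x n))) b).card) := by
  obtain ⟨ε, hε, hε1, hn⟩ := lam_near hℓ hc H1 H2 η hη
  have hlam : 0 < c / ℓ := by positivity
  refine ⟨ε, hε, hε1, ?_⟩
  filter_upwards [hn, y_facts hc H2, z_large hℓ H1 20, rho_small hℓ H1 (2 * C ^ 2 * (c / ℓ + η + 1)) (by positivity),
    eventually_ge_atTop 3, (tendsto_natCast_atTop_atTop (R := ℝ)).eventually_ge_atTop C] with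
    n g1 g2 g3 g4 g5 g6 Y hY1 hY2 T hT hTY
  have hnR : (3 : ℝ) ≤ n := by exact_mod_cast g5
  have hn0 : (0 : ℝ) < n := by linarith
  have hl1 : 1 ≤ Real.log (n : ℝ) := by
    rw [Real.le_log_iff_exp_le hn0]
    have := Real.exp_one_lt_d9
    linarith
  obtain ⟨l, hl⟩ : ∃ l : ℝ, l = Real.log (n : ℝ) := ⟨_, rfl⟩
  obtain ⟨lam, hlamd⟩ : ∃ lam : ℝ, lam = c / ℓ := ⟨_, rfl⟩
  obtain ⟨ρ, hρ⟩ : ∃ ρ : ℝ, ρ = ∏ p ∈ MS.PI Y (z0 (x n)), (1 - 1 / (p : ℝ)) := ⟨_, rfl⟩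
  obtain ⟨L, hL⟩ : ∃ L : Finset ℕ, L = MS.PI Y (z0 (x n)) := ⟨_, rfl⟩
  have hρV : ρ = V (z0 (x n)) / V Y := by
    rw [hρ]
    exact (V_ratio Y (z0 (x n)) (hY2.trans g3)).symm
  have hnear := g1 Y T.card hTY
  have hnY : n ≤ Y := (Nat.le_self_pow (by norm_num) n).trans hY1
  have hrs := g4 Y hnY hY2
  rw [← hρV] at hnear hrs
  rw [← hρ, ← hlamd, ← hL]
  rw [← hlamd] at hnear hrs hlam
  rw [← hl] at hnear hrs hl1 ⊢
  have hyn : (y n : ℝ) ≤ (n : ℝ) ^ 2 := g2.2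
  have hyY : y n ≤ Y := by
    have h1 : y n ≤ n ^ 2 := by exact_mod_cast hyn
    have h2 : n ^ 2 ≤ n ^ 19 := Nat.pow_le_pow_right (by omega) (by norm_num)
    omega
  have hsep := window_sep (x n) (y n) Y (z0 (x n)) T hT hyY
  rw [← hL] at hsep
  refine ⟨T.card * ρ, rfl, hsep, hnear, fun t ht htC => ?_⟩
  have hLp : ∀ p ∈ L, p.Prime := fun p hp => by
    rw [hL] at hp
    exact PI_prime hp
  have hρm := rho_mem L hLp
  rw [hL, ← hρ] at hρm
  have hTc : (T.card : ℝ) ≤ (n : ℝ) ^ 2 := by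
    have h1 := card_le_card hT
    rw [Nat.card_Ioc, Nat.add_sub_cancel_left] at h1
    exact le_trans (by exact_mod_cast h1) hyn
  have hYR : (n : ℝ) ^ 19 ≤ Y := by exact_mod_cast hY1
  have hY0 : (0 : ℝ) < Y := lt_of_lt_of_le (by positivity) hYR
  have hn11 : (2 : ℝ) ≤ (n : ℝ) ^ 11 := by
    calc (2 : ℝ) ≤ 3 := by norm_num
      _ ≤ n := hnR
      _ ≤ (n : ℝ) ^ 11 := le_self_pow₀ (by linarith) (by norm_num)
  have hLY : ∀ p ∈ L, Y < p := fun p hp => by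
    rw [hL] at hp
    exact (MS.mem_PI.1 hp).1.1
  have hn2 : (1 : ℝ) ≤ (n : ℝ) ^ 2 := one_le_pow₀ (by linarith)
  have htpos : 0 < t := lt_of_lt_of_le (by positivity) ht
  have htabs : |t - 1| ≤ C := by
    rw [abs_le]
    constructor <;> linarith
  -- `C ^ 2 (lam + η + 1) l ρ * 2 ≤ 1`
  have hCρ : C ^ 2 * (lam + η + 1) * l * ρ ≤ 1 / 2 := by nlinarith
  have hbase : 0 ≤ C ^ 2 * l * ρ := by
    have := hρm.1
    positivity
  refine gen_lower T L hLp hsep (T.card * ρ) ρ (by rw [hρ, hL]) rfl ((n : ℝ) ^ 2) hn2 ?_ t ht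
    (htC.trans (g6.trans (le_self_pow₀ (by linarith) (by norm_num)))) 1 ?_ ?_
  · intro p hp
    have h1 : (Y : ℝ) ≤ p := by exact_mod_cast (hLY p hp).le
    calc 2 * ((T.card : ℝ) * (n : ℝ) ^ 2) ≤ n * ((n : ℝ) ^ 2 * (n : ℝ) ^ 2) := by
          gcongr
          linarith
      _ = (n : ℝ) ^ 5 := by ring
      _ ≤ (n : ℝ) ^ 19 := pow_le_pow_right₀ (by linarith) (by norm_num)
      _ ≤ Y := hYR
      _ ≤ p := h1
  · have h1 : ((T.card : ℝ) * (n : ℝ) ^ 2) ^ 2 * ∑ p ∈ L, 1 / (p : ℝ) ^ 2 ≤ 1 / 2 := by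
      have h2 := inv_sq_sum L Y (by
        have : 0 < Y := by exact_mod_cast hY0
        omega) hLY
      calc ((T.card : ℝ) * (n : ℝ) ^ 2) ^ 2 * ∑ p ∈ L, 1 / (p : ℝ) ^ 2 ≤
          ((n : ℝ) ^ 2 * (n : ℝ) ^ 2) ^ 2 * (1 / (n : ℝ) ^ 19) := by
            refine mul_le_mul ?_ (h2.trans ?_) (sum_nonneg fun p _ => by positivity) (by positivity)
            · gcongr
            · gcongr
        _ = 1 / (n : ℝ) ^ 11 := by
          field_simp
        _ ≤ 1 / 2 := by gcongr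
    have h2 : (T.card : ℝ) * ((t - 1) * ρ) ^ 2 ≤ 1 / 2 := by
      have h3 : (t - 1) ^ 2 ≤ C ^ 2 := by
        rw [← sq_abs]
        gcongr
      have h4 : (T.card : ℝ) * ρ ≤ (lam + η + 1) * l := by
        have := (abs_le.1 hnear).2
        nlinarith
      have hT0 : 0 ≤ (T.card : ℝ) * ρ := mul_nonneg (Nat.cast_nonneg _) hρm.1
      calc (T.card : ℝ) * ((t - 1) * ρ) ^ 2 = (t - 1) ^ 2 * (T.card * ρ) * ρ := by ring
        _ ≤ C ^ 2 * ((lam + η + 1) * l) * ρ := by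
          apply mul_le_mul_of_nonneg_right _ hρm.1
          exact mul_le_mul h3 h4 hT0 (by positivity)
        _ = C ^ 2 * (lam + η + 1) * l * ρ := by ring
        _ ≤ 1 / 2 := hCρ
    linarith
  · rw [abs_mul, abs_of_nonneg hρm.1]
    have h3 : C * ρ ≤ C ^ 2 * (lam + η + 1) * l * ρ := by
      apply mul_le_mul_of_nonneg_right _ hρm.1
      have h4 : C ≤ C ^ 2 := le_self_pow₀ hC (by norm_num)
      have h5 : 1 ≤ (lam + η + 1) * l := by nlinarith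
      calc C = C * 1 := by ring
        _ ≤ C ^ 2 * ((lam + η + 1) * l) := by
          apply mul_le_mul h4 h5 (by norm_num) (by positivity)
        _ = _ := by ring
    calc |t - 1| * ρ ≤ C * ρ := mul_le_mul_of_nonneg_right htabs hρm.1
      _ ≤ 1 / 2 := h3.trans hCρ

/-- the rate function -/
noncomputable def J (lam κ : ℝ) : ℝ := κ * Real.log (κ / lam) - κ + lam

theorem J_nonneg {lam κ : ℝ} (hl : 0 < lam) (hκ : 0 ≤ κ) : 0 ≤ J lam κ := by
  unfold J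
  rcases hκ.eq_or_lt with h | h
  · rw [← h]
    simp
    exact hl.le
  · have h1 := Real.one_sub_inv_le_log_of_pos (show 0 < κ / lam by positivity)
    have h2 : κ * (1 - (κ / lam)⁻¹) ≤ κ * Real.log (κ / lam) := mul_le_mul_of_nonneg_left h1 hκ
    have h3 : κ * (1 - (κ / lam)⁻¹) = κ - lam := by
      field_simp
    linarith

include hℓ hc H1 H2 in
theorem hyp_tilt (κ η : ℝ) (hκ : 0 < κ) (hη : 0 < η) (hJ : J (c / ℓ) κ < 1) : ∃ θ ε : ℝ, 0 < θ ∧ θ ≤ 1 / 2 ∧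
    0 < ε ∧ ε ≤ 1 ∧ ∀ᶠ n : ℕ in atTop, ∀ Y : ℕ, n ^ 19 ≤ Y → Y ≤ n ^ 20 → ∀ T : Finset ℕ,
      T ⊆ Ioc (x n) (x n + y n) → |(T.card : ℝ) - y n * V Y| ≤ ε * (y n * V Y) →
        (n : ℝ) ^ (-1 + θ) ≤ Ev (MS.PI Y (z0 (x n)))
          (fun b => ind (|((Sw T (MS.PI Y (z0 (x n))) b).card : ℝ) - κ * Real.log n| ≤ η * Real.log n)) := by
  obtain ⟨lam, hlamd⟩ : ∃ lam : ℝ, lam = c / ℓ := ⟨_, rfl⟩
  have hlam : 0 < lam := by
    rw [hlamd]
    positivity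
  rw [← hlamd] at hJ
  have hJ0 := J_nonneg hlam hκ.le
  obtain ⟨s, hs⟩ : ∃ s : ℝ, s = κ / lam := ⟨_, rfl⟩
  have hs0 : 0 < s := by
    rw [hs]
    positivity
  have hκs : κ = s * lam := by
    rw [hs]
    field_simp
  obtain ⟨I, hI⟩ : ∃ I : ℝ, I = s * Real.log s - s + 1 := ⟨_, rfl⟩
  have hJI : J lam κ = lam * I := by
    unfold J
    rw [← hs, hI, hκs]
    ring
  obtain ⟨θ, hθ⟩ : ∃ θ : ℝ, θ = (1 - J lam κ) / 4 := ⟨_, rfl⟩
  have hθ0 : 0 < θ := by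
    rw [hθ]
    linarith
  have hθ1 : θ ≤ 1 / 4 := by
    rw [hθ]
    linarith
  have hI0 : 0 ≤ I := by
    by_contra hcon
    push Not at hcon
    have : lam * I < 0 := mul_neg_of_pos_of_neg hlam hcon
    linarith
  -- the parameters
  obtain ⟨e, he⟩ : ∃ e : ℝ, e = min (min (2 * s) (θ / (2 * lam * (|Real.log s| + 1)))) (η / (4 * lam)) := ⟨_, rfl⟩
  have he0 : 0 < e := by
    rw [he]
    positivity
  have he1 : e ≤ 2 * s := by
    rw [he]
    exact (min_le_left _ _).trans (min_le_left _ _)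
  have he2 : e * (2 * lam * (|Real.log s| + 1)) ≤ θ := by
    have : e ≤ θ / (2 * lam * (|Real.log s| + 1)) := by
      rw [he]
      exact (min_le_left _ _).trans (min_le_right _ _)
    rwa [le_div_iff₀ (by positivity)] at this
  have he3 : e * (4 * lam) ≤ η := by
    have : e ≤ η / (4 * lam) := by
      rw [he]
      exact min_le_right _ _
    rwa [le_div_iff₀ (by positivity)] at this
  obtain ⟨d, hd⟩ : ∃ d : ℝ, d = min (min (lam / 2) (θ / (I + 1))) (η / (2 * s)) := ⟨_, rfl⟩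
  have hd0 : 0 < d := by
    rw [hd]
    positivity
  have hd1 : d ≤ lam / 2 := by
    rw [hd]
    exact (min_le_left _ _).trans (min_le_left _ _)
  have hd2 : d * (I + 1) ≤ θ := by
    have : d ≤ θ / (I + 1) := by
      rw [hd]
      exact (min_le_left _ _).trans (min_le_right _ _)
    rwa [le_div_iff₀ (by positivity)] at this
  have hd3 : d * (2 * s) ≤ η := by
    have : d ≤ η / (2 * s) := by
      rw [hd]
      exact min_le_right _ _
    rwa [le_div_iff₀ (by positivity)] at this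
  obtain ⟨ε, hε, hε1, hg⟩ := low_gen hℓ hc H1 H2 (max 1 s) d (le_max_left _ _) hd0
  refine ⟨θ, ε, hθ0, by linarith, hε, hε1, ?_⟩
  have hsq : ∀ᶠ n : ℕ in atTop, 1 / s ≤ (n : ℝ) := (tendsto_natCast_atTop_atTop (R := ℝ)).eventually_ge_atTop _
  filter_upwards [hg, hsq, L_top.eventually_ge_atTop (24 * s / (e ^ 2 * lam)), L_top.eventually_ge_atTop (2 / θ),
    eventually_ge_atTop 3] with n g1 g2 g3 g4 g5 Y hY1 hY2 T hT hTY
  obtain ⟨Λ, hΛ, hsep, hnear, hgen⟩ := g1 Y hY1 hY2 T hT hTY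
  have hnR : (3 : ℝ) ≤ n := by exact_mod_cast g5
  have hn0 : (0 : ℝ) < n := by linarith
  obtain ⟨l, hl⟩ : ∃ l : ℝ, l = Real.log (n : ℝ) := ⟨_, rfl⟩
  rw [← hlamd] at hnear
  rw [← hl] at hnear g3 g4
  have hl0 : 0 < l := by
    rw [hl]
    exact Real.log_pos (by linarith)
  rw [abs_le] at hnear
  have hΛ1 : lam / 2 * l ≤ Λ := by nlinarith
  have hΛ2 : Λ ≤ (lam + d) * l := by nlinarith
  have hΛ3 : Λ ≤ 2 * lam * l := by nlinarith
  have hΛ0 : 0 < Λ := lt_of_lt_of_le (by positivity) hΛ1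
  have hLp : ∀ p ∈ MS.PI Y (z0 (x n)), p.Prime := fun p hp => PI_prime hp
  have hts : 1 / (n : ℝ) ^ 2 ≤ s := by
    have h1 : 1 / (n : ℝ) ≤ s := by
      rw [div_le_comm₀ hn0 hs0]
      exact g2
    refine le_trans ?_ h1
    apply one_div_le_one_div_of_le hn0
    exact le_self_pow₀ (by linarith) (by norm_num)
  have hlow := hgen s hts (le_max_right _ _)
  have hbig : 12 * s ≤ e ^ 2 * Λ := by
    rw [div_le_iff₀ (by positivity)] at g3
    have h1 : e ^ 2 * (lam / 2 * l) ≤ e ^ 2 * Λ := by gcongr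
    linarith
  have htilt := tilt T _ hLp hsep Λ hΛ0.le hΛ s e hs0 he0 he1 hlow hbig
  refine le_trans ?_ (htilt.trans ?_)
  · -- the size
    have h1 : (s - 1) * Λ - s * Λ * Real.log s - |Real.log s| * (e * Λ) = -(Λ * (I + |Real.log s| * e)) := by
      rw [hI]
      ring
    have h2 : Λ * (I + |Real.log s| * e) ≤ (1 - 2 * θ) * l := by
      have h3 : Λ * I ≤ (1 - 3 * θ) * l := by
        have h4 : Λ * I ≤ (lam + d) * l * I := by gcongr
        have h5 : lam * I = 1 - 4 * θ := by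
          rw [← hJI, hθ]
          ring
        have h6 : d * I ≤ θ := by nlinarith
        have h7 : (lam + d) * l * I = (lam * I + d * I) * l := by ring
        rw [h7] at h4
        refine h4.trans ?_
        apply mul_le_mul_of_nonneg_right _ hl0.le
        linarith
      have h4 : Λ * (|Real.log s| * e) ≤ θ * l := by
        have h5 : Λ * (|Real.log s| * e) ≤ 2 * lam * l * (|Real.log s| * e) := by gcongr
        have h6 : 0 ≤ e * (2 * lam) := by positivity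
        have h7 : 2 * lam * l * (|Real.log s| * e) = (e * (2 * lam) * |Real.log s|) * l := by ring
        rw [h7] at h5
        refine h5.trans ?_
        apply mul_le_mul_of_nonneg_right _ hl0.le
        nlinarith
      nlinarith
    rw [h1]
    have h6 : (6 : ℝ) ≤ Real.exp (θ * l) := by
      have h7 : 2 ≤ θ * l := by
        rw [div_le_iff₀ hθ0] at g4
        linarith
      have h8 : Real.exp 2 ≤ Real.exp (θ * l) := Real.exp_le_exp.2 h7
      have h9 : Real.exp 2 = Real.exp 1 * Real.exp 1 := by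
        rw [← Real.exp_add]
        norm_num
      have h10 := Real.exp_one_gt_d9
      nlinarith
    have h7 : (n : ℝ) ^ (-1 + θ) = Real.exp (-((1 - 2 * θ) * l)) * (Real.exp (θ * l))⁻¹ := by
      rw [Real.rpow_def_of_pos hn0, ← Real.exp_neg, ← Real.exp_add, ← hl]
      congr 1
      ring
    rw [h7, mul_comm (1 / 6 : ℝ)]
    apply mul_le_mul
    · apply Real.exp_le_exp.2
      linarith
    · rw [one_div]
      exact inv_anti₀ (by norm_num) h6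
    · positivity
    · positivity
  · -- the event
    refine Ev_mono _ _ _ fun b _ => ?_
    by_cases hev : |((Sw T (MS.PI Y (z0 (x n))) b).card : ℝ) - s * Λ| ≤ e * Λ
    · rw [ind_of hev, ind_of]
      have h1 : ((Sw T (MS.PI Y (z0 (x n))) b).card : ℝ) - κ * Real.log n =
          (((Sw T (MS.PI Y (z0 (x n))) b).card : ℝ) - s * Λ) + s * (Λ - lam * l) := by
        rw [hκs, hl]
        ring
      rw [h1]
      refine (abs_add_le _ _).trans ?_
      rw [abs_mul, abs_of_pos hs0]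
      have h2 : |Λ - lam * l| ≤ d * l := abs_le.2 hnear
      have h3 : s * |Λ - lam * l| ≤ s * (d * l) := by gcongr
      have h4 : e * Λ ≤ e * (2 * lam * l) := by gcongr
      rw [← hl]
      nlinarith
    · rw [ind_not hev]
      exact (ind_bounds _).1

include hℓ hc H1 H2 in
theorem hyp_zero (hlt : c / ℓ < 1) : ∃ θ ε : ℝ, 0 < θ ∧ θ ≤ 1 / 2 ∧
    0 < ε ∧ ε ≤ 1 ∧ ∀ᶠ n : ℕ in atTop, ∀ Y : ℕ, n ^ 19 ≤ Y → Y ≤ n ^ 20 → ∀ T : Finset ℕ,
      T ⊆ Ioc (x n) (x n + y n) → |(T.card : ℝ) - y n * V Y| ≤ ε * (y n * V Y) →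
        (n : ℝ) ^ (-1 + θ) ≤ Ev (MS.PI Y (z0 (x n)))
          (fun b => ind ((Sw T (MS.PI Y (z0 (x n))) b).card = 0)) := by
  obtain ⟨lam, hlamd⟩ : ∃ lam : ℝ, lam = c / ℓ := ⟨_, rfl⟩
  have hlam : 0 < lam := by
    rw [hlamd]
    positivity
  rw [← hlamd] at hlt
  obtain ⟨θ, hθ⟩ : ∃ θ : ℝ, θ = (1 - lam) / 4 := ⟨_, rfl⟩
  have hθ0 : 0 < θ := by
    rw [hθ]
    linarith
  have hθ1 : θ ≤ 1 / 4 := by
    rw [hθ]
    linarith
  obtain ⟨ε, hε, hε1, hg⟩ := low_gen hℓ hc H1 H2 1 θ le_rfl hθ0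
  refine ⟨θ, ε, hθ0, by linarith, hε, hε1, ?_⟩
  filter_upwards [hg, L_top.eventually_ge_atTop (2 / θ), eventually_ge_atTop 3] with n g1 g4 g5 Y hY1 hY2 T hT hTY
  obtain ⟨Λ, hΛ, hsep, hnear, hgen⟩ := g1 Y hY1 hY2 T hT hTY
  have hnR : (3 : ℝ) ≤ n := by exact_mod_cast g5
  have hn0 : (0 : ℝ) < n := by linarith
  obtain ⟨l, hl⟩ : ∃ l : ℝ, l = Real.log (n : ℝ) := ⟨_, rfl⟩
  rw [← hlamd, ← hl] at hnear
  rw [← hl] at g4
  have hl0 : 0 < l := by
    rw [hl]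
    exact Real.log_pos (by linarith)
  rw [abs_le] at hnear
  have hΛ2 : Λ ≤ (1 - 3 * θ) * l := by
    have h1 : lam = 1 - 4 * θ := by
      rw [hθ]
      ring
    have h2 := hnear.2
    rw [h1] at h2
    linarith
  have hLp : ∀ p ∈ MS.PI Y (z0 (x n)), p.Prime := fun p hp => PI_prime hp
  have hρm := rho_mem _ hLp
  have hΛ0 : 0 ≤ Λ := by
    rw [hΛ]
    exact mul_nonneg (Nat.cast_nonneg _) hρm.1
  have ht1 : 1 / (n : ℝ) ^ 2 ≤ 1 := by
    rw [div_le_one (by positivity)]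
    exact one_le_pow₀ (by linarith)
  have ht0 : 0 < 1 / (n : ℝ) ^ 2 := by positivity
  have hlow := hgen (1 / (n : ℝ) ^ 2) le_rfl ht1
  have hz := zero_lower T _ hLp (1 / (n : ℝ) ^ 2) ht0 ht1
  refine le_trans ?_ hz
  rw [le_sub_iff_add_le]
  refine le_trans ?_ hlow
  -- `n ^ (-1 + θ) + n ^ (-2) ≤ exp (-Λ - 1)`
  have h1 : Real.exp (-((1 - 3 * θ) * l) - 1) ≤ Real.exp ((1 / (n : ℝ) ^ 2 - 1) * Λ - 1) := by
    apply Real.exp_le_exp.2
    have : 0 ≤ 1 / (n : ℝ) ^ 2 * Λ := by positivity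
    linarith
  refine le_trans ?_ h1
  have h2 : 1 / (n : ℝ) ^ 2 ≤ (n : ℝ) ^ (-1 + θ) := by
    have e1 : 1 / (n : ℝ) ^ 2 = (n : ℝ) ^ (-2 : ℝ) := by
      rw [Real.rpow_neg hn0.le, one_div]
      congr 1
      exact_mod_cast (Real.rpow_natCast (n : ℝ) 2).symm
    rw [e1]
    exact Real.rpow_le_rpow_of_exponent_le (by linarith) (by linarith)
  have h3 : Real.exp (-((1 - 3 * θ) * l) - 1) = (n : ℝ) ^ (-1 + θ) * Real.exp (2 * θ * l - 1) := by
    rw [Real.rpow_def_of_pos hn0, ← Real.exp_add, ← hl]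
    congr 1
    ring
  rw [h3]
  have h4 : (2 : ℝ) ≤ Real.exp (2 * θ * l - 1) := by
    have h7 : 2 ≤ θ * l := by
      rw [div_le_iff₀ hθ0] at g4
      linarith
    have h8 := Real.add_one_le_exp (2 * θ * l - 1)
    linarith
  have h5 : 0 < (n : ℝ) ^ (-1 + θ) := by positivity
  nlinarith

end seq

end Pool.Agent.H531.PW
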