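import Pool.Agent.H531.MS.Core

set_option autoImplicit false

/-!
# Sieving by random classes: lower bounds, and two windows
-/

open Finset MeasureTheory ProbabilityTheory Filter Topology

namespace Pool.Agent.H531.PW

open Pool.Agent.T2H31.HV Pool.Agent.T2H32.BF Pool.Agent.H531.SI Pool.Agent.H531.MS

theorem exp_low (w : ℝ) (h : |w| ≤ 1 / 2) : Real.exp (w - w ^ 2) ≤ 1 + w := by
  rw [abs_le] at h
  rcases le_or_gt 0 w with h0 | h0
  · have h1 := Real.add_one_le_exp (-(w - w ^ 2))
    have h2 : 0 < Real.exp (w - w ^ 2) := Real.exp_pos _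
    have h3 : Real.exp (w - w ^ 2) * Real.exp (-(w - w ^ 2)) = 1 := by
      rw [← Real.exp_add]
      simp
    have h4 : Real.exp (w - w ^ 2) * (-(w - w ^ 2) + 1) ≤ 1 :=
      (mul_le_mul_of_nonneg_left h1 h2.le).trans_eq h3
    have h5 : 1 ≤ (1 + w) * (-(w - w ^ 2) + 1) := by
      have e : (1 + w) * (-(w - w ^ 2) + 1) = 1 + w ^ 3 := by ring
      rw [e]
      have : 0 ≤ w ^ 3 := by positivity
      linarith
    have h6 : 0 < -(w - w ^ 2) + 1 := by nlinarith
    exact le_of_mul_le_mul_right (h4.trans h5) h6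
  · obtain ⟨v, hv⟩ : ∃ v : ℝ, v = -w := ⟨_, rfl⟩
    have hw : w = -v := by linarith
    rw [hw] at h h0 ⊢
    have hv0 : 0 < v := by linarith
    have hv1 : v ≤ 1 / 2 := by linarith
    have h1 := Real.quadratic_le_exp_of_nonneg (show 0 ≤ v + v ^ 2 by positivity)
    have e : -v - (-v) ^ 2 = -(v + v ^ 2) := by ring
    rw [e, Real.exp_neg]
    have h2 : 0 < Real.exp (v + v ^ 2) := Real.exp_pos _
    rw [inv_le_comm₀ h2 (by linarith)]
    refine le_trans ?_ h1
    rw [inv_le_iff_one_le_mul₀ (by linarith)]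
    have h3 : (1 + (v + v ^ 2) + (v + v ^ 2) ^ 2 / 2) * (1 + -v) =
        1 + v ^ 2 * ((1 - v) * (1 + v) ^ 2 / 2 - v) := by ring
    rw [h3]
    have h4 : 0 ≤ (1 - v) * (1 + v) ^ 2 / 2 - v := by
      have h5 : (3 / 4 : ℝ) ≤ (1 - v) * (1 + v) := by nlinarith
      have h6 : (3 / 4 : ℝ) * (1 + v) ≤ (1 - v) * (1 + v) * (1 + v) := by
        apply mul_le_mul_of_nonneg_right h5
        linarith
      nlinarith
    have : 0 ≤ v ^ 2 * ((1 - v) * (1 + v) ^ 2 / 2 - v) := by positivity
    linarith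

/-- **A lower bound for the generating function.** -/
theorem binom_lower (T L : Finset ℕ) (hL : ∀ p ∈ L, p.Prime) (hsep : SI.Sep T L) (D : ℝ) (hD : 1 ≤ D)
    (hmD : ∀ p ∈ L, 2 * (T.card * D) ≤ p) (t : ℝ) (ht : 1 / D ≤ t) (htD : t ≤ D) :
    Real.exp (-(((T.card : ℝ) * D) ^ 2 * ∑ p ∈ L, 1 / (p : ℝ) ^ 2)) *
      (1 + (t - 1) * ∏ p ∈ L, (1 - 1 / (p : ℝ))) ^ T.card ≤ Ev L (fun b => t ^ (Sw T L b).card) := by
  classical
  induction L using Finset.induction_on generalizing t with
  | empty =>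
    simp [Ev_empty, Sw_empty]
  | insert p L hp ih =>
    have hpp := hL p (mem_insert_self _ _)
    have hp2 : (2 : ℝ) ≤ p := by exact_mod_cast hpp.two_le
    have hp0 : (0 : ℝ) < p := by linarith
    have hLsep := Sep_mono hsep (subset_insert p L)
    have hD0 : 0 < D := by linarith
    have ht0 : 0 < t := lt_of_lt_of_le (by positivity) ht
    obtain ⟨s, hs⟩ : ∃ s : ℝ, s = 1 + (t - 1) * (1 - 1 / (p : ℝ)) := ⟨_, rfl⟩
    have h1p : 1 / (p : ℝ) ≤ 1 / 2 := by gcongr
    have h1p0 : 0 < 1 / (p : ℝ) := by positivity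
    have hDi : 1 / D ≤ 1 := by
      rw [div_le_one hD0]
      exact hD
    have hs1 : 1 / D ≤ s := by
      have e : s - 1 / D = (t - 1 / D) * (1 - 1 / p) + (1 - 1 / D) * (1 / p) := by
        rw [hs]
        ring
      have h2 : 0 ≤ (t - 1 / D) * (1 - 1 / p) := mul_nonneg (by linarith) (by linarith)
      have h3 : 0 ≤ (1 - 1 / D) * (1 / p) := mul_nonneg (by linarith) h1p0.le
      linarith
    have hs2 : s ≤ D := by
      have e : D - s = (D - t) * (1 - 1 / p) + (D - 1) * (1 / p) := by
        rw [hs]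
        ring
      have h2 : 0 ≤ (D - t) * (1 - 1 / p) := mul_nonneg (by linarith) (by linarith)
      have h3 : 0 ≤ (D - 1) * (1 / p) := mul_nonneg (by linarith) h1p0.le
      linarith
    have hs0 : 0 < s := lt_of_lt_of_le (by positivity) hs1
    obtain ⟨m, hm⟩ : ∃ m : ℝ, m = T.card := ⟨_, rfl⟩
    have hm0 : 0 ≤ m := by
      rw [hm]
      positivity
    have hmp : m * D / p ≤ 1 / 2 := by
      have := hmD p (mem_insert_self _ _)
      rw [← hm] at this
      rw [div_le_iff₀ hp0]
      linarith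
    have hstep : ∀ b, Real.exp (-((m * D) ^ 2 * (1 / (p : ℝ) ^ 2))) * s ^ (Sw T L b).card ≤
        (1 - (Sw T L b).card / (p : ℝ)) * t ^ (Sw T L b).card +
          (Sw T L b).card / (p : ℝ) * t ^ ((Sw T L b).card - 1) := by
      intro b
      have hnm : ((Sw T L b).card : ℝ) ≤ m := by
        rw [hm]
        exact_mod_cast Sw_card_le T L b
      generalize (Sw T L b).card = n at hnm ⊢
      rcases Nat.eq_zero_or_pos n with h | h
      · subst h
        simp only [pow_zero, mul_one, Nat.cast_zero, zero_div, sub_zero, zero_mul, add_zero]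
        rw [Real.exp_le_one_iff]
        have : 0 ≤ (m * D) ^ 2 * (1 / (p : ℝ) ^ 2) := by positivity
        linarith
      · have e1 : (t : ℝ) ^ n = t * t ^ (n - 1) := by
          rw [← pow_succ']
          congr 1
          omega
        have e2 : (1 - n / (p : ℝ)) * t ^ n + n / (p : ℝ) * t ^ (n - 1) = t ^ n * (1 + n * (s / t - 1)) := by
          rw [e1, hs]
          field_simp
          ring
        rw [e2]
        obtain ⟨x, hx⟩ : ∃ x : ℝ, x = s / t - 1 := ⟨_, rfl⟩
        rw [← hx]
        have hx1 : |x| ≤ D / p := by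
          have e3 : x = (1 / t - 1) * (1 / p) := by
            rw [hx, hs]
            field_simp
            ring
          rw [e3, abs_mul, abs_of_pos h1p0, div_eq_mul_one_div D]
          apply mul_le_mul_of_nonneg_right _ h1p0.le
          rw [abs_le]
          have h3 : 1 / t ≤ D := by
            rw [div_le_comm₀ ht0 hD0]
            exact ht
          have h4 : 0 < 1 / t := by positivity
          constructor <;> linarith
        have hn0 : (0 : ℝ) ≤ n := Nat.cast_nonneg n
        have hw : |(n : ℝ) * x| ≤ m * D / p := by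
          rw [abs_mul, abs_of_nonneg hn0, mul_div_assoc]
          gcongr
        have h3 := exp_low (n * x) (hw.trans hmp)
        have h4 : ((n : ℝ) * x) ^ 2 ≤ (m * D) ^ 2 * (1 / (p : ℝ) ^ 2) := by
          have h5 : |(n : ℝ) * x| ^ 2 ≤ (m * D / p) ^ 2 := by gcongr
          rw [sq_abs] at h5
          refine h5.trans_eq ?_
          rw [div_pow]
          ring
        have h5 : (1 + x) ^ n ≤ Real.exp (n * x) := by
          have h6 : 1 + x ≤ Real.exp x := by
            have := Real.add_one_le_exp x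
            linarith
          have h7 : 0 ≤ 1 + x := by
            rw [hx]
            have : 0 < s / t := by positivity
            linarith
          calc (1 + x) ^ n ≤ Real.exp x ^ n := pow_le_pow_left₀ h7 h6 n
            _ = Real.exp (n * x) := by rw [← Real.exp_nat_mul]
        have h6 : s ^ n = t ^ n * (1 + x) ^ n := by
          rw [← mul_pow, hx]
          congr 1
          field_simp
          ring
        rw [h6]
        have h7 : Real.exp (-((m * D) ^ 2 * (1 / (p : ℝ) ^ 2))) * (1 + x) ^ n ≤ 1 + n * x := by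
          refine le_trans ?_ h3
          rw [sub_eq_add_neg, add_comm ((n : ℝ) * x), Real.exp_add]
          have h8 : Real.exp (-((m * D) ^ 2 * (1 / (p : ℝ) ^ 2))) ≤ Real.exp (-(n * x) ^ 2) :=
            Real.exp_le_exp.2 (by linarith)
          have h9 : 0 ≤ (1 + x) ^ n := by
            apply pow_nonneg
            rw [hx]
            have : 0 < s / t := by positivity
            linarith
          exact mul_le_mul h8 h5 h9 (Real.exp_pos _).le
        calc Real.exp (-((m * D) ^ 2 * (1 / (p : ℝ) ^ 2))) * (t ^ n * (1 + x) ^ n) =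
            t ^ n * (Real.exp (-((m * D) ^ 2 * (1 / (p : ℝ) ^ 2))) * (1 + x) ^ n) := by ring
          _ ≤ t ^ n * (1 + n * x) := mul_le_mul_of_nonneg_left h7 (by positivity)
    rw [Ev_step T L p hp hpp.pos hsep (fun n => t ^ n)]
    refine le_trans ?_ (Ev_mono L _ _ fun b _ => hstep b)
    rw [Ev_mul]
    have h1 := ih (fun q hq => hL q (mem_insert_of_mem hq)) hLsep (fun q hq => hmD q (mem_insert_of_mem hq)) s hs1 hs2
    rw [← hm] at h1 ⊢
    refine le_trans (le_of_eq ?_) (mul_le_mul_of_nonneg_left h1 (Real.exp_pos _).le)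
    have e1 : -((m * D) ^ 2 * (1 / (p : ℝ) ^ 2 + ∑ x ∈ L, 1 / (x : ℝ) ^ 2)) =
        -((m * D) ^ 2 * (1 / (p : ℝ) ^ 2)) + -((m * D) ^ 2 * ∑ x ∈ L, 1 / (x : ℝ) ^ 2) := by ring
    have e2 : 1 + (t - 1) * ((1 - 1 / (p : ℝ)) * ∏ x ∈ L, (1 - 1 / (x : ℝ))) =
        1 + (s - 1) * ∏ x ∈ L, (1 - 1 / (x : ℝ)) := by
      rw [hs]
      ring
    rw [prod_insert hp, sum_insert hp, e1, e2, Real.exp_add, mul_assoc]

end Pool.Agent.H531.PW
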