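import Pool.Agent.H531.PW.Ae

set_option autoImplicit false

/-!
# The sieving limit does not change in a window
-/

open Finset MeasureTheory ProbabilityTheory Filter Topology

namespace Pool.Agent.H531.PW

open Pool.Agent.T2H31.HV Pool.Agent.H531.SI Pool.Agent.H531.MS
open Pool.Agent.T2H32.BF (V V_pos V_anti V_ratio V_step z0 z0_mono z0_lim z0_top z0_mem z0_lt R Model prob ae_lt)

theorem V_change (x y : ℕ) (hx : 3 ≤ x) (hz : 1 ≤ z0 x) :
    1 - V (z0 (x + y)) / V (z0 x) ≤ (y : ℝ) / x + 1 / z0 x := by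
  have hx3 : (3 : ℝ) ≤ x := by exact_mod_cast hx
  have hx0 : (0 : ℝ) < x := by linarith
  have hz1 : (1 : ℝ) ≤ z0 x := by exact_mod_cast hz
  have hl1 : 1 ≤ Real.log (x : ℝ) := by
    rw [Real.le_log_iff_exp_le hx0]
    have := Real.exp_one_lt_d9
    linarith
  have hV := V_pos (z0 x)
  have hV' := V_pos (z0 (x + y))
  have hV1 := V_pos (z0 x + 1)
  have h1 : 1 / Real.log ((x + y : ℕ) : ℝ) ≤ V (z0 (x + y)) := by
    have := z0_mem (x + y) (by omega)
    rw [inv_le_comm₀ hV' (by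
      refine lt_of_lt_of_le (inv_pos.2 hV') this)] at this
    rwa [one_div]
  have h2 : V (z0 x + 1) ≤ 1 / Real.log (x : ℝ) := by
    have := (z0_lt x).le
    rw [le_inv_comm₀ (by linarith) hV1] at this
    rwa [one_div]
  have h3 := V_step (z0 x)
  obtain ⟨L, hL⟩ : ∃ L : ℝ, L = Real.log (x : ℝ) := ⟨_, rfl⟩
  obtain ⟨M, hM⟩ : ∃ M : ℝ, M = Real.log ((x + y : ℕ) : ℝ) := ⟨_, rfl⟩
  obtain ⟨u, hu⟩ : ∃ u : ℝ, u = 1 / ((z0 x : ℝ) + 1) := ⟨_, rfl⟩
  rw [← hL] at h2 hl1
  rw [← hM] at h1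
  rw [← hu] at h3
  have hy0 : (0 : ℝ) ≤ y := Nat.cast_nonneg y
  have hML : L ≤ M := by
    rw [hL, hM]
    apply Real.log_le_log hx0
    push_cast
    linarith
  have hMd : M - L ≤ y / x := by
    rw [hL, hM]
    push_cast
    rw [← Real.log_div (by linarith) (by linarith)]
    have h4 := Real.log_le_sub_one_of_pos (show (0 : ℝ) < (x + y) / x by positivity)
    refine h4.trans_eq ?_
    field_simp
    ring
  have hM0 : 0 < M := by linarith
  have hu1 : u ≤ 1 / z0 x := by
    rw [hu]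
    apply one_div_le_one_div_of_le (by linarith)
    linarith
  have hu0 : 0 < u := by
    rw [hu]
    positivity
  have hu2 : u < 1 := by
    rw [hu, div_lt_one (by linarith)]
    linarith
  -- `V x (1 - u) ≤ 1 / L`
  have h4 : V (z0 x) * (1 - u) ≤ 1 / L := h3.trans h2
  have h5 : (1 - u) * (L / M) ≤ V (z0 (x + y)) / V (z0 x) := by
    rw [le_div_iff₀ hV]
    calc (1 - u) * (L / M) * V (z0 x) = (V (z0 x) * (1 - u)) * (L / M) := by ring
      _ ≤ 1 / L * (L / M) := by
        apply mul_le_mul_of_nonneg_right h4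
        positivity
      _ = 1 / M := by
        field_simp
      _ ≤ _ := h1
  have h6 : L / M = 1 - (M - L) / M := by
    field_simp
    ring
  have h7 : (M - L) / M ≤ y / x := by
    rw [div_le_iff₀ hM0]
    have : 0 ≤ (y : ℝ) / x := by positivity
    nlinarith
  have h8 : 1 - (1 - u) * (L / M) ≤ u + (M - L) / M := by
    rw [h6]
    have : 0 ≤ (M - L) / M := by
      apply div_nonneg _ hM0.le
      linarith
    nlinarith
  linarith

section seq

variable {x y : ℕ → ℕ} {ℓ c : ℝ} (hℓ : 0 < ℓ) (hc : 0 < c)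
  (H1 : Tendsto (fun n : ℕ => Real.log (x n) / n) atTop (𝓝 ℓ))
  (H2 : Tendsto (fun n : ℕ => (y n : ℝ) / (n * Real.log n)) atTop (𝓝 c))

include hℓ hc H1 H2 in
theorem same {Ω : Type} [MeasurableSpace Ω] {P : Measure Ω} {a : ℕ → Ω → ℕ} (h : Model P a) :
    ∀ᵐ ω ∂P, ∀ᶠ n : ℕ in atTop, (R z0 (fun q => a q ω) ∩ Set.Ioc (x n) (x n + y n)).ncard =
      MS.sv (z0 (x n)) (x n) (y n) fun q => a q ω := by
  classical
  have := prob h
  have key : ∀ᵐ ω ∂P, ∀ᶠ n : ℕ in atTop, ω ∉ {ω | (1 : ℝ) ≤ (MS.sv (z0 (x n)) (x n) (y n) (fun q => a q ω) : ℝ) -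
      MS.sv (z0 (x n + y n)) (x n) (y n) (fun q => a q ω)} := by
    refine bc P _ (fun n => 2 * (1 / (n : ℝ) ^ 2)) ?_ ?_
    · exact (Real.summable_one_div_nat_pow.2 (by norm_num)).mul_left 2
    filter_upwards [y_facts hc H2, x_pow hℓ H1 6, z_large hℓ H1 4, (x_top hℓ H1).eventually_ge_atTop 3,
      eventually_ge_atTop 1] with n g1 g2 g3 g4 g5
    obtain ⟨Z, hZ⟩ : ∃ Z : ℕ, Z = z0 (x n) := ⟨_, rfl⟩
    obtain ⟨Z', hZ'⟩ : ∃ Z' : ℕ, Z' = z0 (x n + y n) := ⟨_, rfl⟩
    have hZZ : Z ≤ Z' := by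
      rw [hZ, hZ']
      exact z0_mono (by omega)
    have hn : (1 : ℝ) ≤ n := by exact_mod_cast g5
    have hz1 : 1 ≤ z0 (x n) := le_trans (Nat.one_le_pow _ _ g5) g3
    have hVc := V_change (x n) (y n) g4 hz1
    have hyn2 : y n ≤ n ^ 2 := by exact_mod_cast g1.2
    have hyZ : y n ≤ Z := by
      rw [hZ]
      refine hyn2.trans (le_trans (Nat.pow_le_pow_right g5 (by norm_num)) g3)
    rw [← hZ, ← hZ'] at hVc ⊢
    have hd : Disjoint (PN Z) (MS.PI Z Z') := by
      rw [disjoint_left]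
      intro p hp hp'
      rw [mem_PN] at hp
      rw [MS.mem_PI] at hp'
      omega
    have hun : PN Z' = PN Z ∪ MS.PI Z Z' := PN_union Z Z' hZZ
    refine cond_one h (PN Z) (MS.PI Z Z') hd
      (fun b => (1 : ℝ) ≤ (MS.sv Z (x n) (y n) b : ℝ) - MS.sv Z' (x n) (y n) b) ?_ _ (by positivity) ?_
    · intro b b' hb
      rw [sv_congr Z (x n) (y n) b b' fun p hp => hb p (mem_union_left _ hp),
        sv_congr Z' (x n) (y n) b b' fun p hp => hb p (by rwa [← hun])]
    · intro α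
      obtain ⟨T, hT⟩ : ∃ T : Finset ℕ, T = Sw (Ioc (x n) (x n + y n)) (PN Z) α := ⟨_, rfl⟩
      have hTI : T ⊆ Ioc (x n) (x n + y n) := by
        rw [hT]
        exact filter_subset _ _
      have hLp : ∀ p ∈ MS.PI Z Z', p.Prime := fun p hp => PI_prime hp
      have hsep := window_sep (x n) (y n) Z Z' T hTI hyZ
      obtain ⟨F, hF⟩ : ∃ F : (ℕ → ℕ) → ℝ, ∀ b, F b = (T.card : ℝ) - (Sw T (MS.PI Z Z') b).card :=
        ⟨_, fun _ => rfl⟩
      have hdep : Dep (MS.PI Z Z') F := by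
        intro b b' hb
        rw [hF, hF, Sw_congr T _ b b' hb]
      have hpos : ∀ b, 0 ≤ F b := fun b => by
        rw [hF]
        have : ((Sw T (MS.PI Z Z') b).card : ℝ) ≤ T.card := by exact_mod_cast Sw_card_le T _ b
        linarith
      have h2 := markov h (MS.PI Z Z') hLp F hpos hdep 1 one_pos
      have hEv : Ev (MS.PI Z Z') F = T.card * (1 - V Z' / V Z) := by
        have e : F = fun b => (fun _ => (T.card : ℝ)) b - ((Sw T (MS.PI Z Z') b).card : ℝ) := funext hF
        rw [e, Ev_sub, Ev_const _ (fun p hp => (hLp p hp).pos), mom1 T _ hLp hsep]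
        have hVr : ∏ p ∈ MS.PI Z Z', (1 - 1 / (p : ℝ)) = V Z' / V Z := (V_ratio Z Z' hZZ).symm
        rw [hVr]
        ring
      rw [div_one, hEv] at h2
      have hset : {ω | (1 : ℝ) ≤ (MS.sv Z (x n) (y n) (fun i => if i ∈ PN Z then α i else a i ω) : ℝ) -
          MS.sv Z' (x n) (y n) (fun i => if i ∈ PN Z then α i else a i ω)} ⊆ {ω | 1 ≤ F fun q => a q ω} := by
        intro ω hω
        have h3 : MS.sv Z (x n) (y n) (fun i => if i ∈ PN Z then α i else a i ω) = T.card := by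
          rw [sv_congr Z (x n) (y n) _ α fun p hp => if_pos hp, hT]
          rfl
        have h4 : MS.sv Z' (x n) (y n) (fun i => if i ∈ PN Z then α i else a i ω) =
            (Sw T (MS.PI Z Z') fun q => a q ω).card := by
          unfold MS.sv
          rw [hun, Sw_union,
            Sw_congr (Ioc (x n) (x n + y n)) (PN Z) (fun i => if i ∈ PN Z then α i else a i ω) α
            (fun p hp => if_pos hp), ← hT, Sw_congr T (MS.PI Z Z') (fun i => if i ∈ PN Z then α i else a i ω)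
            (fun q => a q ω) (fun p hp => if_neg fun h5 => disjoint_left.1 hd h5 hp)]
        simp only [Set.mem_ofPred_eq, h3, h4] at hω
        simp only [Set.mem_ofPred_eq, hF]
        exact hω
      refine (measureReal_mono hset (measure_ne_top _ _)).trans (h2.trans ?_)
      have hTc : (T.card : ℝ) ≤ (n : ℝ) ^ 2 := by
        have h5 := card_le_card hTI
        rw [Nat.card_Ioc, Nat.add_sub_cancel_left] at h5
        exact_mod_cast h5.trans hyn2
      have h6 : (y n : ℝ) / x n ≤ 1 / (n : ℝ) ^ 4 := by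
        have hx0 : (0 : ℝ) < x n := by
          have : (3 : ℝ) ≤ x n := by exact_mod_cast g4
          linarith
        rw [div_le_div_iff₀ hx0 (by positivity)]
        calc (y n : ℝ) * (n : ℝ) ^ 4 ≤ (n : ℝ) ^ 2 * (n : ℝ) ^ 4 := by
              gcongr
              exact g1.2
          _ = (n : ℝ) ^ 6 := by ring
          _ ≤ 1 * x n := by rw [one_mul]; exact g2
      have h7 : 1 / (Z : ℝ) ≤ 1 / (n : ℝ) ^ 4 := by
        apply one_div_le_one_div_of_le (by positivity)
        rw [hZ]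
        exact_mod_cast g3
      calc (T.card : ℝ) * (1 - V Z' / V Z) ≤ T.card * (1 / (n : ℝ) ^ 4 + 1 / (n : ℝ) ^ 4) := by
            apply mul_le_mul_of_nonneg_left _ (Nat.cast_nonneg _)
            linarith
        _ ≤ (n : ℝ) ^ 2 * (1 / (n : ℝ) ^ 4 + 1 / (n : ℝ) ^ 4) := by gcongr
        _ = 2 * (1 / (n : ℝ) ^ 2) := by
          field_simp
          ring
  filter_upwards [key] with ω hω
  filter_upwards [hω, (x_top hℓ H1).eventually_ge_atTop 2] with n h1 h2
  have h3 := cR_le (x n) (y n) fun q => a q ω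
  have h4 := le_cR (x n) (y n) h2 fun q => a q ω
  simp only [Set.mem_ofPred_eq, not_le] at h1
  have h5 : (MS.sv (z0 (x n)) (x n) (y n) (fun q => a q ω) : ℝ) <
      MS.sv (z0 (x n + y n)) (x n) (y n) (fun q => a q ω) + 1 := by linarith
  have h6 : MS.sv (z0 (x n)) (x n) (y n) (fun q => a q ω) <
      MS.sv (z0 (x n + y n)) (x n) (y n) (fun q => a q ω) + 1 := by exact_mod_cast h5
  omega

end seq

end Pool.Agent.H531.PW
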