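import Pool.Agent.H531.PW.Tilt
import Pool.Agent.H531.MS.Eqv

set_option autoImplicit false

/-!
# The small primes
-/

open Finset MeasureTheory ProbabilityTheory Filter Topology

namespace Pool.Agent.H531.PW

open Pool.Agent.T2H31.HV Pool.Agent.H531.SI Pool.Agent.H531.MS
open Pool.Agent.T2H32.BF (V V_pos V_anti V_ratio z0 z0_mono z0_lim z0_top R Model prob ae_lt)

theorem fund' {ε : ℝ} (hε : 0 < ε) : ∃ s w0 : ℕ, 1 ≤ s ∧ ∀ w : ℕ, w0 ≤ w → ∀ x y : ℕ,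
    ((w : ℝ) + 1) ^ s ≤ y → |(CQ (PN w) x y : ℝ) - y * V w| ≤ ε * (y * V w) := by
  obtain ⟨s, w0, hs, h⟩ := Pool.Agent.R301.GM.rc_fund hε
  refine ⟨s, w0, hs, fun w hw x y hy => ?_⟩
  have h5 := h w hw x y hy
  rwa [rc_CQ, MM_inv, div_inv_eq_mul] at h5

/-- consequences of `y ≈ c n log n` -/
theorem y_facts {y : ℕ → ℕ} {c : ℝ} (hc : 0 < c)
    (H2 : Tendsto (fun n : ℕ => (y n : ℝ) / (n * Real.log n)) atTop (𝓝 c)) :
    ∀ᶠ n : ℕ in atTop, (n : ℝ) ≤ y n ∧ (y n : ℝ) ≤ (n : ℝ) ^ 2 := by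
  have h1 := H2.eventually_const_le (show c / 2 < c by linarith)
  have h2 := H2.eventually_le_const (show c < 2 * c by linarith)
  have h3 := L_top.eventually_ge_atTop (2 / c)
  have h4 : ∀ᶠ n : ℕ in atTop, 2 * c * Real.log (n : ℝ) ≤ n := by
    have h5 := (Real.isLittleO_log_id_atTop.comp_tendsto (tendsto_natCast_atTop_atTop (R := ℝ))).bound
      (show (0 : ℝ) < 1 / (2 * c) by positivity)
    filter_upwards [h5, eventually_ge_atTop 1] with n h6 h7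
    have h8 : (1 : ℝ) ≤ n := by exact_mod_cast h7
    simp only [Function.comp, id, Real.norm_eq_abs] at h6
    rw [abs_of_nonneg (Real.log_nonneg h8), abs_of_nonneg (by linarith)] at h6
    calc 2 * c * Real.log (n : ℝ) ≤ 2 * c * (1 / (2 * c) * n) := by gcongr
      _ = n := by field_simp
  filter_upwards [h1, h2, h3, h4, eventually_ge_atTop 2] with n g1 g2 g3 g4 g5
  have hn : (2 : ℝ) ≤ n := by exact_mod_cast g5
  have hl : 0 < Real.log (n : ℝ) := Real.log_pos (by linarith)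
  have hnl : 0 < (n : ℝ) * Real.log n := by positivity
  rw [le_div_iff₀ hnl] at g1
  rw [div_le_iff₀ hnl] at g2
  rw [div_le_iff₀ hc] at g3
  constructor
  · calc (n : ℝ) = n * 1 := by ring
      _ ≤ n * (Real.log n * c / 2) := by
        apply mul_le_mul_of_nonneg_left _ (by linarith)
        linarith
      _ = c / 2 * (n * Real.log n) := by ring
      _ ≤ y n := g1
  · calc (y n : ℝ) ≤ 2 * c * (n * Real.log n) := g2
      _ = n * (2 * c * Real.log n) := by ring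
      _ ≤ n * n := by gcongr
      _ = _ := by ring

/-- numerical facts for the small primes -/
theorem small_num (s : ℕ) (hs : 1 ≤ s) (C : ℝ) : ∀ᶠ n : ℕ in atTop, ∃ w : ℕ, ∀ y : ℕ, (n : ℝ) ≤ y →
    (y : ℝ) ≤ (n : ℝ) ^ 2 → (((w : ℝ) + 1) ^ s ≤ y ∧ 1 ≤ w ∧ w ≤ y ∧ C ≤ w) ∧
      C * Real.log (n : ℝ) ^ 3 ≤ w := by
  have hs0 : (0 : ℝ) < s := by exact_mod_cast (show 0 < s by omega)
  have hpos : (0 : ℝ) < 1 / (2 * s) := by positivity
  have h1 := (floor_tend _ hpos)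
  have h2 := logpow_small 4 (1 / (2 * s)) hpos
  have h3 := L_top.eventually_ge_atTop (2 * C)
  have h4 := (tendsto_natCast_atTop_atTop (R := ℝ)).comp h1
  have h5 : Tendsto (fun n : ℕ => (n : ℝ) ^ (1 / 2 : ℝ)) atTop atTop :=
    (tendsto_rpow_atTop (by norm_num)).comp tendsto_natCast_atTop_atTop
  filter_upwards [h1.eventually_ge_atTop 1, h2, h3, h4.eventually_ge_atTop C,
    h5.eventually_ge_atTop ((2 : ℝ) ^ s), eventually_ge_atTop 3] with n g1 g2 g3 g4 g5 g6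
  refine ⟨⌊(n : ℝ) ^ (1 / (2 * s) : ℝ)⌋₊, fun y hy hy2 => ?_⟩
  have hn : (3 : ℝ) ≤ n := by exact_mod_cast g6
  have hn0 : (0 : ℝ) < n := by linarith
  obtain ⟨w, hw⟩ : ∃ w : ℕ, w = ⌊(n : ℝ) ^ (1 / (2 * s) : ℝ)⌋₊ := ⟨_, rfl⟩
  obtain ⟨r, hr⟩ : ∃ r : ℝ, r = (n : ℝ) ^ (1 / (2 * s) : ℝ) := ⟨_, rfl⟩
  simp only [Function.comp] at g4
  rw [← hr] at hw g2
  rw [← hr, ← hw] at g1 g4 ⊢
  have hr0 : 0 ≤ r := by
    rw [hr]
    positivity
  have hwr : (w : ℝ) ≤ r := by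
    rw [hw]
    exact Nat.floor_le hr0
  have hrw : r < w + 1 := by
    rw [hw]
    exact Nat.lt_floor_add_one _
  have hw1 : (1 : ℝ) ≤ w := by exact_mod_cast g1
  have hrs : r ^ s = (n : ℝ) ^ (1 / 2 : ℝ) := by
    rw [hr, ← Real.rpow_natCast, ← Real.rpow_mul hn0.le]
    congr 1
    field_simp
  have hl1 : 1 ≤ Real.log (n : ℝ) := by
    rw [Real.le_log_iff_exp_le hn0]
    have := Real.exp_one_lt_d9
    linarith
  have hpw : ((w : ℝ) + 1) ^ s ≤ n := by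
    calc ((w : ℝ) + 1) ^ s ≤ (2 * r) ^ s := by
          gcongr
          linarith
      _ = 2 ^ s * (n : ℝ) ^ (1 / 2 : ℝ) := by rw [mul_pow, hrs]
      _ ≤ (n : ℝ) ^ (1 / 2 : ℝ) * (n : ℝ) ^ (1 / 2 : ℝ) := by gcongr
      _ = n := by
        rw [← Real.rpow_add hn0]
        norm_num
  refine ⟨⟨hpw.trans hy, g1, ?_, g4⟩, ?_⟩
  · have h6 : (w : ℝ) + 1 ≤ ((w : ℝ) + 1) ^ s := le_self_pow₀ (by linarith) (by omega)
    have h7 : (w : ℝ) ≤ y := by linarith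
    exact_mod_cast h7
  · have h6 : Real.log (n : ℝ) ^ 3 * (2 * C) ≤ Real.log (n : ℝ) ^ 3 * Real.log n := by gcongr
    have h7 : Real.log (n : ℝ) ^ 3 * Real.log n = Real.log (n : ℝ) ^ 4 := by ring
    linarith

/-- **The small primes.** -/
theorem good_prob {Ω : Type} [MeasurableSpace Ω] {P : Measure Ω} {a : ℕ → Ω → ℕ} (h : Model P a) (x : ℕ → ℕ)
    {y : ℕ → ℕ} {c : ℝ} (hc : 0 < c)
    (H2 : Tendsto (fun n : ℕ => (y n : ℝ) / (n * Real.log n)) atTop (𝓝 c)) (ε : ℝ) (hε : 0 < ε) (hε1 : ε ≤ 1) :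
    ∀ᶠ n : ℕ in atTop, ∀ Y : ℕ, y n ≤ Y → Y ≤ n ^ 20 →
      P.real {ω | ε * (y n * V Y) < |(sv Y (x n) (y n) (fun q => a q ω) : ℝ) - y n * V Y|} ≤ 1 / (n : ℝ) ^ 2 := by
  have := prob h
  obtain ⟨s, w1, hs, hf⟩ := fund' (show 0 < ε / 2 by positivity)
  obtain ⟨u₀, c₀, hu₀, hc₀, hV⟩ := Vy_lower
  obtain ⟨C, hC⟩ : ∃ C : ℝ, C = max (w1 : ℝ) (max (u₀ : ℝ) (128 * 4 * 4 / (ε ^ 2 * c₀ ^ 2) + 64 * 20 * 4 * 2 / (ε ^ 2 * c₀ ^ 2))) :=
    ⟨_, rfl⟩
  have hC1 : (w1 : ℝ) ≤ C := by rw [hC]; exact le_max_left _ _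
  have hC2 : (u₀ : ℝ) ≤ C := by rw [hC]; exact (le_max_left _ _).trans (le_max_right _ _)
  have hC3 : 128 * 4 * 4 / (ε ^ 2 * c₀ ^ 2) + 64 * 20 * 4 * 2 / (ε ^ 2 * c₀ ^ 2) ≤ C := by
    rw [hC]; exact (le_max_right _ _).trans (le_max_right _ _)
  filter_upwards [small_num s hs C, y_facts hc H2, eventually_ge_atTop 3,
    (tendsto_natCast_atTop_atTop (R := ℝ)).eventually_ge_atTop C] with n g1 g2 g3 g4 Y hyY hYn
  obtain ⟨w, hw⟩ := g1
  obtain ⟨⟨k1, k2, k3, k4⟩, k5⟩ := hw (y n) g2.1 g2.2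
  have hn : (3 : ℝ) ≤ n := by exact_mod_cast g3
  have hn0 : (0 : ℝ) < n := by linarith
  obtain ⟨l, hl⟩ : ∃ l : ℝ, l = Real.log (n : ℝ) := ⟨_, rfl⟩
  have hl1 : 1 ≤ l := by
    rw [hl, Real.le_log_iff_exp_le hn0]
    have := Real.exp_one_lt_d9
    linarith
  have hl0 : 0 < l := by linarith
  have hw0 : w1 ≤ w := by
    have : (w1 : ℝ) ≤ w := hC1.trans k4
    exact_mod_cast this
  have hyn : (3 : ℝ) ≤ y n := hn.trans g2.1
  have hyC : u₀ ≤ y n := by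
    have : (u₀ : ℝ) ≤ y n := (hC2.trans g4).trans g2.1
    exact_mod_cast this
  have hYy : (y n : ℝ) ≤ Y := by exact_mod_cast hyY
  have hYn' : (Y : ℝ) ≤ (n : ℝ) ^ 20 := by exact_mod_cast hYn
  have hVw := V_pos w
  have hVY := V_pos Y
  have hVy := V_pos (y n)
  -- lower bounds for V
  have v1 : c₀ / (2 * l) ≤ V (y n) := by
    have h1 := hV (y n) hyC
    have h2 : Real.log (y n) ≤ 2 * l := by
      rw [hl]
      calc Real.log (y n) ≤ Real.log ((n : ℝ) ^ 2) := Real.log_le_log (by linarith) g2.2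
        _ = 2 * Real.log n := by rw [Real.log_pow]; norm_num
    rw [div_le_iff₀ (by positivity)]
    calc c₀ ≤ Real.log (y n) * V (y n) := h1
      _ ≤ 2 * l * V (y n) := by gcongr
      _ = _ := by ring
  have v2 : c₀ / (20 * l) ≤ V Y := by
    have h1 := hV Y (hyC.trans hyY)
    have h2 : Real.log Y ≤ 20 * l := by
      rw [hl]
      calc Real.log Y ≤ Real.log ((n : ℝ) ^ 20) := Real.log_le_log (by linarith) hYn'
        _ = 20 * Real.log n := by rw [Real.log_pow]; norm_num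
    rw [div_le_iff₀ (by positivity)]
    calc c₀ ≤ Real.log Y * V Y := h1
      _ ≤ 20 * l * V Y := by gcongr
      _ = _ := by ring
  have htp := two_phase h (x n) (y n) w Y k2 k3 hyY (ε / 2) (by positivity) (by linarith)
  -- exponents
  have hlog4 : (4 : ℝ) ≤ Real.exp (2 * l) := by
    have h1 := Real.add_one_le_exp (1 : ℝ)
    have h2 : Real.exp 2 = Real.exp 1 * Real.exp 1 := by
      rw [← Real.exp_add]
      norm_num
    have h3 : Real.exp 2 ≤ Real.exp (2 * l) := Real.exp_le_exp.2 (by linarith)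
    have h4 : (2 : ℝ) ≤ Real.exp 1 := by linarith
    nlinarith
  have hn4 : Real.exp (-(4 * l)) ≤ 1 / 4 * (1 / (n : ℝ) ^ 2) := by
    have e1 : Real.exp (-(4 * l)) = (Real.exp (2 * l))⁻¹ * (1 / (n : ℝ) ^ 2) := by
      have e2 : Real.exp (2 * l) = (n : ℝ) ^ 2 := by
        rw [hl, show 2 * Real.log (n : ℝ) = Real.log ((n : ℝ) ^ 2) by rw [Real.log_pow]; norm_num]
        exact Real.exp_log (by positivity)
      rw [← Real.exp_neg, ← e2, one_div, ← Real.exp_neg, ← Real.exp_add]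
      congr 1
      ring
    rw [e1]
    apply mul_le_mul_of_nonneg_right _ (by positivity)
    rw [one_div]
    exact inv_anti₀ (by norm_num) hlog4
  have x1 : 4 * l ≤ (ε / 2) ^ 2 * (V (y n) ^ 2 * w) / 32 := by
    have k6 : C * l ^ 3 ≤ w := by
      rw [hl]
      exact k5
    have hC0 : 0 ≤ C := (Nat.cast_nonneg _).trans hC1
    have e1 : (c₀ / (2 * l)) ^ 2 * (C * l ^ 3) ≤ V (y n) ^ 2 * w := by
      gcongr
    have e2 : (c₀ / (2 * l)) ^ 2 * (C * l ^ 3) = c₀ ^ 2 * C * l / 4 := by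
      field_simp
      try ring
    have e3 : 128 * 4 * 4 / (ε ^ 2 * c₀ ^ 2) ≤ C := by
      have : 0 ≤ 64 * 20 * 4 * 2 / (ε ^ 2 * c₀ ^ 2) := by positivity
      linarith
    rw [div_le_iff₀ (by positivity)] at e3
    rw [e2] at e1
    have e4 : 128 * 4 * 4 * l ≤ C * (ε ^ 2 * c₀ ^ 2) * l := by gcongr
    have e5 : ε ^ 2 * (c₀ ^ 2 * C * l / 4) ≤ ε ^ 2 * (V (y n) ^ 2 * w) := by gcongr
    linarith
  have x2 : 4 * l ≤ (ε / 2) ^ 2 * (V (y n) * V Y * y n) / 16 := by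
    have hyl : C * l ^ 3 ≤ y n := by
      rw [hl]
      refine k5.trans ?_
      exact_mod_cast k3
    have e1 : (c₀ / (2 * l)) * (c₀ / (20 * l)) * (C * l ^ 3) ≤ V (y n) * V Y * y n := by
      have : 0 ≤ C * l ^ 3 := by
        have : 0 ≤ C := (Nat.cast_nonneg _).trans hC1
        positivity
      gcongr
    have e2 : (c₀ / (2 * l)) * (c₀ / (20 * l)) * (C * l ^ 3) = c₀ ^ 2 * C * l / 40 := by
      field_simp
      ring
    have e3 : 64 * 20 * 4 * 2 / (ε ^ 2 * c₀ ^ 2) ≤ C := by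
      have : 0 ≤ 128 * 4 * 4 / (ε ^ 2 * c₀ ^ 2) := by positivity
      linarith
    rw [div_le_iff₀ (by positivity)] at e3
    rw [e2] at e1
    have e4 : 64 * 20 * 4 * 2 * l ≤ C * (ε ^ 2 * c₀ ^ 2) * l := by gcongr
    have e5 : ε ^ 2 * (c₀ ^ 2 * C * l / 40) ≤ ε ^ 2 * (V (y n) * V Y * y n) := by gcongr
    linarith
  have hbd : 2 * Real.exp (-((ε / 2) ^ 2 * (V (y n) ^ 2 * w) / 32)) +
      2 * Real.exp (-((ε / 2) ^ 2 * (V (y n) * V Y * y n) / 16)) ≤ 1 / (n : ℝ) ^ 2 := by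
    have f1 : Real.exp (-((ε / 2) ^ 2 * (V (y n) ^ 2 * w) / 32)) ≤ Real.exp (-(4 * l)) :=
      Real.exp_le_exp.2 (by linarith)
    have f2 : Real.exp (-((ε / 2) ^ 2 * (V (y n) * V Y * y n) / 16)) ≤ Real.exp (-(4 * l)) :=
      Real.exp_le_exp.2 (by linarith)
    linarith
  refine le_trans ?_ (htp.trans hbd)
  have hnull := ae_lt h
  refine ENNReal.toReal_mono (measure_ne_top _ _) (measure_mono_ae ?_)
  filter_upwards [hnull] with ω hω h1
  change ε / 2 * (y n * V Y) < _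
  change ε * (y n * V Y) < _ at h1
  obtain ⟨x', hx'⟩ := crt_window w (x n) (fun q => a q ω) hω
  have h2 := hf w hw0 x' (y n) k1
  rw [← hx' w le_rfl (y n)] at h2
  obtain ⟨A, hA⟩ : ∃ A : ℝ, A = MS.sv w (x n) (y n) fun q => a q ω := ⟨_, rfl⟩
  obtain ⟨B, hB⟩ : ∃ B : ℝ, B = MS.sv Y (x n) (y n) fun q => a q ω := ⟨_, rfl⟩
  rw [← hA] at h2 ⊢
  rw [← hB] at h1 ⊢
  have h3 : B - y n * V Y = (B - A * (V Y / V w)) + (A - y n * V w) * (V Y / V w) := by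
    field_simp
    try ring
  have h4 : |B - y n * V Y| ≤ |B - A * (V Y / V w)| + |A - y n * V w| * (V Y / V w) := by
    rw [h3]
    refine (abs_add_le _ _).trans ?_
    rw [abs_mul, abs_of_pos (show 0 < V Y / V w by positivity)]
  have h5 : |A - y n * V w| * (V Y / V w) ≤ ε / 2 * (y n * V w) * (V Y / V w) := by gcongr
  have h6 : ε / 2 * (y n * V w) * (V Y / V w) = ε / 2 * (y n * V Y) := by field_simp
  linarith

end Pool.Agent.H531.PW
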