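import Pool.Agent.H531.PW.Cov

set_option autoImplicit false

/-!
# Tails of the number of survivors
-/

open Finset MeasureTheory ProbabilityTheory Filter Topology

namespace Pool.Agent.H531.PW

open Pool.Agent.T2H31.HV Pool.Agent.T2H32.BF Pool.Agent.H531.SI Pool.Agent.H531.MS

open Classical in
/-- the indicator of a proposition -/
noncomputable def ind (Q : Prop) : ℝ := if Q then 1 else 0

theorem ind_bounds (Q : Prop) : 0 ≤ ind Q ∧ ind Q ≤ 1 := by
  unfold ind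
  split_ifs <;> norm_num

theorem ind_of {Q : Prop} (h : Q) : ind Q = 1 := if_pos h

theorem ind_not {Q : Prop} (h : ¬ Q) : ind Q = 0 := if_neg h

theorem ind_eq_zero {Q : Prop} : ind Q = 0 ↔ ¬ Q := by
  unfold ind
  split_ifs with h <;> simp [h]

theorem rho_mem (L : Finset ℕ) (hL : ∀ p ∈ L, p.Prime) :
    0 ≤ ∏ p ∈ L, (1 - 1 / (p : ℝ)) ∧ ∏ p ∈ L, (1 - 1 / (p : ℝ)) ≤ 1 := by
  have h3 : ∀ q ∈ L, 0 ≤ 1 - 1 / (q : ℝ) ∧ 1 - 1 / (q : ℝ) ≤ 1 := by
    intro q hq
    have h4 : (2 : ℝ) ≤ q := by exact_mod_cast (hL q hq).two_le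
    have h5 : 1 / (q : ℝ) ≤ 1 := by
      rw [div_le_one (by linarith)]
      linarith
    have h6 : 0 ≤ 1 / (q : ℝ) := by positivity
    exact ⟨by linarith, by linarith⟩
  exact ⟨prod_nonneg fun q hq => (h3 q hq).1, prod_le_one (fun q hq => (h3 q hq).1) fun q hq => (h3 q hq).2⟩

theorem gen_upper (T L : Finset ℕ) (hL : ∀ p ∈ L, p.Prime) (hsep : SI.Sep T L) (Λ : ℝ)
    (hΛ : Λ = T.card * ∏ p ∈ L, (1 - 1 / (p : ℝ))) (t : ℝ) (ht : 0 < t) :
    Ev L (fun b => t ^ (Sw T L b).card) ≤ Real.exp ((t - 1) * Λ) := by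
  have hρ := rho_mem L hL
  refine (binom_dom T L hL hsep t ht).trans ?_
  obtain ⟨ρ, hρd⟩ : ∃ ρ : ℝ, ρ = ∏ p ∈ L, (1 - 1 / (p : ℝ)) := ⟨_, rfl⟩
  rw [← hρd] at hρ hΛ ⊢
  have h1 : 0 ≤ 1 + (t - 1) * ρ := by nlinarith [mul_nonneg ht.le hρ.1]
  have h2 : 1 + (t - 1) * ρ ≤ Real.exp ((t - 1) * ρ) := by
    have := Real.add_one_le_exp ((t - 1) * ρ)
    linarith
  calc (1 + (t - 1) * ρ) ^ T.card ≤ Real.exp ((t - 1) * ρ) ^ T.card := pow_le_pow_left₀ h1 h2 _
    _ = Real.exp ((t - 1) * Λ) := by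
      rw [← Real.exp_nat_mul, hΛ]
      congr 1
      ring

theorem gen_lower (T L : Finset ℕ) (hL : ∀ p ∈ L, p.Prime) (hsep : SI.Sep T L) (Λ ρ : ℝ)
    (hρd : ρ = ∏ p ∈ L, (1 - 1 / (p : ℝ))) (hΛ : Λ = T.card * ρ) (D : ℝ) (hD : 1 ≤ D)
    (hmD : ∀ p ∈ L, 2 * (T.card * D) ≤ p) (t : ℝ) (ht : 1 / D ≤ t) (htD : t ≤ D) (E : ℝ)
    (hE : (T.card * D) ^ 2 * ∑ p ∈ L, 1 / (p : ℝ) ^ 2 + T.card * ((t - 1) * ρ) ^ 2 ≤ E)
    (hsm : |(t - 1) * ρ| ≤ 1 / 2) :
    Real.exp ((t - 1) * Λ - E) ≤ Ev L (fun b => t ^ (Sw T L b).card) := by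
  refine le_trans ?_ (binom_lower T L hL hsep D hD hmD t ht htD)
  rw [← hρd]
  have h1 := exp_low _ hsm
  have h2 : Real.exp ((t - 1) * ρ - ((t - 1) * ρ) ^ 2) ^ T.card ≤ (1 + (t - 1) * ρ) ^ T.card :=
    pow_le_pow_left₀ (Real.exp_pos _).le h1 _
  rw [← Real.exp_nat_mul] at h2
  refine le_trans ?_ (mul_le_mul_of_nonneg_left h2 (Real.exp_pos _).le)
  rw [← Real.exp_add]
  apply Real.exp_le_exp.2
  rw [hΛ]
  linarith

theorem tail_ge (T L : Finset ℕ) (hL : ∀ p ∈ L, p.Prime) (hsep : SI.Sep T L) (Λ : ℝ)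
    (hΛ : Λ = T.card * ∏ p ∈ L, (1 - 1 / (p : ℝ))) (s : ℝ) (hs : 1 ≤ s) (k : ℝ) :
    Ev L (fun b => ind (k ≤ (Sw T L b).card)) ≤ Real.exp ((s - 1) * Λ - k * Real.log s) := by
  have hs0 : 0 < s := by linarith
  have h1 : ∀ b ∈ Pt L, ind (k ≤ (Sw T L b).card) ≤ Real.exp (-(k * Real.log s)) * s ^ (Sw T L b).card := by
    intro b _
    generalize (Sw T L b).card = n
    have e : s ^ n = Real.exp (n * Real.log s) := by
      rw [Real.exp_nat_mul, Real.exp_log hs0]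
    rw [e, ← Real.exp_add]
    by_cases h : k ≤ n
    · rw [ind_of h, Real.one_le_exp_iff]
      have := Real.log_nonneg hs
      nlinarith
    · rw [ind_not h]
      exact (Real.exp_pos _).le
  refine (Ev_mono L _ _ h1).trans ?_
  rw [Ev_mul]
  refine (mul_le_mul_of_nonneg_left (gen_upper T L hL hsep Λ hΛ s hs0) (Real.exp_pos _).le).trans_eq ?_
  rw [← Real.exp_add]
  congr 1
  ring

theorem tail_le (T L : Finset ℕ) (hL : ∀ p ∈ L, p.Prime) (hsep : SI.Sep T L) (Λ : ℝ)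
    (hΛ : Λ = T.card * ∏ p ∈ L, (1 - 1 / (p : ℝ))) (s : ℝ) (hs0 : 0 < s) (hs : s ≤ 1) (k : ℝ) :
    Ev L (fun b => ind (((Sw T L b).card : ℝ) ≤ k)) ≤ Real.exp ((s - 1) * Λ - k * Real.log s) := by
  have h1 : ∀ b ∈ Pt L, ind (((Sw T L b).card : ℝ) ≤ k) ≤ Real.exp (-(k * Real.log s)) * s ^ (Sw T L b).card := by
    intro b _
    generalize (Sw T L b).card = n
    have e : s ^ n = Real.exp (n * Real.log s) := by
      rw [Real.exp_nat_mul, Real.exp_log hs0]
    rw [e, ← Real.exp_add]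
    by_cases h : (n : ℝ) ≤ k
    · rw [ind_of h, Real.one_le_exp_iff]
      have := Real.log_nonpos hs0.le hs
      nlinarith
    · rw [ind_not h]
      exact (Real.exp_pos _).le
  refine (Ev_mono L _ _ h1).trans ?_
  rw [Ev_mul]
  refine (mul_le_mul_of_nonneg_left (gen_upper T L hL hsep Λ hΛ s hs0) (Real.exp_pos _).le).trans_eq ?_
  rw [← Real.exp_add]
  congr 1
  ring

/-- **Cramér's change of measure.** -/
theorem tilt (T L : Finset ℕ) (hL : ∀ p ∈ L, p.Prime) (hsep : SI.Sep T L) (Λ : ℝ) (hΛ0 : 0 ≤ Λ)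
    (hΛ : Λ = T.card * ∏ p ∈ L, (1 - 1 / (p : ℝ))) (s ε : ℝ) (hs : 0 < s) (hε : 0 < ε) (hεs : ε ≤ 2 * s)
    (hlow : Real.exp ((s - 1) * Λ - 1) ≤ Ev L (fun b => s ^ (Sw T L b).card))
    (hbig : 12 * s ≤ ε ^ 2 * Λ) :
    1 / 6 * Real.exp ((s - 1) * Λ - s * Λ * Real.log s - |Real.log s| * (ε * Λ)) ≤
      Ev L (fun b => ind (|((Sw T L b).card : ℝ) - s * Λ| ≤ ε * Λ)) := by
  obtain ⟨h, hh⟩ : ∃ h : ℝ, h = ε / (2 * s) := ⟨_, rfl⟩
  have hh0 : 0 < h := by
    rw [hh]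
    positivity
  have hh1 : h ≤ 1 := by
    rw [hh, div_le_one (by positivity)]
    exact hεs
  have hsh : s * h ^ 2 - h * ε = -(ε ^ 2 / (4 * s)) := by
    rw [hh]
    field_simp
    ring
  obtain ⟨M, hM⟩ : ∃ M : ℝ, M = s * Λ * Real.log s + |Real.log s| * (ε * Λ) := ⟨_, rfl⟩
  have hpt : ∀ b ∈ Pt L, s ^ (Sw T L b).card ≤
      Real.exp M * ind (|((Sw T L b).card : ℝ) - s * Λ| ≤ ε * Λ) +
        (Real.exp (-(h * ((s + ε) * Λ))) * (s * Real.exp h) ^ (Sw T L b).card +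
          Real.exp (h * ((s - ε) * Λ)) * (s * Real.exp (-h)) ^ (Sw T L b).card) := by
    intro b _
    generalize (Sw T L b).card = n
    have hsn : 0 < s ^ n := by positivity
    have e1 : Real.exp (-(h * ((s + ε) * Λ))) * (s * Real.exp h) ^ n =
        s ^ n * Real.exp (h * (n - (s + ε) * Λ)) := by
      rw [mul_pow, ← Real.exp_nat_mul]
      have : Real.exp (h * (n - (s + ε) * Λ)) = Real.exp (-(h * ((s + ε) * Λ))) * Real.exp (n * h) := by
        rw [← Real.exp_add]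
        congr 1
        ring
      rw [this]
      ring
    have e2 : Real.exp (h * ((s - ε) * Λ)) * (s * Real.exp (-h)) ^ n =
        s ^ n * Real.exp (h * ((s - ε) * Λ - n)) := by
      rw [mul_pow, ← Real.exp_nat_mul]
      have : Real.exp (h * ((s - ε) * Λ - n)) = Real.exp (h * ((s - ε) * Λ)) * Real.exp (n * -h) := by
        rw [← Real.exp_add]
        congr 1
        ring
      rw [this]
      ring
    rw [e1, e2]
    have p1 : 0 < s ^ n * Real.exp (h * (n - (s + ε) * Λ)) := by positivity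
    have p2 : 0 < s ^ n * Real.exp (h * ((s - ε) * Λ - n)) := by positivity
    by_cases hc : |(n : ℝ) - s * Λ| ≤ ε * Λ
    · rw [ind_of hc, mul_one]
      have e : s ^ n = Real.exp (n * Real.log s) := by
        rw [Real.exp_nat_mul, Real.exp_log hs]
      have h1 : s ^ n ≤ Real.exp M := by
        rw [e]
        apply Real.exp_le_exp.2
        have h2 : ((n : ℝ) - s * Λ) * Real.log s ≤ |Real.log s| * (ε * Λ) := by
          calc ((n : ℝ) - s * Λ) * Real.log s ≤ |((n : ℝ) - s * Λ) * Real.log s| := le_abs_self _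
            _ = |(n : ℝ) - s * Λ| * |Real.log s| := abs_mul _ _
            _ ≤ (ε * Λ) * |Real.log s| := by gcongr
            _ = _ := by ring
        rw [hM]
        linarith
      linarith
    · rw [ind_not hc, mul_zero, zero_add]
      rw [abs_le, not_and_or, not_le, not_le] at hc
      rcases hc with hc | hc
      · have h1 : 1 ≤ Real.exp (h * ((s - ε) * Λ - n)) := by
          rw [Real.one_le_exp_iff]
          apply mul_nonneg hh0.le
          linarith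
        have h2 : s ^ n ≤ s ^ n * Real.exp (h * ((s - ε) * Λ - n)) := le_mul_of_one_le_right hsn.le h1
        linarith
      · have h1 : 1 ≤ Real.exp (h * (n - (s + ε) * Λ)) := by
          rw [Real.one_le_exp_iff]
          apply mul_nonneg hh0.le
          linarith
        have h2 : s ^ n ≤ s ^ n * Real.exp (h * (n - (s + ε) * Λ)) := le_mul_of_one_le_right hsn.le h1
        linarith
  have h1 := Ev_mono L _ _ hpt
  rw [Ev_add, Ev_add, Ev_mul, Ev_mul, Ev_mul] at h1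
  have g1 := gen_upper T L hL hsep Λ hΛ (s * Real.exp h) (by positivity)
  have g2 := gen_upper T L hL hsep Λ hΛ (s * Real.exp (-h)) (by positivity)
  have q1 := exp_quad h (by rwa [abs_of_pos hh0])
  have q2 := exp_quad (-h) (by rwa [abs_neg, abs_of_pos hh0])
  have b1 : Real.exp (-(h * ((s + ε) * Λ))) * Ev L (fun b => (s * Real.exp h) ^ (Sw T L b).card) ≤
      Real.exp ((s - 1) * Λ - 3) := by
    refine (mul_le_mul_of_nonneg_left g1 (Real.exp_pos _).le).trans ?_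
    rw [← Real.exp_add]
    apply Real.exp_le_exp.2
    have h2 : (s * Real.exp h - 1) * Λ ≤ (s * (1 + h + h ^ 2) - 1) * Λ := by
      apply mul_le_mul_of_nonneg_right _ hΛ0
      have := mul_le_mul_of_nonneg_left q1 hs.le
      linarith
    have h3 : -(h * ((s + ε) * Λ)) + (s * (1 + h + h ^ 2) - 1) * Λ = (s - 1) * Λ + (s * h ^ 2 - h * ε) * Λ := by ring
    have h4 : 3 ≤ ε ^ 2 / (4 * s) * Λ := by
      rw [div_mul_eq_mul_div, le_div_iff₀ (by positivity)]
      linarith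
    rw [hsh] at h3
    linarith
  have b2 : Real.exp (h * ((s - ε) * Λ)) * Ev L (fun b => (s * Real.exp (-h)) ^ (Sw T L b).card) ≤
      Real.exp ((s - 1) * Λ - 3) := by
    refine (mul_le_mul_of_nonneg_left g2 (Real.exp_pos _).le).trans ?_
    rw [← Real.exp_add]
    apply Real.exp_le_exp.2
    have h2 : (s * Real.exp (-h) - 1) * Λ ≤ (s * (1 + -h + (-h) ^ 2) - 1) * Λ := by
      apply mul_le_mul_of_nonneg_right _ hΛ0
      have := mul_le_mul_of_nonneg_left q2 hs.le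
      linarith
    have h3 : h * ((s - ε) * Λ) + (s * (1 + -h + (-h) ^ 2) - 1) * Λ = (s - 1) * Λ + (s * h ^ 2 - h * ε) * Λ := by ring
    have h4 : 3 ≤ ε ^ 2 / (4 * s) * Λ := by
      rw [div_mul_eq_mul_div, le_div_iff₀ (by positivity)]
      linarith
    rw [hsh] at h3
    linarith
  -- compare
  have hE := Real.exp_one_gt_d9
  have hE2 : (7 : ℝ) ≤ Real.exp 2 := by
    have : Real.exp 2 = Real.exp 1 * Real.exp 1 := by
      rw [← Real.exp_add]
      norm_num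
    rw [this]
    nlinarith
  have hcmp : Real.exp ((s - 1) * Λ - 1) = Real.exp 2 * Real.exp ((s - 1) * Λ - 3) := by
    rw [← Real.exp_add]
    congr 1
    ring
  obtain ⟨A, hA⟩ : ∃ A : ℝ, A = Real.exp ((s - 1) * Λ - 3) := ⟨_, rfl⟩
  have hA0 : 0 < A := by
    rw [hA]
    exact Real.exp_pos _
  have hfin : 5 * A ≤ Real.exp M * Ev L (fun b => ind (|((Sw T L b).card : ℝ) - s * Λ| ≤ ε * Λ)) := by
    rw [hcmp, ← hA] at hlow
    rw [← hA] at b1 b2
    nlinarith
  have hE3 : Real.exp 3 ≤ 30 := by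
    have h5 := Real.exp_one_lt_d9
    have h6 : Real.exp 3 = Real.exp 1 * Real.exp 1 * Real.exp 1 := by
      rw [← Real.exp_add, ← Real.exp_add]
      norm_num
    rw [h6]
    have h7 := Real.exp_pos 1
    have h8 : Real.exp 1 * Real.exp 1 ≤ 2.7182818286 * 2.7182818286 := by gcongr
    calc Real.exp 1 * Real.exp 1 * Real.exp 1 ≤ 2.7182818286 * 2.7182818286 * 2.7182818286 := by gcongr
      _ ≤ 30 := by norm_num
  have hfin2 : 5 * A = Real.exp ((s - 1) * Λ) * (5 * Real.exp (-3)) := by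
    rw [hA, sub_eq_add_neg, Real.exp_add]
    ring
  have hfin3 : (1 / 6 : ℝ) ≤ 5 * Real.exp (-3) := by
    rw [Real.exp_neg, ← div_eq_mul_inv, div_le_div_iff₀ (by norm_num) (Real.exp_pos _)]
    linarith
  have e9 : Real.exp ((s - 1) * Λ - s * Λ * Real.log s - |Real.log s| * (ε * Λ)) =
      Real.exp ((s - 1) * Λ) * Real.exp (-M) := by
    rw [← Real.exp_add, hM]
    congr 1
    ring
  rw [e9]
  have h10 : Real.exp (-M) * (Real.exp M * Ev L (fun b => ind (|((Sw T L b).card : ℝ) - s * Λ| ≤ ε * Λ))) =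
      Ev L (fun b => ind (|((Sw T L b).card : ℝ) - s * Λ| ≤ ε * Λ)) := by
    rw [← mul_assoc, ← Real.exp_add]
    simp
  rw [← h10]
  calc 1 / 6 * (Real.exp ((s - 1) * Λ) * Real.exp (-M)) = Real.exp (-M) * (Real.exp ((s - 1) * Λ) * (1 / 6)) := by ring
    _ ≤ Real.exp (-M) * (Real.exp ((s - 1) * Λ) * (5 * Real.exp (-3))) := by gcongr
    _ ≤ _ := by
      rw [← hfin2]
      exact mul_le_mul_of_nonneg_left hfin (Real.exp_pos _).le

theorem zero_lower (T L : Finset ℕ) (hL : ∀ p ∈ L, p.Prime) (t : ℝ) (ht : 0 < t) (ht1 : t ≤ 1) :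
    Ev L (fun b => t ^ (Sw T L b).card) - t ≤ Ev L (fun b => ind ((Sw T L b).card = 0)) := by
  have hc := Ev_const L (fun p hp => (hL p hp).pos) t
  have h1 : Ev L (fun b => t ^ (Sw T L b).card) ≤ Ev L (fun b => ind ((Sw T L b).card = 0) + t) := by
    refine Ev_mono L _ _ fun b _ => ?_
    rcases Nat.eq_zero_or_pos (Sw T L b).card with h | h
    · rw [h, ind_of rfl]
      simp only [pow_zero]
      linarith
    · rw [ind_not (by omega)]
      have : t ^ (Sw T L b).card ≤ t ^ 1 := pow_le_pow_of_le_one ht.le ht1 h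
      rw [pow_one] at this
      linarith
  rw [Ev_add L (fun b => ind ((Sw T L b).card = 0)) (fun _ => t), hc] at h1
  linarith

end Pool.Agent.H531.PW
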